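import Pool.Agent.Uni.Asy

/-!
# Block UNI, theorem (U) (helper34)
-/

set_option autoImplicit false

namespace Pool.Agent.Uni

open Finset Filter
open Pool.Agent.SRC

variable {d : ℕ}

theorem EB_theta (s : ℝ) (E Θ : Finset (Ed d)) (φ : Finset (Ed d) → ℝ) :
    EB s E (fun c => φ (Θ ∪ c)) = EB s (E \ Θ) (fun c => φ (Θ ∪ c)) := by
  rw [← EB_restrict s E (E \ Θ) Finset.sdiff_subset (fun c => φ (Θ ∪ c))]
  refine EB_congr _ _ _ _ fun c hc => ?_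
  have : Θ ∪ c = Θ ∪ c ∩ (E \ Θ) := by
    ext e
    rw [Finset.mem_union, Finset.mem_union, Finset.mem_inter, Finset.mem_sdiff]
    constructor
    · rintro (h | h)
      · exact Or.inl h
      · by_cases h2 : e ∈ Θ
        · exact Or.inl h2
        · exact Or.inr ⟨h, hc h, h2⟩
    · rintro (h | ⟨h, _⟩)
      · exact Or.inl h
      · exact Or.inr h
  show φ (Θ ∪ c) = φ (Θ ∪ c ∩ (E \ Θ))
  rw [← this]

theorem tile_of {o x : Vx d} {k M : ℕ} (hk : 1 ≤ k) (hx : x ∈ cb o (k * M)) :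
    ∃ u ∈ gr d M, x ∈ tl o k u := by
  have hk' : (0 : ℤ) < (k : ℤ) := by exact_mod_cast hk
  refine ⟨fun i => (x i - o i) / (k : ℤ), ?_, ?_⟩
  · rw [mem_gr]
    intro i
    have h1 := (mem_cb.mp hx) i
    push_cast at h1
    constructor
    · exact Int.ediv_nonneg (by linarith [h1.1]) hk'.le
    · show (x i - o i) / (k : ℤ) < (M : ℤ)
      rw [Int.ediv_lt_iff_lt_mul hk']
      linarith [h1.2, mul_comm (k : ℤ) (M : ℤ)]
  · rw [mem_tl]
    intro i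
    show o i + (k : ℤ) * ((x i - o i) / (k : ℤ)) ≤ x i ∧
      x i < o i + (k : ℤ) * ((x i - o i) / (k : ℤ)) + (k : ℤ)
    have h1 := Int.mul_ediv_add_emod (x i - o i) (k : ℤ)
    have h2 := Int.emod_nonneg (x i - o i) hk'.ne'
    have h3 := Int.emod_lt_of_pos (x i - o i) hk'
    constructor <;> linarith

theorem cb_card (a : Vx d) (n : ℕ) : (cb a n).card = n ^ d := by
  unfold cb
  rw [Pi.card_Icc]
  have : ∀ i : Fin d, (Finset.Icc (a i) (a i + (n : ℤ) - 1)).card = n := by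
    intro i
    rw [Int.card_Icc]
    omega
  rw [Finset.prod_congr rfl fun i _ => this i, Finset.prod_const, Finset.card_univ,
    Fintype.card_fin]

theorem edg_card (a : Vx d) (n : ℕ) : (edg (cb a n)).card ≤ d * n ^ d := by
  have h1 : (edg (cb a n)).card ≤ ((cb a n) ×ˢ (Finset.univ : Finset (Fin d))).card := by
    refine Finset.card_le_card fun e he => ?_
    unfold edg at he
    rw [Finset.mem_filter] at he
    exact he.1
  rw [Finset.card_product, Finset.card_univ, Fintype.card_fin, cb_card, mul_comm] at h1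
  exact h1

/-- a tile of the `j`-th region lies in the cube -/
theorem tile_sub {a u : Vx d} {n k m L j : ℕ} (hkL : k * L ≤ n) (hj : 2 * (j * m) ≤ L)
    (hu : u ∈ gr d (L - 2 * (j * m))) : tl (og a k m j) k u ⊆ cb a n := by
  intro x hx
  rw [mem_tl] at hx
  rw [mem_cb]
  intro i
  have h1 := hx i
  have h2 := (mem_gr.mp hu) i
  have h3 : (og a k m j) i = a i + (k : ℤ) * ((j : ℤ) * (m : ℤ)) := rfl
  rw [h3] at h1
  have hk0 : (0 : ℤ) ≤ (k : ℤ) := Int.natCast_nonneg k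
  have hjm : (0 : ℤ) ≤ (k : ℤ) * ((j : ℤ) * (m : ℤ)) := by positivity
  have hku : 0 ≤ (k : ℤ) * u i := mul_nonneg hk0 h2.1
  refine ⟨by linarith [h1.1], ?_⟩
  have h4 : ((L - 2 * (j * m) : ℕ) : ℤ) = (L : ℤ) - 2 * ((j : ℤ) * (m : ℤ)) := by
    rw [Nat.cast_sub hj]
    push_cast
    ring
  rw [h4] at h2
  have h5 : (k : ℤ) * (u i + 1) ≤ (k : ℤ) * ((L : ℤ) - 2 * ((j : ℤ) * (m : ℤ))) :=
    mul_le_mul_of_nonneg_left (by linarith [h2.2]) hk0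
  have h6 : (k : ℤ) * (L : ℤ) ≤ (n : ℤ) := by exact_mod_cast hkL
  have h7 : (k : ℤ) * (u i + 1) = (k : ℤ) * u i + (k : ℤ) := by ring
  have h8 : (k : ℤ) * ((L : ℤ) - 2 * ((j : ℤ) * (m : ℤ))) =
      (k : ℤ) * (L : ℤ) - 2 * ((k : ℤ) * ((j : ℤ) * (m : ℤ))) := by ring
  rw [h7, h8] at h5
  linarith [h1.2]

theorem TT_of_Tiles {a : Vx d} {n k m L j : ℕ} {ω : Finset (Ed d)} (hkL : k * L ≤ n)
    (hj : 2 * (j * m) ≤ L) (h : Tiles a n k ω) :
    TT (cbd a n) ω (og a k m j) k (L - 2 * (j * m)) := by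
  intro u hu
  exact h _ (tile_sub hkL hj hu)

theorem NN_of_Two {a : Vx d} {n k m J : ℕ} {ω : Finset (Ed d)} (hk : 1 ≤ k)
    (h4 : 4 * (k + k * (J * m)) < n) (h : Two a n ω) :
    1 ≤ NN (cb a n) (cbd a n) ω (og a k m J) k (n / k - 2 * (J * m)) := by
  classical
  have hL1 : n < k * (n / k) + k := by
    have := Nat.lt_mul_div_succ n (by omega : 0 < k)
    rw [mul_add, mul_one] at this
    exact this
  have hJL : 2 * (J * m) ≤ n / k := by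
    rw [Nat.le_div_iff_mul_le (by omega : 0 < k)]
    have : 2 * (J * m) * k = 2 * (k * (J * m)) := by ring
    rw [this]
    omega
  obtain ⟨x, y, hx, hy, hxB, hyB, hxy⟩ := h
  have hin : ∀ z : Vx d, (∀ i, 4 * a i + (n : ℤ) ≤ 4 * z i ∧ 4 * z i ≤ 4 * a i + 3 * (n : ℤ)) →
      z ∈ cb (og a k m J) (k * (n / k - 2 * (J * m))) := by
    intro z hz
    rw [mem_cb]
    intro i
    have h1 := hz i
    have h3 : (og a k m J) i = a i + (k : ℤ) * ((J : ℤ) * (m : ℤ)) := rfl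
    rw [h3]
    have h5 : 4 * ((k : ℤ) + (k : ℤ) * ((J : ℤ) * (m : ℤ))) < (n : ℤ) := by exact_mod_cast h4
    have hk0 : (0 : ℤ) ≤ (k : ℤ) := Int.natCast_nonneg k
    refine ⟨by linarith [h1.1], ?_⟩
    have h6 : ((k * (n / k - 2 * (J * m)) : ℕ) : ℤ) =
        ((k * (n / k) : ℕ) : ℤ) - 2 * ((k : ℤ) * ((J : ℤ) * (m : ℤ))) := by
      rw [Nat.cast_mul, Nat.cast_sub hJL]
      push_cast
      ring
    rw [h6]
    have h7 : (n : ℤ) < ((k * (n / k) : ℕ) : ℤ) + (k : ℤ) := by exact_mod_cast hL1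
    linarith [h1.2]
  have hV : ∀ z : Vx d, (∀ i, 4 * a i + (n : ℤ) ≤ 4 * z i ∧ 4 * z i ≤ 4 * a i + 3 * (n : ℤ)) →
      z ∈ cb a n := by
    intro z hz
    rw [mem_cb]
    intro i
    have h1 := hz i
    have h0 : (0 : ℤ) < (n : ℤ) := by exact_mod_cast (by omega : 0 < n)
    constructor
    · linarith [h1.1]
    · linarith [h1.2]
  obtain ⟨bx, hbx, hcx⟩ := hxB
  obtain ⟨bY, hby, hcy⟩ := hyB
  have hX : cl (cb a n) ω bx ∈ fl (BC (cb a n) (cbd a n) ω) (fun X =>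
      (vis (og a k m J) k (n / k - 2 * (J * m)) X).Nonempty) := by
    rw [mem_fl]
    refine ⟨mem_BC.mpr ⟨bx, hbx, rfl⟩, ?_⟩
    obtain ⟨u, hu, hxu⟩ := tile_of hk (hin x hx)
    exact ⟨u, mem_vis.mpr ⟨hu, x, hxu, mem_cl.mpr ⟨hV x hx, conn_symm hcx⟩⟩⟩
  have hY : cl (cb a n) ω bY ∈ fl (BC (cb a n) (cbd a n) ω) (fun X =>
      (vis (og a k m J) k (n / k - 2 * (J * m)) X).Nonempty) := by
    rw [mem_fl]
    refine ⟨mem_BC.mpr ⟨bY, hby, rfl⟩, ?_⟩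
    obtain ⟨u, hu, hyu⟩ := tile_of hk (hin y hy)
    exact ⟨u, mem_vis.mpr ⟨hu, y, hyu, mem_cl.mpr ⟨hV y hy, conn_symm hcy⟩⟩⟩
  have hne : cl (cb a n) ω bx ≠ cl (cb a n) ω bY := by
    intro h
    have h1 : y ∈ cl (cb a n) ω bx := by
      rw [h]
      exact mem_cl.mpr ⟨hV y hy, conn_symm hcy⟩
    exact hxy (conn_trans hcx (mem_cl.mp h1).2)
  have h2 : 1 < (fl (BC (cb a n) (cbd a n) ω) (fun X =>
      (vis (og a k m J) k (n / k - 2 * (J * m)) X).Nonempty)).card :=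
    Finset.one_lt_card.mpr ⟨_, hX, _, hY, hne⟩
  unfold NN
  omega

/-- **Theorem (U)** -/
theorem uni (hd : 3 ≤ d) {s : ℝ} (hs0 : 0 < s) (hs1 : s < 1) :
    ∃ δ : ℝ, 0 < δ ∧ ∃ n0 : ℕ, ∀ n : ℕ, n0 ≤ n → ∀ k : ℕ, 1 ≤ k → (k : ℝ) ≤ δ * Real.log n →
      ∀ (a : Vx d) (Θ : Finset (Ed d)), Θ ⊆ edg (cb a n) →
      EB s (edg (cb a n)) (fun c => ind (Two a n (Θ ∪ c))) ≤
        (n : ℝ)⁻¹ + (n : ℝ) ^ (d + 3) *
          EB s (edg (cb a n)) (fun c => ind (¬ Tiles a n k (Θ ∪ c))) := by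
  classical
  obtain ⟨C, hC, hstep⟩ := step (d := d) hd
  set J : ℕ := 4 * (d + 2) with hJ
  obtain ⟨δ, hδ, n1, hasy⟩ := asy d J hC hs0 hs1
  refine ⟨δ, hδ, max n1 (64 * d * (d + 1) * (d + 2) + 8 * (d + 2) + 2), ?_⟩
  intro n hn k hk hkd a Θ hΘ
  have hn1 : n1 ≤ n := (le_max_left _ _).trans hn
  have hn2 : 64 * d * (d + 1) * (d + 2) + 8 * (d + 2) + 2 ≤ n := (le_max_right _ _).trans hn
  obtain ⟨hA1, hA2, hA3⟩ := hasy n hn1 k hk hkd
  have hn3 : 1 ≤ n := by omega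
  have hnR : (1 : ℝ) ≤ (n : ℝ) := by exact_mod_cast hn3
  have hnR0 : (0 : ℝ) < (n : ℝ) := by linarith
  have hdR : (0 : ℝ) ≤ (d : ℝ) := Nat.cast_nonneg d
  set F := edg (cb a n) \ Θ with hFd
  have hF : Disjoint F Θ := Finset.sdiff_disjoint
  have hVF : Θ ∪ F = edg (cb a n) := Finset.union_sdiff_of_subset hΘ
  rw [EB_theta s (edg (cb a n)) Θ (fun ω => ind (Two a n ω)),
    EB_theta s (edg (cb a n)) Θ (fun ω => ind (¬ Tiles a n k ω)), ← hFd]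
  set PT := EB s F (fun c => ind (¬ Tiles a n k (Θ ∪ c))) with hPT
  have hPT0 : 0 ≤ PT := by
    have h1 := EB_mono s hs0.le hs1.le F (fun _ => (0 : ℝ)) (fun c => ind (¬ Tiles a n k (Θ ∪ c)))
      (fun c _ => ind_nonneg _)
    rwa [EB_const] at h1
  set m := Nat.sqrt n with hm
  set L := n / k with hL
  have hkL : k * L ≤ n := Nat.mul_div_le n k
  have hm1 : 1 ≤ m := by
    rw [hm, Nat.le_sqrt]
    omega
  have hJL : 2 * (J * m) ≤ L := by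
    rw [hL, Nat.le_div_iff_mul_le (by omega : 0 < k)]
    have : 2 * (J * m) * k = 2 * (k * (J * m)) := by ring
    rw [this]
    omega
  set τ : ℝ := (3 * (d : ℝ) + 4) * Real.log n with hτd
  have hτ : 0 ≤ τ := mul_nonneg (by positivity) (Real.log_natCast_nonneg n)
  set E : ℕ → ℝ := fun j => EB s F (fun c => ((NN (cb a n) (cbd a n) (Θ ∪ c)
        (og a k m j) k (L - 2 * (j * m)) : ℕ) : ℝ)) with hE
  have hm23 : (n : ℝ) ^ ((1 : ℝ) / 3) ≤ 2 * (m : ℝ) ^ ((2 : ℝ) / 3) := by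
    have h1 : n < (m + 1) * (m + 1) := Nat.sqrt_lt.mp (lt_of_le_of_lt (le_refl _) (Nat.lt_succ_self m)) |> fun h => by
      simpa using h
    have h2 : n ≤ 4 * m ^ 2 := by nlinarith
    have h3 : (n : ℝ) ≤ 4 * (m : ℝ) ^ 2 := by exact_mod_cast h2
    have h4 : (n : ℝ) ^ ((1 : ℝ) / 3) ≤ (4 * (m : ℝ) ^ 2) ^ ((1 : ℝ) / 3) :=
      Real.rpow_le_rpow hnR0.le h3 (by norm_num)
    have hm0 : (0 : ℝ) ≤ (m : ℝ) := Nat.cast_nonneg m
    have h5 : (4 * (m : ℝ) ^ 2) ^ ((1 : ℝ) / 3) = (4 : ℝ) ^ ((1 : ℝ) / 3) * (m : ℝ) ^ ((2 : ℝ) / 3) := by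
      rw [Real.mul_rpow (by norm_num) (by positivity)]
      congr 1
      rw [← Real.rpow_natCast, ← Real.rpow_mul hm0]
      norm_num
    have h6 : (4 : ℝ) ^ ((1 : ℝ) / 3) ≤ 2 := by
      have h7 : (4 : ℝ) ^ ((1 : ℝ) / 3) ≤ (8 : ℝ) ^ ((1 : ℝ) / 3) :=
        Real.rpow_le_rpow (by norm_num) (by norm_num) (by norm_num)
      have h8 : (8 : ℝ) ^ ((1 : ℝ) / 3) = 2 := by
        rw [show (8 : ℝ) = 2 ^ (3 : ℝ) by norm_num, ← Real.rpow_mul (by norm_num)]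
        norm_num
      linarith
    rw [h5] at h4
    exact h4.trans (mul_le_mul_of_nonneg_right h6 (Real.rpow_nonneg hm0 _))
  set q : ℝ := (n : ℝ) ^ (-(1 : ℝ) / 4) with hq
  have hq0 : 0 < q := Real.rpow_pos_of_pos hnR0 _
  have hq1 : q ≤ 1 := Real.rpow_le_one_of_one_le_of_nonpos hnR (by norm_num)
  set r : ℝ := 2 * (4 * (d : ℝ) * ((d : ℝ) + 1) * ((n : ℝ) ^ 3)⁻¹ + (n : ℝ) ^ d * PT) with hr
  have hr0 : 0 ≤ r := by
    rw [hr]
    positivity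
  have hBc : ((cbd a n).card : ℝ) ≤ (n : ℝ) ^ d := by
    have h1 : (cbd a n).card ≤ (cb a n).card := Finset.card_le_card (fl_subset _ _)
    rw [cb_card] at h1
    exact_mod_cast h1
  have hFc : (F.card : ℝ) ≤ (d : ℝ) * (n : ℝ) ^ d := by
    have h1 : F.card ≤ (edg (cb a n)).card := Finset.card_le_card Finset.sdiff_subset
    have h2 := h1.trans (edg_card a n)
    exact_mod_cast h2
  have hexp : Real.exp (-τ) = ((n : ℝ) ^ (3 * d + 4))⁻¹ := by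
    rw [hτd, Real.exp_neg, mul_comm, Real.exp_mul, Real.exp_log hnR0]
    congr 1
    rw [← Real.rpow_natCast]
    push_cast
    rfl
  -- one step
  have hrec : ∀ j, j < J → E (j + 1) ≤ q * E j + r := by
    intro j hj
    have hj1 : 2 * ((j + 1) * m) ≤ L := by
      have : (j + 1) * m ≤ J * m := Nat.mul_le_mul_right m hj
      omega
    have hj0 : 2 * (j * m) ≤ L := by
      have : j * m ≤ J * m := Nat.mul_le_mul_right m hj.le
      omega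
    have h1 := hstep s τ hs0 hs1 hτ a n k m L j Θ F hn3 hk hkL hm1 hj1 hVF hF
    have hE0 : 0 ≤ E j := by
      have h2 := EB_mono s hs0.le hs1.le F (fun _ => (0 : ℝ)) (fun c => ((NN (cb a n) (cbd a n) (Θ ∪ c)
        (og a k m j) k (L - 2 * (j * m)) : ℕ) : ℝ)) (fun c _ => Nat.cast_nonneg _)
      rwa [EB_const] at h2
    have hE1 : 0 ≤ E (j + 1) := by
      have h2 := EB_mono s hs0.le hs1.le F (fun _ => (0 : ℝ)) (fun c => ((NN (cb a n) (cbd a n) (Θ ∪ c)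
        (og a k m (j + 1)) k (L - 2 * ((j + 1) * m)) : ℕ) : ℝ)) (fun c _ => Nat.cast_nonneg _)
      rwa [EB_const] at h2
    have hMMf := MM_fail hs0.le hs1.le hτ (cbd a n) Θ F (rg (og a k m j) k (L - 2 * (j * m))) hF
    set PM := EB s F (fun c => ind (¬ MM s τ (cbd a n) Θ F (rg (og a k m j) k (L - 2 * (j * m))) c))
      with hPM
    have hPM1 : PM ≤ 4 * (n : ℝ) ^ d * ((d : ℝ) * (n : ℝ) ^ d + 1) * ((n : ℝ) ^ (3 * d + 4))⁻¹ := by
      refine hMMf.trans ?_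
      rw [hexp]
      refine mul_le_mul_of_nonneg_right ?_ (by positivity)
      refine mul_le_mul ?_ (by linarith) (by positivity) (by positivity)
      linarith
    have hn_d : (1 : ℝ) ≤ (n : ℝ) ^ d := one_le_pow₀ hnR
    have hPM2 : C * (k : ℝ) ^ d * K2 d s k * ((d : ℝ) * (n : ℝ) ^ d) * PM ≤
        4 * (d : ℝ) * ((d : ℝ) + 1) * ((n : ℝ) ^ 3)⁻¹ := by
      have h3 : C * (k : ℝ) ^ d * K2 d s k * ((d : ℝ) * (n : ℝ) ^ d) ≤ n * ((d : ℝ) * (n : ℝ) ^ d) :=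
        mul_le_mul_of_nonneg_right hA2 (by positivity)
      have hPM0 : 0 ≤ PM := by
        have h2 := EB_mono s hs0.le hs1.le F (fun _ => (0 : ℝ)) (fun c => ind (¬ MM s τ (cbd a n) Θ F
          (rg (og a k m j) k (L - 2 * (j * m))) c)) (fun c _ => ind_nonneg _)
        rwa [EB_const] at h2
      have h4 : C * (k : ℝ) ^ d * K2 d s k * ((d : ℝ) * (n : ℝ) ^ d) * PM ≤
          n * ((d : ℝ) * (n : ℝ) ^ d) *
            (4 * (n : ℝ) ^ d * ((d : ℝ) * (n : ℝ) ^ d + 1) * ((n : ℝ) ^ (3 * d + 4))⁻¹) :=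
        mul_le_mul h3 hPM1 hPM0 (by positivity)
      have h5 : (d : ℝ) * (n : ℝ) ^ d + 1 ≤ ((d : ℝ) + 1) * (n : ℝ) ^ d := by nlinarith
      have h6 : n * ((d : ℝ) * (n : ℝ) ^ d) *
            (4 * (n : ℝ) ^ d * ((d : ℝ) * (n : ℝ) ^ d + 1) * ((n : ℝ) ^ (3 * d + 4))⁻¹) ≤
            n * ((d : ℝ) * (n : ℝ) ^ d) *
            (4 * (n : ℝ) ^ d * (((d : ℝ) + 1) * (n : ℝ) ^ d) * ((n : ℝ) ^ (3 * d + 4))⁻¹) := by
        refine mul_le_mul_of_nonneg_left ?_ (by positivity)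
        refine mul_le_mul_of_nonneg_right ?_ (by positivity)
        exact mul_le_mul_of_nonneg_left h5 (by positivity)
      have h7 : n * ((d : ℝ) * (n : ℝ) ^ d) *
            (4 * (n : ℝ) ^ d * (((d : ℝ) + 1) * (n : ℝ) ^ d) * ((n : ℝ) ^ (3 * d + 4))⁻¹) =
            4 * (d : ℝ) * ((d : ℝ) + 1) * ((n : ℝ) ^ 3)⁻¹ := by
        have h8 : (n : ℝ) ^ (3 * d + 4) = n * ((n : ℝ) ^ d * (n : ℝ) ^ d * (n : ℝ) ^ d) * (n : ℝ) ^ 3 := by
          ring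
        rw [h8]
        field_simp
      linarith
    have hTTf : EB s F (fun c => ind (¬ TT (cbd a n) (Θ ∪ c) (og a k m j) k
          (L - 2 * (j * m)))) ≤ PT := by
      refine EB_mono s hs0.le hs1.le F _ _ fun c _ => ?_
      exact ind_mono fun h h2 => h (TT_of_Tiles hkL hj0 h2)
    have hmR : (1 : ℝ) ≤ (m : ℝ) := by exact_mod_cast hm1
    have hmp : (1 : ℝ) ≤ (m : ℝ) ^ ((2 : ℝ) / 3) := Real.one_le_rpow hmR (by norm_num)
    have hKD : 16 * KD C d s τ k ^ 4 ≤ q * (m : ℝ) ^ ((2 : ℝ) / 3) := by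
      have h9 : (n : ℝ) ^ ((1 : ℝ) / 12) = q * (n : ℝ) ^ ((1 : ℝ) / 3) := by
        rw [hq, ← Real.rpow_add hnR0]
        norm_num
      rw [h9] at hA1
      have h10 : q * (n : ℝ) ^ ((1 : ℝ) / 3) ≤ q * (2 * (m : ℝ) ^ ((2 : ℝ) / 3)) :=
        mul_le_mul_of_nonneg_left hm23 hq0.le
      linarith
    have h11 : (m : ℝ) ^ ((2 : ℝ) / 3) * E (j + 1) ≤ (m : ℝ) ^ ((2 : ℝ) / 3) * (q * E j + r) := by
      have h12 : 16 * KD C d s τ k ^ 4 * E j ≤ q * (m : ℝ) ^ ((2 : ℝ) / 3) * E j :=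
        mul_le_mul_of_nonneg_right hKD hE0
      have h13 : (n : ℝ) ^ d * EB s F (fun c => ind (¬ TT (cbd a n) (Θ ∪ c) (og a k m j) k
          (L - 2 * (j * m)))) ≤ (n : ℝ) ^ d * PT := mul_le_mul_of_nonneg_left hTTf (by positivity)
      have h14 : r ≤ (m : ℝ) ^ ((2 : ℝ) / 3) * r := by nlinarith
      have h15 : (m : ℝ) ^ ((2 : ℝ) / 3) * E (j + 1) ≤ 16 * KD C d s τ k ^ 4 * E j + r := by
        refine h1.trans ?_
        rw [hr]
        linarith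
      nlinarith
    exact le_of_mul_le_mul_left h11 (by linarith)
  -- iterate
  have hE0 : E 0 ≤ (n : ℝ) ^ d := by
    have h1 := EB_mono s hs0.le hs1.le F (fun c => ((NN (cb a n) (cbd a n) (Θ ∪ c)
        (og a k m 0) k (L - 2 * (0 * m)) : ℕ) : ℝ)) (fun _ => (n : ℝ) ^ d) (fun c _ => by
      have h2 : NN (cb a n) (cbd a n) (Θ ∪ c) (og a k m 0) k (L - 2 * (0 * m)) ≤ (cbd a n).card := by
        unfold NN
        refine (Nat.sub_le _ _).trans ?_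
        refine (Finset.card_le_card (fl_subset _ _)).trans ?_
        unfold BC
        exact Finset.card_image_le
      refine le_trans ?_ hBc
      exact_mod_cast h2)
    rwa [EB_const] at h1
  have hit : ∀ j, j ≤ J → E j ≤ q ^ j * (n : ℝ) ^ d + (j : ℝ) * r := by
    intro j
    induction j with
    | zero =>
      intro _
      rw [pow_zero, one_mul, Nat.cast_zero, zero_mul, add_zero]
      exact hE0
    | succ j ih =>
      intro hj
      have h1 := ih (by omega)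
      have h2 := hrec j (by omega)
      have h3 : q * E j ≤ q * (q ^ j * (n : ℝ) ^ d + (j : ℝ) * r) :=
        mul_le_mul_of_nonneg_left h1 hq0.le
      have h4 : q * ((j : ℝ) * r) ≤ 1 * ((j : ℝ) * r) :=
        mul_le_mul_of_nonneg_right hq1 (by positivity)
      have h5 : q ^ (j + 1) * (n : ℝ) ^ d = q * (q ^ j * (n : ℝ) ^ d) := by ring
      rw [h5]
      push_cast
      nlinarith
  have hEJ := hit J (le_refl _)
  have hqJ : q ^ J * (n : ℝ) ^ d = ((n : ℝ) ^ 2)⁻¹ := by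
    rw [hq, ← Real.rpow_natCast ((n : ℝ) ^ (-(1 : ℝ) / 4)), ← Real.rpow_mul hnR0.le,
      ← Real.rpow_natCast (n : ℝ) d, ← Real.rpow_add hnR0, ← Real.rpow_natCast (n : ℝ) 2,
      ← Real.rpow_neg hnR0.le]
    congr 1
    rw [hJ]
    push_cast
    ring
  have hTwo : EB s F (fun c => ind (Two a n (Θ ∪ c))) ≤ E J := by
    refine EB_mono s hs0.le hs1.le F _ _ fun c _ => ?_
    by_cases h : Two a n (Θ ∪ c)
    · rw [ind_true h]
      have h2 := NN_of_Two hk hA3 h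
      exact_mod_cast h2
    · rw [ind_false h]
      exact Nat.cast_nonneg _
  refine hTwo.trans (hEJ.trans ?_)
  rw [hqJ]
  have hJR : (J : ℝ) = 4 * ((d : ℝ) + 2) := by
    rw [hJ]
    push_cast
    ring
  rw [hJR, hr]
  have hn2R : 64 * (d : ℝ) * ((d : ℝ) + 1) * ((d : ℝ) + 2) + 8 * ((d : ℝ) + 2) + 2 ≤ (n : ℝ) := by
    exact_mod_cast hn2
  have f1 : ((n : ℝ) ^ 2)⁻¹ + 4 * ((d : ℝ) + 2) *
      (2 * (4 * (d : ℝ) * ((d : ℝ) + 1) * ((n : ℝ) ^ 3)⁻¹)) ≤ (n : ℝ)⁻¹ := by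
    have e1 : ((n : ℝ) ^ 2)⁻¹ + 4 * ((d : ℝ) + 2) *
      (2 * (4 * (d : ℝ) * ((d : ℝ) + 1) * ((n : ℝ) ^ 3)⁻¹)) =
      (n : ℝ)⁻¹ * ((n + 32 * (d : ℝ) * ((d : ℝ) + 1) * ((d : ℝ) + 2)) / (n : ℝ) ^ 2) := by
      field_simp
      ring
    rw [e1]
    have e2 : (n + 32 * (d : ℝ) * ((d : ℝ) + 1) * ((d : ℝ) + 2)) / (n : ℝ) ^ 2 ≤ 1 := by
      rw [div_le_one (by positivity)]
      have e3 : 0 ≤ 32 * (d : ℝ) * ((d : ℝ) + 1) * ((d : ℝ) + 2) := by positivity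
      nlinarith
    calc (n : ℝ)⁻¹ * ((n + 32 * (d : ℝ) * ((d : ℝ) + 1) * ((d : ℝ) + 2)) / (n : ℝ) ^ 2)
        ≤ (n : ℝ)⁻¹ * 1 := mul_le_mul_of_nonneg_left e2 (by positivity)
      _ = (n : ℝ)⁻¹ := mul_one _
  have f2 : 4 * ((d : ℝ) + 2) * (2 * ((n : ℝ) ^ d * PT)) ≤ (n : ℝ) ^ (d + 3) * PT := by
    have e4 : 8 * ((d : ℝ) + 2) ≤ (n : ℝ) ^ 3 := by
      have e5 : (n : ℝ) ≤ (n : ℝ) ^ 3 := le_self_pow₀ hnR (by norm_num)
      have e6 : 0 ≤ 64 * (d : ℝ) * ((d : ℝ) + 1) * ((d : ℝ) + 2) := by positivity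
      linarith
    have e7 : 0 ≤ (n : ℝ) ^ d * PT := by positivity
    rw [pow_add]
    nlinarith
  linarith

/-- **Theorem (U)** with `ε` -/
theorem uni_eps (hd : 3 ≤ d) {s : ℝ} (hs0 : 0 < s) (hs1 : s < 1) :
    ∀ ε : ℝ, 0 < ε → ∃ δ : ℝ, 0 < δ ∧ ∃ n0 : ℕ, ∀ n k : ℕ, n0 ≤ n → 1 ≤ k →
      (k : ℝ) ≤ δ * Real.log n → ∀ (a : Vx d) (Θ : Finset (Ed d)), Θ ⊆ edg (cb a n) →
      EB s (edg (cb a n)) (fun c => ind (Two a n (Θ ∪ c))) ≤
        ε + (n : ℝ) ^ (d + 3) *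
          EB s (edg (cb a n)) (fun c => ind (¬ Tiles a n k (Θ ∪ c))) := by
  intro ε hε
  obtain ⟨δ, hδ, n0, h⟩ := uni (d := d) hd hs0 hs1
  obtain ⟨n1, hn1⟩ := exists_nat_gt (ε⁻¹)
  refine ⟨δ, hδ, max n0 n1, ?_⟩
  intro n k hn hk hkd a Θ hΘ
  have h1 := h n ((le_max_left _ _).trans hn) k hk hkd a Θ hΘ
  have h2 : (n : ℝ)⁻¹ ≤ ε := by
    have h3 : n1 ≤ n := (le_max_right _ _).trans hn
    have h4 : (n1 : ℝ) ≤ (n : ℝ) := by exact_mod_cast h3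
    have h5 : ε⁻¹ ≤ (n : ℝ) := by linarith
    exact inv_le_of_inv_le₀ hε h5
  linarith

end Pool.Agent.Uni
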