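import Pool.Agent.Uni.Top

/-!
# Block UNI, asymptotics and the theorem (helper34)
-/

set_option autoImplicit false

namespace Pool.Agent.Uni

open Finset Filter
open Pool.Agent.SRC

variable {d : ℕ}

theorem ev_log (c : ℝ) (r : ℕ) (p : ℝ) (hp : 0 < p) :
    ∃ n0 : ℕ, ∀ n : ℕ, n0 ≤ n → c * (Real.log n) ^ r ≤ (n : ℝ) ^ p := by
  have h1 := isLittleO_log_rpow_rpow_atTop (r : ℝ) hp
  have h2 : (0 : ℝ) < 1 / (|c| + 1) := by positivity
  have h3 := h1.def h2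
  have h4 := (tendsto_natCast_atTop_atTop (R := ℝ)).eventually h3
  obtain ⟨n0, hn0⟩ := Filter.eventually_atTop.mp h4
  refine ⟨max n0 1, fun n hn => ?_⟩
  have h5 := hn0 n ((le_max_left _ _).trans hn)
  have hn1 : 1 ≤ n := (le_max_right _ _).trans hn
  have h6 : 0 ≤ Real.log n := Real.log_natCast_nonneg n
  have h7 : (0 : ℝ) ≤ (n : ℝ) ^ p := Real.rpow_nonneg (Nat.cast_nonneg _) _
  rw [Real.rpow_natCast, Real.norm_of_nonneg (pow_nonneg h6 r), Real.norm_of_nonneg h7] at h5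
  have h8 : (|c| + 1) * (Real.log n) ^ r ≤ (n : ℝ) ^ p := by
    have h9 : 0 < |c| + 1 := by positivity
    calc (|c| + 1) * (Real.log n) ^ r ≤ (|c| + 1) * (1 / (|c| + 1) * (n : ℝ) ^ p) :=
          mul_le_mul_of_nonneg_left h5 h9.le
      _ = (n : ℝ) ^ p := by field_simp
  refine le_trans ?_ h8
  refine mul_le_mul_of_nonneg_right ?_ (pow_nonneg h6 r)
  linarith [le_abs_self c]

theorem asy (d J : ℕ) {C s : ℝ} (hC : 0 < C) (hs0 : 0 < s) (hs1 : s < 1) :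
    ∃ δ : ℝ, 0 < δ ∧ ∃ n0 : ℕ, ∀ n : ℕ, n0 ≤ n → ∀ k : ℕ, 1 ≤ k → (k : ℝ) ≤ δ * Real.log n →
      32 * KD C d s ((3 * (d : ℝ) + 4) * Real.log n) k ^ 4 ≤ (n : ℝ) ^ ((1 : ℝ) / 12) ∧
      C * (k : ℝ) ^ d * K2 d s k ≤ n ∧ 4 * (k + k * (J * Nat.sqrt n)) < n := by
  have hl : 0 < Real.log (2 / s) := by
    refine Real.log_pos ?_
    rw [lt_div_iff₀ hs0]
    linarith
  have hd1 : (0 : ℝ) < (d : ℝ) + 1 := by positivity
  set δ : ℝ := min 1 (1 / (96 * ((d : ℝ) + 1) * Real.log (2 / s))) with hδ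
  have hδ0 : 0 < δ := by
    rw [hδ]
    refine lt_min one_pos ?_
    positivity
  have hδ1 : δ ≤ 1 := min_le_left _ _
  have hδ2 : δ * (96 * ((d : ℝ) + 1) * Real.log (2 / s)) ≤ 1 := by
    have h1 : δ ≤ 1 / (96 * ((d : ℝ) + 1) * Real.log (2 / s)) := min_le_right _ _
    rw [le_div_iff₀ (by positivity)] at h1
    exact h1
  obtain ⟨n1, hn1⟩ := ev_log (32 * ((8 * d * C / s) ^ 4 * (4 * (d : ℝ) ^ 2) * (3 * (d : ℝ) + 4) ^ 2))
    (14 * d + 2) ((1 : ℝ) / 24) (by norm_num)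
  obtain ⟨n2, hn2⟩ := ev_log (C * (2 * (d : ℝ))) (3 * d) ((1 : ℝ) / 24) (by norm_num)
  obtain ⟨n3, hn3⟩ := ev_log (8 * (1 + (J : ℝ))) 1 ((1 : ℝ) / 2) (by norm_num)
  refine ⟨δ, hδ0, max (max n1 n2) (max n3 1), ?_⟩
  intro n hn k hk hkd
  have hm1 : n1 ≤ n := (le_max_left _ _).trans ((le_max_left _ _).trans hn)
  have hm2 : n2 ≤ n := (le_max_right _ _).trans ((le_max_left _ _).trans hn)
  have hm3 : n3 ≤ n := (le_max_left _ _).trans ((le_max_right _ _).trans hn)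
  have hm4 : 1 ≤ n := (le_max_right _ _).trans ((le_max_right _ _).trans hn)
  have hnR : (1 : ℝ) ≤ (n : ℝ) := by exact_mod_cast hm4
  have hnR0 : (0 : ℝ) < (n : ℝ) := by linarith
  set x := Real.log n with hx
  have hx0 : 0 ≤ x := Real.log_natCast_nonneg n
  have hkR : (1 : ℝ) ≤ (k : ℝ) := by exact_mod_cast hk
  have hkx : (k : ℝ) ≤ x := by nlinarith
  have hk0 : (0 : ℝ) ≤ (k : ℝ) := by linarith
  have hdR : (0 : ℝ) ≤ (d : ℝ) := Nat.cast_nonneg d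
  -- the exponential factor
  have hexp : ((2 / s) ^ ((d + 1) * k)) ^ 4 ≤ (n : ℝ) ^ ((1 : ℝ) / 24) := by
    rw [← pow_mul]
    have h1 : (0 : ℝ) < 2 / s := by positivity
    have h2 : (2 / s) ^ ((d + 1) * k * 4) = Real.exp (Real.log (2 / s) * (((d + 1) * k * 4 : ℕ) : ℝ)) := by
      rw [← Real.rpow_natCast, Real.rpow_def_of_pos h1]
    rw [h2, Real.rpow_def_of_pos hnR0]
    refine Real.exp_le_exp.mpr ?_
    push_cast
    have h3 : Real.log (2 / s) * (((d : ℝ) + 1) * (k : ℝ) * 4) ≤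
        Real.log (2 / s) * (((d : ℝ) + 1) * (δ * x) * 4) := by
      refine mul_le_mul_of_nonneg_left ?_ hl.le
      nlinarith
    have h4 : Real.log (2 / s) * (((d : ℝ) + 1) * (δ * x) * 4) =
        (δ * (96 * ((d : ℝ) + 1) * Real.log (2 / s))) * (x * (1 / 24)) := by ring
    have h5 : (δ * (96 * ((d : ℝ) + 1) * Real.log (2 / s))) * (x * (1 / 24)) ≤
        1 * (x * (1 / 24)) := mul_le_mul_of_nonneg_right hδ2 (by positivity)
    linarith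
  have hE1 : (1 : ℝ) ≤ (2 / s) ^ ((d + 1) * k) := by
    refine one_le_pow₀ ?_
    rw [le_div_iff₀ hs0]
    linarith
  have hE0 : (0 : ℝ) ≤ (2 / s) ^ ((d + 1) * k) := by linarith
  have hpp : (n : ℝ) ^ ((1 : ℝ) / 24) * (n : ℝ) ^ ((1 : ℝ) / 24) = (n : ℝ) ^ ((1 : ℝ) / 12) := by
    rw [← Real.rpow_add hnR0]
    norm_num
  refine ⟨?_, ?_, ?_⟩
  · -- first
    have hτ : 0 ≤ (3 * (d : ℝ) + 4) * x := by positivity
    have e1 : KD C d s ((3 * (d : ℝ) + 4) * x) k ^ 4 =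
        (8 * d * C / s) ^ 4 * (4 * (d : ℝ) ^ 2) * (3 * (d : ℝ) + 4) ^ 2 *
          ((k : ℝ) ^ (14 * d) * x ^ 2) * ((2 / s) ^ ((d + 1) * k)) ^ 4 := by
      have s1 : Real.sqrt ((3 * (d : ℝ) + 4) * x) ^ 4 = ((3 * (d : ℝ) + 4) * x) ^ 2 := by
        have : Real.sqrt ((3 * (d : ℝ) + 4) * x) ^ 4 = (Real.sqrt ((3 * (d : ℝ) + 4) * x) ^ 2) ^ 2 := by
          rw [← pow_mul]
        rw [this, Real.sq_sqrt hτ]
      have s2 : Real.sqrt (2 * (d : ℝ) * (k : ℝ) ^ d) ^ 4 = (2 * (d : ℝ) * (k : ℝ) ^ d) ^ 2 := by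
        have : Real.sqrt (2 * (d : ℝ) * (k : ℝ) ^ d) ^ 4 = (Real.sqrt (2 * (d : ℝ) * (k : ℝ) ^ d) ^ 2) ^ 2 := by
          rw [← pow_mul]
        rw [this, Real.sq_sqrt (by positivity)]
      have s3 : KD C d s ((3 * (d : ℝ) + 4) * x) k ^ 4 =
          (8 * d * C / s) ^ 4 * ((k : ℝ) ^ d) ^ 4 * ((k : ℝ) ^ (2 * d)) ^ 4 *
            ((2 / s) ^ ((d + 1) * k)) ^ 4 * Real.sqrt ((3 * (d : ℝ) + 4) * x) ^ 4 *
            Real.sqrt (2 * (d : ℝ) * (k : ℝ) ^ d) ^ 4 := by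
        unfold KD K2 K3
        ring
      rw [s3, s1, s2]
      have s4 : ((k : ℝ) ^ d) ^ 4 * ((k : ℝ) ^ (2 * d)) ^ 4 * ((k : ℝ) ^ d) ^ 2 = (k : ℝ) ^ (14 * d) := by
        rw [← pow_mul, ← pow_mul, ← pow_mul, ← pow_add, ← pow_add]
        congr 1
        ring
      rw [← s4]
      ring
    rw [e1]
    set A := (8 * d * C / s) ^ 4 * (4 * (d : ℝ) ^ 2) * (3 * (d : ℝ) + 4) ^ 2 with hA
    have hA0 : 0 ≤ A := by positivity
    have h1 : (k : ℝ) ^ (14 * d) * x ^ 2 ≤ x ^ (14 * d + 2) := by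
      rw [pow_add]
      exact mul_le_mul_of_nonneg_right (pow_le_pow_left₀ hk0 hkx _) (by positivity)
    have h2 := hn1 n hm1
    calc 32 * (A * ((k : ℝ) ^ (14 * d) * x ^ 2) * ((2 / s) ^ ((d + 1) * k)) ^ 4)
        ≤ 32 * (A * x ^ (14 * d + 2) * (n : ℝ) ^ ((1 : ℝ) / 24)) := by
          refine mul_le_mul_of_nonneg_left ?_ (by norm_num)
          refine mul_le_mul ?_ hexp (by positivity) (by positivity)
          exact mul_le_mul_of_nonneg_left h1 hA0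
      _ = (32 * A * x ^ (14 * d + 2)) * (n : ℝ) ^ ((1 : ℝ) / 24) := by ring
      _ ≤ (n : ℝ) ^ ((1 : ℝ) / 24) * (n : ℝ) ^ ((1 : ℝ) / 24) :=
          mul_le_mul_of_nonneg_right h2 (Real.rpow_nonneg hnR0.le _)
      _ = (n : ℝ) ^ ((1 : ℝ) / 12) := hpp
  · -- second
    have h2 := hn2 n hm2
    have h3 : (2 / s) ^ ((d + 1) * k) ≤ (n : ℝ) ^ ((1 : ℝ) / 24) := by
      refine le_trans ?_ hexp
      exact le_self_pow₀ hE1 (by norm_num)
    have h4 : C * (k : ℝ) ^ d * K2 d s k =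
        C * (2 * (d : ℝ)) * (k : ℝ) ^ (3 * d) * (2 / s) ^ ((d + 1) * k) := by
      unfold K2
      have : (k : ℝ) ^ (3 * d) = (k : ℝ) ^ d * (k : ℝ) ^ (2 * d) := by
        rw [← pow_add]
        congr 1
        ring
      rw [this]
      ring
    rw [h4]
    calc C * (2 * (d : ℝ)) * (k : ℝ) ^ (3 * d) * (2 / s) ^ ((d + 1) * k)
        ≤ (C * (2 * (d : ℝ)) * x ^ (3 * d)) * (n : ℝ) ^ ((1 : ℝ) / 24) := by
          refine mul_le_mul ?_ h3 hE0 (by positivity)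
          exact mul_le_mul_of_nonneg_left (pow_le_pow_left₀ hk0 hkx _) (by positivity)
      _ ≤ (n : ℝ) ^ ((1 : ℝ) / 24) * (n : ℝ) ^ ((1 : ℝ) / 24) :=
          mul_le_mul_of_nonneg_right h2 (Real.rpow_nonneg hnR0.le _)
      _ = (n : ℝ) ^ ((1 : ℝ) / 12) := hpp
      _ ≤ (n : ℝ) ^ (1 : ℝ) := Real.rpow_le_rpow_of_exponent_le hnR (by norm_num)
      _ = n := Real.rpow_one _
  · -- third
    have h2 := hn3 n hm3
    rw [pow_one, ← Real.sqrt_eq_rpow] at h2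
    have hsq : Real.sqrt n * Real.sqrt n = n := Real.mul_self_sqrt hnR0.le
    have hs1' : 1 ≤ Real.sqrt n := by
      rw [Real.one_le_sqrt]
      exact hnR
    have h5 : (Nat.sqrt n : ℝ) ≤ Real.sqrt n := Real.nat_sqrt_le_real_sqrt
    have h6 : (4 : ℝ) * ((k : ℝ) + (k : ℝ) * ((J : ℝ) * (Nat.sqrt n : ℝ))) < n := by
      have hJ : (0 : ℝ) ≤ (J : ℝ) := Nat.cast_nonneg J
      have h7 : (k : ℝ) + (k : ℝ) * ((J : ℝ) * (Nat.sqrt n : ℝ)) ≤
          x * ((1 + (J : ℝ)) * Real.sqrt n) := by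
        have h8 : (1 : ℝ) + (J : ℝ) * (Nat.sqrt n : ℝ) ≤ (1 + (J : ℝ)) * Real.sqrt n := by
          nlinarith
        have h9 : (k : ℝ) + (k : ℝ) * ((J : ℝ) * (Nat.sqrt n : ℝ)) =
            (k : ℝ) * (1 + (J : ℝ) * (Nat.sqrt n : ℝ)) := by ring
        rw [h9]
        exact mul_le_mul hkx h8 (by positivity) hx0
      have h10 : 4 * (x * ((1 + (J : ℝ)) * Real.sqrt n)) = (8 * (1 + (J : ℝ)) * x) * Real.sqrt n / 2 := by
        ring
      have h11 : (8 * (1 + (J : ℝ)) * x) * Real.sqrt n ≤ Real.sqrt n * Real.sqrt n :=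
        mul_le_mul_of_nonneg_right h2 (by positivity)
      have h12 : (n : ℝ) / 2 < n := by linarith
      linarith
    exact_mod_cast h6

end Pool.Agent.Uni
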