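import Pool.Agent.Uni.Iso

/-!
# Contact pairs of tiles, row `cnt` (helper65)

`S i` = tiles of the box `B` met by the cluster `i`, `i ∈ I`; every tile is met. `g` has the largest
number of tiles. Then for every `i ≠ g` the number `N i` of pairs `(t, t')` of equal or neighbouring tiles
of `B` with `t ∈ S i` and `t' ∈ S j` for some `j ≠ i` satisfies `|S i| ^ (2/3) ≤ (3 M + 1) * N i`.
-/

set_option autoImplicit false

namespace Pool.Agent.Uni

open Finset
open Pool.Agent.SRC

variable {d : ℕ} {ι : Type*}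

/-- equal or neighbouring tiles -/
def nbr (t t' : Fin d → ℤ) : Prop :=
  t = t' ∨ ∃ k, t' = Function.update t k (t k + 1) ∨ t = Function.update t' k (t' k + 1)

theorem nbr.symm {t t' : Fin d → ℤ} (h : nbr t t') : nbr t' t := by
  rcases h with h | ⟨k, h | h⟩
  · exact Or.inl h.symm
  · exact Or.inr ⟨k, Or.inr h⟩
  · exact Or.inr ⟨k, Or.inl h⟩

/-- contact pairs of the cluster `i` -/
noncomputable def CP (B : Finset (Fin d → ℤ)) (I : Finset ι) (S : ι → Finset (Fin d → ℤ)) (i : ι) :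
    Finset ((Fin d → ℤ) × (Fin d → ℤ)) := by
  classical exact (B ×ˢ B).filter (fun z => nbr z.1 z.2 ∧ z.1 ∈ S i ∧ ∃ j ∈ I, j ≠ i ∧ z.2 ∈ S j)

/-- all contact pairs -/
noncomputable def CPA (B : Finset (Fin d → ℤ)) (I : Finset ι) (S : ι → Finset (Fin d → ℤ)) :
    Finset ((Fin d → ℤ) × (Fin d → ℤ)) := by
  classical exact (B ×ˢ B).filter (fun z => nbr z.1 z.2 ∧
    ∃ i ∈ I, ∃ j ∈ I, i ≠ j ∧ z.1 ∈ S i ∧ z.2 ∈ S j)

theorem mem_CP {B : Finset (Fin d → ℤ)} {I : Finset ι} {S : ι → Finset (Fin d → ℤ)} {i : ι}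
    {z : (Fin d → ℤ) × (Fin d → ℤ)} :
    z ∈ CP B I S i ↔ (z.1 ∈ B ∧ z.2 ∈ B) ∧ nbr z.1 z.2 ∧ z.1 ∈ S i ∧ ∃ j ∈ I, j ≠ i ∧ z.2 ∈ S j := by
  classical
  simp [CP]

theorem mem_CPA {B : Finset (Fin d → ℤ)} {I : Finset ι} {S : ι → Finset (Fin d → ℤ)}
    {z : (Fin d → ℤ) × (Fin d → ℤ)} :
    z ∈ CPA B I S ↔ (z.1 ∈ B ∧ z.2 ∈ B) ∧ nbr z.1 z.2 ∧
      ∃ i ∈ I, ∃ j ∈ I, i ≠ j ∧ z.1 ∈ S i ∧ z.2 ∈ S j := by
  classical
  simp [CPA]

/-- the boundary edges of `S i` give contact pairs -/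
theorem bdn_le_CP {B : Finset (Fin d → ℤ)} {I : Finset ι} {S : ι → Finset (Fin d → ℤ)} {i : ι}
    (hcov : ∀ t ∈ B, ∃ j ∈ I, t ∈ S j) : bdn B (S i) ≤ (CP B I S i).card := by
  classical
  rw [bdn, ← card_sigma]
  let F : (Σ _ : Fin d, (Fin d → ℤ)) → (Fin d → ℤ) × (Fin d → ℤ) := fun z =>
    if z.2 ∈ S i then (z.2, Function.update z.2 z.1 (z.2 z.1 + 1))
    else (Function.update z.2 z.1 (z.2 z.1 + 1), z.2)
  refine card_le_card_of_injOn F ?_ ?_
  · rintro ⟨k, u⟩ hz
    simp only [coe_sigma, Set.mem_sigma_iff, mem_coe, mem_bdk] at hz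
    obtain ⟨_, h1, h2, h3⟩ := hz
    rw [mem_coe, mem_CP]
    by_cases hu : u ∈ S i
    · have hv : Function.update u k (u k + 1) ∉ S i := fun h => h3 ⟨fun _ => h, fun _ => hu⟩
      have hF : F ⟨k, u⟩ = (u, Function.update u k (u k + 1)) := if_pos hu
      rw [hF]
      obtain ⟨j, hj, hjt⟩ := hcov _ h2
      exact ⟨⟨h1, h2⟩, Or.inr ⟨k, Or.inl rfl⟩, hu, j, hj, fun h => hv (h ▸ hjt), hjt⟩
    · have hv : Function.update u k (u k + 1) ∈ S i := by
        by_contra hv
        exact h3 ⟨fun h => (hu h).elim, fun h => (hv h).elim⟩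
      have hF : F ⟨k, u⟩ = (Function.update u k (u k + 1), u) := if_neg hu
      rw [hF]
      obtain ⟨j, hj, hjt⟩ := hcov _ h1
      exact ⟨⟨h2, h1⟩, Or.inr ⟨k, Or.inr rfl⟩, hv, j, hj, fun h => hu (h ▸ hjt), hjt⟩
  · rintro ⟨k, u⟩ hz ⟨l, w⟩ hw hzw
    simp only [coe_sigma, Set.mem_sigma_iff, mem_coe, mem_bdk] at hz hw
    obtain ⟨_, h1, h2, h3⟩ := hz
    obtain ⟨_, h4, h5, h6⟩ := hw
    have key : ∀ (a b : Fin d → ℤ) (k l : Fin d), a = b →
        Function.update a k (a k + 1) = Function.update b l (b l + 1) → k = l := by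
      intro a b k l hab h
      by_contra hkl
      have := congrFun h k
      rw [Function.update_self, Function.update_of_ne hkl, hab] at this
      omega
    have key2 : ∀ (a b : Fin d → ℤ) (k l : Fin d), a = Function.update b l (b l + 1) →
        Function.update a k (a k + 1) = b → False := by
      intro a b k l hab h
      have e1 := congrFun hab l
      rw [Function.update_self] at e1
      have e2 := congrFun h l
      by_cases hkl : l = k
      · subst hkl
        rw [Function.update_self] at e2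
        omega
      · rw [Function.update_of_ne hkl] at e2
        omega
    by_cases hu : u ∈ S i
    · have hF : F ⟨k, u⟩ = (u, Function.update u k (u k + 1)) := if_pos hu
      by_cases hw' : w ∈ S i
      · have hG : F ⟨l, w⟩ = (w, Function.update w l (w l + 1)) := if_pos hw'
        rw [hF, hG, Prod.mk.injEq] at hzw
        have hkl := key _ _ _ _ hzw.1 hzw.2
        rw [hkl, hzw.1]
      · have hG : F ⟨l, w⟩ = (Function.update w l (w l + 1), w) := if_neg hw'
        rw [hF, hG, Prod.mk.injEq] at hzw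
        exact (key2 _ _ _ _ hzw.1 hzw.2).elim
    · have hF : F ⟨k, u⟩ = (Function.update u k (u k + 1), u) := if_neg hu
      by_cases hw' : w ∈ S i
      · have hG : F ⟨l, w⟩ = (w, Function.update w l (w l + 1)) := if_pos hw'
        rw [hF, hG, Prod.mk.injEq] at hzw
        exact (key2 _ _ _ _ hzw.2 hzw.1).elim
      · have hG : F ⟨l, w⟩ = (Function.update w l (w l + 1), w) := if_neg hw'
        rw [hF, hG, Prod.mk.injEq] at hzw
        have hkl := key _ _ _ _ hzw.2 hzw.1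
        rw [hkl, hzw.2]

/-- every non maximal cluster has many contact pairs -/
theorem contact (hd : 3 ≤ d) {lo hi : Fin d → ℤ} {p M : ℕ} (hp : 1 ≤ p)
    (h1 : ∀ k, p ≤ (Finset.Icc (lo k) (hi k)).card)
    (h2 : ∀ k, (Finset.Icc (lo k) (hi k)).card ≤ M * p)
    {I : Finset ι} {S : ι → Finset (Fin d → ℤ)} (hS : ∀ i ∈ I, S i ⊆ Finset.Icc lo hi)
    (hcov : ∀ t ∈ Finset.Icc lo hi, ∃ j ∈ I, t ∈ S j) {g : ι} (hg : g ∈ I)
    (hmax : ∀ i ∈ I, (S i).card ≤ (S g).card) {i : ι} (hi' : i ∈ I) (hig : i ≠ g) :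
    (S i).card ^ 2 ≤ ((3 * M + 1) * (CP (Finset.Icc lo hi) I S i).card) ^ 3 := by
  classical
  set B := Finset.Icc lo hi with hB
  by_cases h3 : 3 * (S i).card ≤ 2 * B.card
  · refine le_trans (iso_box hd (hS i hi') hp h1 h2 h3) ?_
    exact Nat.pow_le_pow_left (Nat.mul_le_mul_left _ (bdn_le_CP hcov)) 3
  · have h4 : (S i ∩ S g).card ≤ (CP B I S i).card := by
      refine card_le_card_of_injOn (fun t => (t, t)) ?_ ?_
      · intro t ht
        rw [mem_coe, mem_inter] at ht
        rw [mem_coe, mem_CP]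
        exact ⟨⟨hS i hi' ht.1, hS i hi' ht.1⟩, Or.inl rfl, ht.1, g, hg, hig.symm, ht.2⟩
      · intro t _ t' _ h
        exact (Prod.mk.inj h).1
    have h5 : (S i).card + (S g).card ≤ B.card + (S i ∩ S g).card := by
      have := card_union_add_card_inter (S i) (S g)
      have h6 : (S i ∪ S g).card ≤ B.card := card_le_card (union_subset (hS i hi') (hS g hg))
      omega
    have h7 := hmax i hi'
    set N := (CP B I S i).card with hN
    have h8 : (S i).card ≤ 2 * N := by omega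
    have h9 : 1 ≤ N := by omega
    have hM : 1 ≤ M := by
      by_contra hM
      have hM0 : M = 0 := by omega
      have hd0 : 0 < d := by omega
      have := le_trans (h1 ⟨0, hd0⟩) (h2 ⟨0, hd0⟩)
      rw [hM0] at this
      omega
    calc (S i).card ^ 2 ≤ (2 * N) ^ 2 := Nat.pow_le_pow_left h8 2
      _ = 4 * N ^ 2 := by ring
      _ ≤ 4 * N ^ 2 * (16 * N) := Nat.le_mul_of_pos_right _ (by omega)
      _ = (4 * N) ^ 3 := by ring
      _ ≤ ((3 * M + 1) * N) ^ 3 := Nat.pow_le_pow_left (Nat.mul_le_mul_right _ (by omega)) 3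

/-- the sum over the clusters -/
theorem sum_CP_le {B : Finset (Fin d → ℤ)} {I : Finset ι} {S : ι → Finset (Fin d → ℤ)} {q : ℕ}
    (hq : ∀ t ∈ B, (fl I (fun i => t ∈ S i)).card ≤ q) :
    ∑ i ∈ I, (CP B I S i).card ≤ q * (CPA B I S).card := by
  classical
  rw [← card_sigma]
  have h1 : (I.sigma fun i => CP B I S i).card ≤
      ((CPA B I S).sigma fun z : (Fin d → ℤ) × (Fin d → ℤ) =>
        fl I (fun i => z.1 ∈ S i)).card := by
    refine card_le_card_of_injOn (fun z => ⟨z.2, z.1⟩) ?_ ?_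
    · rintro ⟨i, z⟩ hz
      simp only [coe_sigma, Set.mem_sigma_iff, mem_coe, mem_CP] at hz
      obtain ⟨hi, h2, h3, h4, j, hj, hji, h5⟩ := hz
      simp only [coe_sigma, Set.mem_sigma_iff, mem_coe, mem_CPA, mem_fl]
      exact ⟨⟨h2, h3, i, hi, j, hj, fun h => hji h.symm, h4, h5⟩, hi, h4⟩
    · rintro ⟨i, z⟩ _ ⟨j, w⟩ _ h
      simp only [Sigma.mk.injEq, heq_eq_eq] at h
      obtain ⟨h1, h2⟩ := h
      subst h1; subst h2; rfl
  refine le_trans h1 ?_
  rw [card_sigma]
  have h2 : ∀ z ∈ CPA B I S, (fl I (fun i => z.1 ∈ S i)).card ≤ q := by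
    intro z hz
    rw [mem_CPA] at hz
    exact hq z.1 hz.1.1
  have h3 := sum_le_card_nsmul _ _ _ h2
  rw [smul_eq_mul] at h3
  rw [mul_comm] at h3
  exact h3

/-- THE CONTACT BOUND: the sum of the `2/3` powers of the sizes of all clusters except a largest one is
at most a constant times the number of contact pairs of tiles. -/
theorem contact_sum [DecidableEq ι] (hd : 3 ≤ d) {lo hi : Fin d → ℤ} {p M q : ℕ} (hp : 1 ≤ p)
    (h1 : ∀ k, p ≤ (Finset.Icc (lo k) (hi k)).card)
    (h2 : ∀ k, (Finset.Icc (lo k) (hi k)).card ≤ M * p)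
    {I : Finset ι} {S : ι → Finset (Fin d → ℤ)} (hS : ∀ i ∈ I, S i ⊆ Finset.Icc lo hi)
    (hcov : ∀ t ∈ Finset.Icc lo hi, ∃ j ∈ I, t ∈ S j) {g : ι} (hg : g ∈ I)
    (hmax : ∀ i ∈ I, (S i).card ≤ (S g).card)
    (hq : ∀ t ∈ Finset.Icc lo hi, (fl I (fun i => t ∈ S i)).card ≤ q) :
    ∑ i ∈ I.erase g, ((S i).card : ℝ) ^ ((2 : ℝ) / 3) ≤
      (3 * M + 1 : ℝ) * (q * (CPA (Finset.Icc lo hi) I S).card) := by
  have h3 : ∀ i ∈ I.erase g, ((S i).card : ℝ) ^ ((2 : ℝ) / 3) ≤
      (3 * M + 1 : ℝ) * ((CP (Finset.Icc lo hi) I S i).card : ℝ) := by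
    intro i hi'
    rw [mem_erase] at hi'
    have := rpow_le_of_sq_le (contact hd hp h1 h2 hS hcov hg hmax hi'.2 hi'.1)
    push_cast at this
    exact this
  have h4 : ∑ i ∈ I, ((CP (Finset.Icc lo hi) I S i).card : ℝ) ≤
      (q : ℝ) * (CPA (Finset.Icc lo hi) I S).card := by
    have := sum_CP_le (B := Finset.Icc lo hi) (I := I) (S := S) hq
    exact_mod_cast this
  have h5 : (Finset.sum (I.erase g) fun i => ((S i).card : ℝ) ^ ((2 : ℝ) / 3)) ≤
      ∑ i ∈ I.erase g, (3 * M + 1 : ℝ) * ((CP (Finset.Icc lo hi) I S i).card : ℝ) :=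
    sum_le_sum h3
  have h6 : ∑ i ∈ I.erase g, (3 * M + 1 : ℝ) * ((CP (Finset.Icc lo hi) I S i).card : ℝ) ≤
      ∑ i ∈ I, (3 * M + 1 : ℝ) * ((CP (Finset.Icc lo hi) I S i).card : ℝ) := by
    refine sum_le_sum_of_subset_of_nonneg (erase_subset _ _) fun i _ _ => ?_
    positivity
  refine le_trans h5 (le_trans h6 ?_)
  rw [← mul_sum]
  exact mul_le_mul_of_nonneg_left h4 (by positivity)

theorem cnt_conn_symm {ω : Finset (Ed d)} {x y : Vx d} (h : conn (↑ω : Set (Ed d)) x y) :
    conn (↑ω : Set (Ed d)) y x := by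
  induction h with
  | refl => exact Relation.ReflTransGen.refl
  | tail _ h2 ih =>
    obtain ⟨i, h3⟩ := h2
    exact Relation.ReflTransGen.head ⟨i, h3.symm⟩ ih

theorem cnt_tl_sub {a t : Vx d} {k L : ℕ} (ht : t ∈ gr d L) : tl a k t ⊆ cb a (k * L) := by
  intro x hx
  rw [mem_tl] at hx
  rw [mem_gr] at ht
  rw [mem_cb]
  intro i
  have h1 := hx i
  have h2 := ht i
  have hk : (0 : ℤ) ≤ (k : ℤ) := Int.natCast_nonneg k
  have h3 : 0 ≤ (k : ℤ) * t i := mul_nonneg hk h2.1
  have h4 : (k : ℤ) * t i + k ≤ (k : ℤ) * L := by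
    have : (k : ℤ) * (t i + 1) ≤ (k : ℤ) * L := mul_le_mul_of_nonneg_left (by omega) hk
    linarith [mul_add (k : ℤ) (t i) 1]
  push_cast
  constructor
  · linarith [h1.1]
  · linarith [h1.2]

theorem cnt_card_tl (a t : Vx d) (k : ℕ) : (tl a k t).card = k ^ d := by
  unfold tl cb
  rw [Pi.card_Icc]
  rw [prod_congr rfl (fun i _ => ?_), prod_const, card_univ, Fintype.card_fin]
  rw [Int.card_Icc]
  show (a i + (k : ℤ) * t i + (k : ℤ) - 1 + 1 - (a i + (k : ℤ) * t i)).toNat = k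
  omega

/-- two boundary clusters with a common point are equal -/
theorem cnt_BC_eq {V B : Finset (Vx d)} {ω : Finset (Ed d)} {X Y : Finset (Vx d)}
    (hX : X ∈ BC V B ω) (hY : Y ∈ BC V B ω) {x y : Vx d} (hx : x ∈ X) (hy : y ∈ Y)
    (h : conn (↑ω : Set (Ed d)) x y) : X = Y := by
  rw [mem_BC] at hX hY
  obtain ⟨b, _, hb⟩ := hX
  obtain ⟨c, _, hc⟩ := hY
  rw [← hb, mem_cl] at hx
  rw [← hc, mem_cl] at hy
  rw [← hb, ← hc]
  ext z
  rw [mem_cl, mem_cl]
  constructor
  · rintro ⟨h1, h2⟩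
    exact ⟨h1, (hy.2.trans (cnt_conn_symm h)).trans ((cnt_conn_symm hx.2).trans h2)⟩
  · rintro ⟨h1, h2⟩
    exact ⟨h1, (hx.2.trans h).trans ((cnt_conn_symm hy.2).trans h2)⟩

theorem cnt_BC_jn {V B : Finset (Vx d)} {ω : Finset (Ed d)} {X : Finset (Vx d)}
    (hX : X ∈ BC V B ω) {x : Vx d} (hx : x ∈ X) : jn B ω x := by
  rw [mem_BC] at hX
  obtain ⟨b, hbB, hb⟩ := hX
  rw [← hb, mem_cl] at hx
  exact ⟨b, hbB, cnt_conn_symm hx.2⟩

/-- row `cnt` (Cnt.lean; may use `iso`) -/
theorem cnt (hd : 3 ≤ d) : ∃ C : ℝ, 0 < C ∧ ∀ (V B : Finset (Vx d)) (ω : Finset (Ed d)) (a : Vx d)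
    (k L : ℕ), 1 ≤ k → 2 ≤ L → B ⊆ V → cb a (k * L) ⊆ V → ω ⊆ edg V →
    (∀ u ∈ gr d L, ∃ x ∈ tl a k u, jn B ω x) →
    ∀ g ∈ BC V B ω, (∀ X ∈ BC V B ω, (vis a k L X).card ≤ (vis a k L g).card) →
    ∑ X ∈ (BC V B ω).erase g, ((vis a k L X).card : ℝ) ^ ((2 : ℝ) / 3) ≤
      C * (k : ℝ) ^ d * ((fl (edg (gr d L)) (Ctc B a k ω)).card : ℝ) := by
  classical
  refine ⟨16, by norm_num, ?_⟩
  intro V B ω a k L hk hL hBV hV hω hcov g hg hmax
  have hL1 : 1 ≤ L := by omega
  -- every tile is met by a boundary cluster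
  have hcov' : ∀ t ∈ gr d L, ∃ X ∈ BC V B ω, t ∈ vis a k L X := by
    intro t ht
    obtain ⟨x, hx, b, hb, hxb⟩ := hcov t ht
    refine ⟨cl V ω b, mem_BC.2 ⟨b, hb, rfl⟩, mem_vis.2 ⟨ht, x, hx, mem_cl.2 ⟨?_, ?_⟩⟩⟩
    · exact hV (cnt_tl_sub ht hx)
    · exact cnt_conn_symm hxb
  -- few clusters meet a tile
  have hq : ∀ t ∈ gr d L, (fl (BC V B ω) (fun X => t ∈ vis a k L X)).card ≤ k ^ d := by
    intro t _
    rw [← cnt_card_tl a t k]
    have hex : ∀ X : Finset (Vx d), X ∈ fl (BC V B ω) (fun X => t ∈ vis a k L X) →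
        ∃ x ∈ tl a k t, x ∈ X := by
      intro X hX
      rw [mem_fl, mem_vis] at hX
      exact hX.2.2
    choose! f hf1 hf2 using hex
    refine card_le_card_of_injOn f (fun X hX => mem_coe.2 (hf1 X (mem_coe.1 hX))) ?_
    intro X hX Y hY hXY
    have hX' := mem_coe.1 hX
    have hY' := mem_coe.1 hY
    have h1 := hf2 X hX'
    have h2 := hf2 Y hY'
    rw [mem_fl] at hX' hY'
    have h3 : conn (↑ω : Set (Ed d)) (f X) (f Y) := by
      rw [hXY]; exact Relation.ReflTransGen.refl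
    exact cnt_BC_eq hX'.1 hY'.1 h1 h2 h3
  have hmain := contact_sum (q := k ^ d) (p := L) (M := 1) hd hL1
    (lo := (0 : Vx d)) (hi := fun i => (0 : Vx d) i + (L : ℤ) - 1)
    (fun j => le_of_eq (iso_card_Icc (d := d) L j).symm)
    (fun j => by rw [one_mul]; exact le_of_eq (iso_card_Icc (d := d) L j))
    (I := BC V B ω) (S := vis a k L) (fun X _ => fl_subset _ _) hcov' hg hmax hq
  -- contact pairs and contact edges
  have hCP : (CPA (Finset.Icc (0 : Vx d) (fun i => (0 : Vx d) i + (L : ℤ) - 1)) (BC V B ω)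
      (vis a k L)).card ≤ (fl (edg (gr d L)) (Ctc B a k ω)).card * 4 := by
    have hsub : CPA (Finset.Icc (0 : Vx d) (fun i => (0 : Vx d) i + (L : ℤ) - 1)) (BC V B ω)
        (vis a k L) ⊆ (fl (edg (gr d L)) (Ctc B a k ω)).biUnion
          (fun e => {(e.1, tip e), (tip e, e.1), (e.1, e.1), (tip e, tip e)}) := by
      rintro ⟨t, t'⟩ hz
      rw [mem_CPA] at hz
      obtain ⟨⟨ht, ht'⟩, hn, X, hX, Y, hY, hXY, htX, htY⟩ := hz
      have ht0 : t ∈ gr d L := ht
      have ht0' : t' ∈ gr d L := ht'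
      have hc : ∀ {e : Ed d} {X Y : Finset (Vx d)}, e.1 ∈ gr d L → tip e ∈ gr d L →
          X ∈ BC V B ω → Y ∈ BC V B ω → X ≠ Y → e.1 ∈ vis a k L X → tip e ∈ vis a k L Y →
          e ∈ fl (edg (gr d L)) (Ctc B a k ω) := by
        intro e X Y h1 h2 hX hY hXY h3 h4
        rw [mem_vis] at h3 h4
        obtain ⟨_, x, hx, hxX⟩ := h3
        obtain ⟨_, y, hy, hyY⟩ := h4
        rw [mem_fl]
        refine ⟨?_, x, hx, y, hy, cnt_BC_jn hX hxX, cnt_BC_jn hY hyY, ?_⟩
        · rw [edg, mem_filter, mem_product]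
          exact ⟨⟨h1, mem_univ _⟩, h2⟩
        · intro h
          exact hXY (cnt_BC_eq hX hY hxX hyY h)
      rw [mem_biUnion]
      rcases hn with hn | ⟨i, hn | hn⟩
      · -- equal tiles
        simp only at hn
        subst hn
        have hd0 : 0 < d := by omega
        set i0 : Fin d := ⟨0, hd0⟩ with hi0
        have htm := mem_gr.1 ht0
        by_cases hlt : t i0 + 1 < (L : ℤ)
        · -- the edge `(t, i0)`
          have htip : tip ((t, i0) : Ed d) ∈ gr d L := by
            rw [iso_tip, mem_gr]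
            intro j
            by_cases hj : j = i0
            · subst hj
              rw [Function.update_self]
              have := htm i0
              omega
            · rw [Function.update_of_ne hj]
              exact htm j
          obtain ⟨Z, hZ, hZt⟩ := hcov' _ htip
          refine ⟨(t, i0), ?_, by simp⟩
          by_cases hZX : Z = X
          · subst hZX
            exact hc (e := (t, i0)) ht0 htip hY hZ hXY.symm htY hZt
          · exact hc (e := (t, i0)) ht0 htip hX hZ (fun h => hZX h.symm) htX hZt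
        · -- the edge `(t - e, i0)`
          set w : Vx d := Function.update t i0 (t i0 - 1) with hw
          have hwg : w ∈ gr d L := by
            rw [mem_gr]
            intro j
            by_cases hj : j = i0
            · subst hj
              rw [hw, Function.update_self]
              have := htm i0
              omega
            · rw [hw, Function.update_of_ne hj]
              exact htm j
          have htip : tip ((w, i0) : Ed d) = t := by
            rw [iso_tip, hw]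
            funext j
            by_cases hj : j = i0
            · subst hj
              simp
            · rw [Function.update_of_ne hj, Function.update_of_ne hj]
          obtain ⟨Z, hZ, hZt⟩ := hcov' _ hwg
          refine ⟨(w, i0), ?_, by rw [htip]; simp⟩
          by_cases hZX : Z = X
          · subst hZX
            exact hc (e := (w, i0)) hwg (by rw [htip]; exact ht0) hZ hY hXY hZt
              (by rw [htip]; exact htY)
          · exact hc (e := (w, i0)) hwg (by rw [htip]; exact ht0) hZ hX hZX hZt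
              (by rw [htip]; exact htX)
      · simp only at hn
        have htip : tip ((t, i) : Ed d) = t' := by rw [iso_tip, hn]
        refine ⟨(t, i), ?_, by rw [htip]; simp⟩
        exact hc (e := (t, i)) ht0 (by rw [htip]; exact ht0') hX hY hXY htX
          (by rw [htip]; exact htY)
      · simp only at hn
        have htip : tip ((t', i) : Ed d) = t := by rw [iso_tip, ← hn]
        refine ⟨(t', i), ?_, by rw [htip]; simp⟩
        exact hc (e := (t', i)) ht0' (by rw [htip]; exact ht0) hY hX hXY.symm htY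
          (by rw [htip]; exact htX)
    refine le_trans (card_le_card hsub) (card_biUnion_le_card_mul _ _ _ ?_)
    intro e _
    refine le_trans (card_insert_le _ _) ?_
    refine le_trans (Nat.succ_le_succ (card_insert_le _ _)) ?_
    refine le_trans (Nat.succ_le_succ (Nat.succ_le_succ (card_insert_le _ _))) ?_
    rw [card_singleton]
  have hCP' : ((CPA (Finset.Icc (0 : Vx d) (fun i => (0 : Vx d) i + (L : ℤ) - 1)) (BC V B ω)
      (vis a k L)).card : ℝ) ≤ ((fl (edg (gr d L)) (Ctc B a k ω)).card : ℝ) * 4 := by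
    exact_mod_cast hCP
  refine le_trans hmain ?_
  have hk0 : (0 : ℝ) ≤ (k : ℝ) ^ d := by positivity
  push_cast
  nlinarith [mul_le_mul_of_nonneg_left hCP' hk0]

end Pool.Agent.Uni
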