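import Pool.Agent.SRC.Bern

/-!
# Block UNI: uniqueness without sprinkling margin (helper34)

`V` a finite vertex set, `B ⊆ V` its boundary, `Θ ⊆ edg V` a FIXED edge set (environment), `c ⊆ edg V`
Bernoulli(`s`) coins, `ω = Θ ∪ c`.  A boundary cluster is a cluster of `ω` which meets `B`.
-/

set_option autoImplicit false

namespace Pool.Agent.Uni

open Finset
open Pool.Agent.SRC

variable {d : ℕ}

/-- `x` is joined to the vertex set `Z` -/
def jn (Z : Finset (Vx d)) (ω : Finset (Ed d)) (x : Vx d) : Prop :=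
  ∃ z ∈ Z, conn (↑ω : Set (Ed d)) x z

/-- the edge `e` touches the set of vertices with property `P` -/
def tch (P : Vx d → Prop) (e : Ed d) : Prop := P e.1 ∨ P (tip e)

/-- the edges of `F` which touch `P` and do not touch `Q` -/
noncomputable def KK (F : Finset (Ed d)) (P Q : Vx d → Prop) : Finset (Ed d) :=
  fl F fun e => tch P e ∧ ¬ tch Q e

/-- deviation of the coins on `K` -/
noncomputable def dev (s : ℝ) (c K : Finset (Ed d)) : ℝ :=
  ((fl K fun e => e ∈ c).card : ℝ) - s * (K.card : ℝ)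

/-- the cluster of `x`, as a subset of `V` -/
noncomputable def cl (V : Finset (Vx d)) (ω : Finset (Ed d)) (x : Vx d) : Finset (Vx d) :=
  fl V fun y => conn (↑ω : Set (Ed d)) x y

/-- the boundary clusters -/
noncomputable def BC (V B : Finset (Vx d)) (ω : Finset (Ed d)) : Finset (Finset (Vx d)) := by
  classical exact B.image (cl V ω)

/-- contact edge: closed, and its ends lie in two different boundary clusters -/
def Con (B : Finset (Vx d)) (ω : Finset (Ed d)) (e : Ed d) : Prop :=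
  e ∉ ω ∧ jn B ω e.1 ∧ jn B ω (tip e) ∧ ¬ conn (↑ω : Set (Ed d)) e.1 (tip e)

/-- number of edges of `F` touching the vertex set `X` -/
noncomputable def RR (F : Finset (Ed d)) (X : Finset (Vx d)) : ℝ :=
  ((fl F fun e => tch (fun y => y ∈ X) e).card : ℝ)

/-! ## Cubes and tiles -/

/-- cube with lower corner `a` and side `n` (number of vertices on a side) -/
noncomputable def cb (a : Vx d) (n : ℕ) : Finset (Vx d) :=
  Finset.Icc a (fun i => a i + (n : ℤ) - 1)

/-- inner boundary of the cube -/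
noncomputable def cbd (a : Vx d) (n : ℕ) : Finset (Vx d) :=
  fl (cb a n) fun x => ∃ i, x i = a i ∨ x i = a i + (n : ℤ) - 1

/-- the tile with index `u`, side `k`, origin `a` -/
noncomputable def tl (a : Vx d) (k : ℕ) (u : Vx d) : Finset (Vx d) :=
  cb (fun i => a i + (k : ℤ) * u i) k

/-- the indices of the tiles: a cube of side `L` at the origin -/
noncomputable def gr (d L : ℕ) : Finset (Vx d) := cb (0 : Vx d) L

/-- every cube of side `k` in `cb a n` meets a boundary cluster -/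
def Tiles (a : Vx d) (n k : ℕ) (ω : Finset (Ed d)) : Prop :=
  ∀ b : Vx d, cb b k ⊆ cb a n → ∃ x ∈ cb b k, jn (cbd a n) ω x

/-- two points of the concentric half cube are joined to the boundary but not to each other -/
def Two (a : Vx d) (n : ℕ) (ω : Finset (Ed d)) : Prop :=
  ∃ x y : Vx d, (∀ i, 4 * a i + (n : ℤ) ≤ 4 * x i ∧ 4 * x i ≤ 4 * a i + 3 * (n : ℤ)) ∧
    (∀ i, 4 * a i + (n : ℤ) ≤ 4 * y i ∧ 4 * y i ≤ 4 * a i + 3 * (n : ℤ)) ∧
    jn (cbd a n) ω x ∧ jn (cbd a n) ω y ∧ ¬ conn (↑ω : Set (Ed d)) x y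

/-- the tile indices (in the grid of side `L`) whose tile meets `X` -/
noncomputable def vis (a : Vx d) (k L : ℕ) (X : Finset (Vx d)) : Finset (Vx d) :=
  fl (gr d L) fun u => ∃ x ∈ tl a k u, x ∈ X

/-- the tiles `u` and `u + e_i` are met by two different boundary clusters -/
def Ctc (B : Finset (Vx d)) (a : Vx d) (k : ℕ) (ω : Finset (Ed d)) (e : Ed d) : Prop :=
  ∃ x ∈ tl a k e.1, ∃ y ∈ tl a k (tip e), jn B ω x ∧ jn B ω y ∧ ¬ conn (↑ω : Set (Ed d)) x y

/-- edges of the region of the tiles -/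
noncomputable def rg (a : Vx d) (k L : ℕ) : Finset (Ed d) := edg (cb a (k * L))

theorem mem_cb {a x : Vx d} {n : ℕ} : x ∈ cb a n ↔ ∀ i, a i ≤ x i ∧ x i < a i + (n : ℤ) := by
  unfold cb
  rw [Finset.mem_Icc]
  constructor
  · rintro ⟨h1, h2⟩ i
    have h3 : x i ≤ a i + (n : ℤ) - 1 := h2 i
    exact ⟨h1 i, by linarith⟩
  · intro h
    refine ⟨fun i => (h i).1, fun i => ?_⟩
    show x i ≤ a i + (n : ℤ) - 1
    have := (h i).2
    omega

theorem mem_tl {a x u : Vx d} {k : ℕ} :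
    x ∈ tl a k u ↔ ∀ i, a i + (k : ℤ) * u i ≤ x i ∧ x i < a i + (k : ℤ) * u i + (k : ℤ) := by
  unfold tl
  exact mem_cb

theorem mem_gr {u : Vx d} {L : ℕ} : u ∈ gr d L ↔ ∀ i, 0 ≤ u i ∧ u i < (L : ℤ) := by
  unfold gr
  rw [mem_cb]
  constructor
  · intro h i
    have := h i
    rw [Pi.zero_apply, zero_add] at this
    exact this
  · intro h i
    rw [Pi.zero_apply, zero_add]
    exact h i

theorem mem_cbd {a x : Vx d} {n : ℕ} :
    x ∈ cbd a n ↔ x ∈ cb a n ∧ ∃ i, x i = a i ∨ x i = a i + (n : ℤ) - 1 := mem_fl _ _ _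

theorem mem_KK {F : Finset (Ed d)} {P Q : Vx d → Prop} {e : Ed d} :
    e ∈ KK F P Q ↔ e ∈ F ∧ tch P e ∧ ¬ tch Q e := mem_fl _ _ _

theorem mem_cl {V : Finset (Vx d)} {ω : Finset (Ed d)} {x y : Vx d} :
    y ∈ cl V ω x ↔ y ∈ V ∧ conn (↑ω : Set (Ed d)) x y := mem_fl _ _ _

theorem mem_vis {a : Vx d} {k L : ℕ} {X : Finset (Vx d)} {u : Vx d} :
    u ∈ vis a k L X ↔ u ∈ gr d L ∧ ∃ x ∈ tl a k u, x ∈ X := mem_fl _ _ _

theorem mem_BC {V B : Finset (Vx d)} {ω : Finset (Ed d)} {X : Finset (Vx d)} :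
    X ∈ BC V B ω ↔ ∃ b ∈ B, cl V ω b = X := by
  classical
  unfold BC
  exact Finset.mem_image

end Pool.Agent.Uni
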