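import Pool.Agent.Uni.Defs

/-!
# Block UNI, part 1: the exponential moment of the explored coins (helper34)
-/

set_option autoImplicit false

namespace Pool.Agent.Uni

open Finset
open Pool.Agent.SRC

variable {d : ℕ}

theorem jn_mono {Z : Finset (Vx d)} {ω ω' : Finset (Ed d)} (h : ω ⊆ ω') {x : Vx d}
    (hx : jn Z ω x) : jn Z ω' x := by
  obtain ⟨z, hz, hc⟩ := hx
  exact ⟨z, hz, conn_mono (Finset.coe_subset.mpr h) hc⟩

theorem tch_mono {P Q : Vx d → Prop} (h : ∀ x, P x → Q x) {e : Ed d} (he : tch P e) : tch Q e :=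
  he.imp (h _) (h _)

/-- if no edge of `c` touches the cluster of `Z` in `Θ`, adding `c` does not change it -/
theorem jn_of_not_tch {Z : Finset (Vx d)} {Θ c : Finset (Ed d)}
    (h : ∀ e ∈ c, ¬ tch (jn Z Θ) e) {x : Vx d} (hx : jn Z (Θ ∪ c) x) : jn Z Θ x := by
  obtain ⟨z, hz, hc⟩ := hx
  have hc' := conn_symm hc
  unfold conn at hc'
  have key : ∀ y, Relation.ReflTransGen (adj (↑(Θ ∪ c) : Set (Ed d))) z y → jn Z Θ y := by
    intro y hy
    induction hy with
    | refl => exact ⟨z, hz, conn_refl _ z⟩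
    | @tail p q _ h2 ih =>
      obtain ⟨w, hw, hpw⟩ := ih
      obtain ⟨i, hi⟩ := h2
      have hadj : adj (↑Θ : Set (Ed d)) p q := by
        refine ⟨i, ?_⟩
        rcases hi with ⟨hm, he⟩ | ⟨hm, he⟩
        · refine Or.inl ⟨?_, he⟩
          rcases Finset.mem_union.mp (Finset.mem_coe.mp hm) with h3 | h3
          · exact Finset.mem_coe.mpr h3
          · exact absurd (Or.inl ⟨w, hw, hpw⟩ : tch (jn Z Θ) (p, i)) (h _ h3)
        · refine Or.inr ⟨?_, he⟩
          rcases Finset.mem_union.mp (Finset.mem_coe.mp hm) with h3 | h3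
          · exact Finset.mem_coe.mpr h3
          · have h4 : tip (q, i) = p := he.symm
            refine absurd (Or.inr ?_ : tch (jn Z Θ) (q, i)) (h _ h3)
            rw [h4]
            exact ⟨w, hw, hpw⟩
      exact ⟨w, hw, conn_trans (Relation.ReflTransGen.single (adj_symm hadj)) hpw⟩
  exact key x hc'

theorem EB_insert (s : ℝ) (E : Finset (Ed d)) (e : Ed d) (he : e ∉ E) (f : Finset (Ed d) → ℝ) :
    EB s (insert e E) f = (1 - s) * EB s E f + s * EB s E (fun c => f (insert e c)) := by
  classical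
  unfold EB
  rw [Finset.sum_powerset_insert he, Finset.mul_sum, Finset.mul_sum]
  congr 1
  · refine Finset.sum_congr rfl fun c hc => ?_
    rw [Finset.mem_powerset] at hc
    have hec : e ∉ c := fun h => he (hc h)
    have he2 : e ∉ E \ c := fun h => he (Finset.sdiff_subset h)
    rw [Finset.insert_sdiff_of_notMem E hec, Finset.card_insert_of_notMem he2]
    ring
  · refine Finset.sum_congr rfl fun c hc => ?_
    rw [Finset.mem_powerset] at hc
    have hec : e ∉ c := fun h => he (hc h)
    have s2 : insert e E \ insert e c = E \ c := by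
      ext a
      simp only [Finset.mem_sdiff, Finset.mem_insert]
      constructor
      · rintro ⟨h3 | h3, h4⟩
        · exact absurd (Or.inl h3) h4
        · exact ⟨h3, fun h5 => h4 (Or.inr h5)⟩
      · rintro ⟨h3, h4⟩
        exact ⟨Or.inr h3, fun h5 => h5.elim (fun h6 => he (h6 ▸ h3)) h4⟩
    rw [s2, Finset.card_insert_of_notMem hec]
    ring

/-- one coin -/
theorem one_coin {s θ : ℝ} (hs0 : 0 ≤ s) (hs1 : s ≤ 1) :
    s * Real.exp (θ * (1 - s) - θ ^ 2) + (1 - s) * Real.exp (-(θ * s) - θ ^ 2) ≤ 1 := by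
  by_cases hθ : ¬ |θ| ≤ 1
  · have h0 : 1 < |θ| := not_le.mp hθ
    have h00 : |θ| ^ 2 = θ ^ 2 := sq_abs θ
    have h1 : θ * (1 - s) - θ ^ 2 ≤ 0 := by
      have h2 : θ * (1 - s) ≤ |θ| * 1 := by
        refine (le_abs_self _).trans ?_
        rw [abs_mul]
        refine mul_le_mul_of_nonneg_left ?_ (abs_nonneg θ)
        rw [abs_le]
        constructor <;> linarith
      nlinarith
    have h3 : -(θ * s) - θ ^ 2 ≤ 0 := by
      have h2 : -(θ * s) ≤ |θ| * 1 := by
        refine (le_abs_self _).trans ?_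
        rw [abs_neg, abs_mul]
        refine mul_le_mul_of_nonneg_left ?_ (abs_nonneg θ)
        rw [abs_le]
        constructor <;> linarith
      nlinarith
    have h4 := Real.exp_le_one_iff.mpr h1
    have h5 := Real.exp_le_one_iff.mpr h3
    have h6 : s * Real.exp (θ * (1 - s) - θ ^ 2) ≤ s * 1 := mul_le_mul_of_nonneg_left h4 hs0
    have h7 : (1 - s) * Real.exp (-(θ * s) - θ ^ 2) ≤ (1 - s) * 1 :=
      mul_le_mul_of_nonneg_left h5 (by linarith)
    linarith
  rw [not_not] at hθ
  -- `e^y ≤ 1 + y + y^2` for `|y| ≤ 1`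
  have hexp : ∀ y : ℝ, |y| ≤ 1 → Real.exp y ≤ 1 + y + y ^ 2 := by
    intro y hy
    have h1 := Real.abs_exp_sub_one_sub_id_le hy
    have h2 := (abs_le.mp h1).2
    linarith
  have ha : |θ * (1 - s)| ≤ 1 := by
    rw [abs_mul]
    have : |1 - s| ≤ 1 := by
      rw [abs_le]
      constructor <;> linarith
    nlinarith [abs_nonneg θ, abs_nonneg (1 - s)]
  have hb : |-(θ * s)| ≤ 1 := by
    rw [abs_neg, abs_mul]
    have : |s| ≤ 1 := by
      rw [abs_le]
      constructor <;> linarith
    nlinarith [abs_nonneg θ, abs_nonneg s]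
  have e1 : Real.exp (θ * (1 - s) - θ ^ 2) = Real.exp (θ * (1 - s)) * Real.exp (-θ ^ 2) := by
    rw [← Real.exp_add]
    congr 1
  have e2 : Real.exp (-(θ * s) - θ ^ 2) = Real.exp (-(θ * s)) * Real.exp (-θ ^ 2) := by
    rw [← Real.exp_add]
    congr 1
  have h3 : s * Real.exp (θ * (1 - s)) + (1 - s) * Real.exp (-(θ * s)) ≤ 1 + θ ^ 2 := by
    have h4 := hexp _ ha
    have h5 := hexp _ hb
    have h6 : s * Real.exp (θ * (1 - s)) ≤ s * (1 + θ * (1 - s) + (θ * (1 - s)) ^ 2) :=
      mul_le_mul_of_nonneg_left h4 hs0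
    have h7 : (1 - s) * Real.exp (-(θ * s)) ≤ (1 - s) * (1 + -(θ * s) + (-(θ * s)) ^ 2) :=
      mul_le_mul_of_nonneg_left h5 (by linarith)
    have h8 : s * (1 + θ * (1 - s) + (θ * (1 - s)) ^ 2) +
        (1 - s) * (1 + -(θ * s) + (-(θ * s)) ^ 2) = 1 + θ ^ 2 * (s * (1 - s)) := by ring
    have h9 : θ ^ 2 * (s * (1 - s)) ≤ θ ^ 2 * 1 := by
      refine mul_le_mul_of_nonneg_left ?_ (sq_nonneg θ)
      nlinarith
    linarith
  have h10 : 1 + θ ^ 2 ≤ Real.exp (θ ^ 2) := by
    have := Real.add_one_le_exp (θ ^ 2)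
    linarith
  have h11 : Real.exp (θ ^ 2) * Real.exp (-θ ^ 2) = 1 := by
    rw [← Real.exp_add, add_neg_cancel, Real.exp_zero]
  calc s * Real.exp (θ * (1 - s) - θ ^ 2) + (1 - s) * Real.exp (-(θ * s) - θ ^ 2)
      = (s * Real.exp (θ * (1 - s)) + (1 - s) * Real.exp (-(θ * s))) * Real.exp (-θ ^ 2) := by
        rw [e1, e2]
        ring
    _ ≤ Real.exp (θ ^ 2) * Real.exp (-θ ^ 2) :=
        mul_le_mul_of_nonneg_right (h3.trans h10) (Real.exp_pos _).le
    _ = 1 := h11

/-- the integrand -/
noncomputable def ig (s θ : ℝ) (Θ F W : Finset (Ed d)) (Z Z' : Finset (Vx d))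
    (c : Finset (Ed d)) : ℝ := by
  classical exact
    Real.exp (θ * dev s c (KK (F ∩ W) (jn Z (Θ ∪ c)) (jn Z' (Θ ∪ c))) -
      θ ^ 2 * ((KK (F ∩ W) (jn Z (Θ ∪ c)) (jn Z' (Θ ∪ c))).card : ℝ))

theorem ig_pos (s θ : ℝ) (Θ F W : Finset (Ed d)) (Z Z' : Finset (Vx d)) (c : Finset (Ed d)) :
    0 < ig s θ Θ F W Z Z' c := Real.exp_pos _

theorem dev_congr {s : ℝ} {c c' K : Finset (Ed d)} (h : ∀ e ∈ K, (e ∈ c ↔ e ∈ c')) :
    dev s c K = dev s c' K := by
  classical
  unfold dev
  have : (fl K fun e => e ∈ c) = fl K fun e => e ∈ c' := by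
    ext e
    rw [mem_fl, mem_fl]
    constructor
    · rintro ⟨h1, h2⟩
      exact ⟨h1, (h e h1).mp h2⟩
    · rintro ⟨h1, h2⟩
      exact ⟨h1, (h e h1).mpr h2⟩
  rw [this]

theorem dev_insert_mem {s : ℝ} {c K : Finset (Ed d)} {e : Ed d} (he : e ∉ K) (hc : e ∈ c) :
    dev s c (insert e K) = dev s c K + (1 - s) := by
  classical
  unfold dev
  have h1 : (fl (insert e K) fun e => e ∈ c) = insert e (fl K fun e => e ∈ c) := by
    ext a
    rw [mem_fl, Finset.mem_insert, Finset.mem_insert, mem_fl]
    constructor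
    · rintro ⟨h1 | h1, h2⟩
      · exact Or.inl h1
      · exact Or.inr ⟨h1, h2⟩
    · rintro (h1 | ⟨h1, h2⟩)
      · exact ⟨Or.inl h1, h1 ▸ hc⟩
      · exact ⟨Or.inr h1, h2⟩
  have h2 : e ∉ fl K fun e => e ∈ c := fun h => he ((mem_fl _ _ _).mp h).1
  rw [h1, Finset.card_insert_of_notMem h2, Finset.card_insert_of_notMem he]
  push_cast
  ring

theorem dev_insert_notMem {s : ℝ} {c K : Finset (Ed d)} {e : Ed d} (he : e ∉ K) (hc : e ∉ c) :
    dev s c (insert e K) = dev s c K - s := by
  classical
  unfold dev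
  have h1 : (fl (insert e K) fun e => e ∈ c) = fl K fun e => e ∈ c := by
    ext a
    rw [mem_fl, Finset.mem_insert, mem_fl]
    constructor
    · rintro ⟨h1 | h1, h2⟩
      · exact absurd h2 (h1 ▸ hc)
      · exact ⟨h1, h2⟩
    · rintro ⟨h1, h2⟩
      exact ⟨Or.inr h1, h2⟩
  rw [h1, Finset.card_insert_of_notMem he]
  push_cast
  ring

/-- **exponential moment**: explore first the cluster of `Z'`, then the cluster of `Z`; count the coins of
`W` which touch the cluster of `Z` and not the cluster of `Z'` -/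
theorem exp_moment {s θ : ℝ} (hs0 : 0 ≤ s) (hs1 : s ≤ 1) (W : Finset (Ed d))
    (Z Z' : Finset (Vx d)) : ∀ (n : ℕ) (F Θ : Finset (Ed d)), F.card = n → Disjoint F Θ →
      EB s F (ig s θ Θ F W Z Z') ≤ 1 := by
  classical
  intro n
  induction n with
  | zero =>
    intro F Θ hF _
    rw [Finset.card_eq_zero] at hF
    subst hF
    have h1 : EB s (∅ : Finset (Ed d)) (ig s θ Θ ∅ W Z Z') = ig s θ Θ ∅ W Z Z' ∅ := by
      unfold EB
      simp
    rw [h1]
    unfold ig
    have h2 : ∀ P Q : Vx d → Prop, KK ((∅ : Finset (Ed d)) ∩ W) P Q = ∅ := by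
      intro P Q
      ext e
      rw [mem_KK]
      simp
    rw [h2]
    unfold dev
    have h3 : (fl (∅ : Finset (Ed d)) fun e => e ∈ (∅ : Finset (Ed d))) = ∅ := by
      ext e
      rw [mem_fl]
      simp
    rw [h3]
    simp
  | succ n ih =>
    intro F Θ hF hd
    have hstep : ∀ e ∈ F, F = insert e (F.erase e) := fun e he => (Finset.insert_erase he).symm
    have hcard : ∀ e ∈ F, (F.erase e).card = n := fun e he => by
      rw [Finset.card_erase_of_mem he, hF]
      rfl
    have hne : ∀ e : Ed d, e ∉ F.erase e := fun e => Finset.notMem_erase e F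
    have hun : ∀ (e : Ed d) (c : Finset (Ed d)), Θ ∪ insert e c = insert e Θ ∪ c := by
      intro e c
      rw [Finset.union_insert, Finset.insert_union]
    have hd1 : ∀ e ∈ F, Disjoint (F.erase e) Θ := fun e _ =>
      Finset.disjoint_of_subset_left (Finset.erase_subset e F) hd
    have hd2 : ∀ e ∈ F, Disjoint (F.erase e) (insert e Θ) := by
      intro e he
      rw [Finset.disjoint_insert_right]
      exact ⟨hne e, hd1 e he⟩
    by_cases hA : ∃ e ∈ F, tch (jn Z' Θ) e
    · -- an edge touching the known part of the cluster of `Z'`: it is never counted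
      obtain ⟨e, he, ht⟩ := hA
      have hK : ∀ ω : Finset (Ed d), Θ ⊆ ω →
          KK (F ∩ W) (jn Z ω) (jn Z' ω) = KK (F.erase e ∩ W) (jn Z ω) (jn Z' ω) := by
        intro ω hω
        ext a
        rw [mem_KK, mem_KK, Finset.mem_inter, Finset.mem_inter, Finset.mem_erase]
        constructor
        · rintro ⟨⟨h1, h2⟩, h3, h4⟩
          refine ⟨⟨⟨?_, h1⟩, h2⟩, h3, h4⟩
          rintro rfl
          exact h4 (tch_mono (fun x => jn_mono hω) ht)
        · rintro ⟨⟨⟨_, h1⟩, h2⟩, h3, h4⟩
          exact ⟨⟨h1, h2⟩, h3, h4⟩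
      have h0 : EB s F (ig s θ Θ F W Z Z') = (1 - s) * EB s (F.erase e) (ig s θ Θ F W Z Z') +
          s * EB s (F.erase e) (fun c => ig s θ Θ F W Z Z' (insert e c)) := by
        conv_lhs => rw [hstep e he]
        rw [EB_insert s (F.erase e) e (hne e), ← hstep e he]
      have h1 : EB s (F.erase e) (ig s θ Θ F W Z Z') =
          EB s (F.erase e) (ig s θ Θ (F.erase e) W Z Z') := by
        refine EB_congr s _ _ _ fun c _ => ?_
        unfold ig
        rw [hK _ Finset.subset_union_left]
      have h2 : EB s (F.erase e) (fun c => ig s θ Θ F W Z Z' (insert e c)) =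
          EB s (F.erase e) (ig s θ (insert e Θ) (F.erase e) W Z Z') := by
        refine EB_congr s _ _ _ fun c _ => ?_
        unfold ig
        rw [hK _ Finset.subset_union_left, hun]
        have h3 : dev s (insert e c) (KK (F.erase e ∩ W) (jn Z (insert e Θ ∪ c))
            (jn Z' (insert e Θ ∪ c))) = dev s c (KK (F.erase e ∩ W) (jn Z (insert e Θ ∪ c))
            (jn Z' (insert e Θ ∪ c))) := by
          refine dev_congr fun a ha => ?_
          have h4 : a ≠ e := by
            rintro rfl
            exact hne a (Finset.mem_inter.mp ((mem_KK.mp ha).1)).1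
          rw [Finset.mem_insert]
          exact ⟨fun h => h.resolve_left h4, Or.inr⟩
        rw [h3]
      rw [h0, h1, h2]
      have i1 := ih (F.erase e) Θ (hcard e he) (hd1 e he)
      have i2 := ih (F.erase e) (insert e Θ) (hcard e he) (hd2 e he)
      nlinarith
    · push Not at hA
      have hY : ∀ c, c ⊆ F → ∀ x, jn Z' (Θ ∪ c) x → jn Z' Θ x := fun c hc x hx =>
        jn_of_not_tch (fun e he => hA e (hc he)) hx
      by_cases hB : ∃ e ∈ F, tch (jn Z Θ) e
      · obtain ⟨e, he, ht⟩ := hB
        have heY : ∀ c, c ⊆ F → ¬ tch (jn Z' (Θ ∪ c)) e := fun c hc h =>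
          hA e he (tch_mono (hY c hc) h)
        have hK : ∀ c, c ⊆ F → KK (F ∩ W) (jn Z (Θ ∪ c)) (jn Z' (Θ ∪ c)) =
            if e ∈ W then insert e (KK (F.erase e ∩ W) (jn Z (Θ ∪ c)) (jn Z' (Θ ∪ c)))
            else KK (F.erase e ∩ W) (jn Z (Θ ∪ c)) (jn Z' (Θ ∪ c)) := by
          intro c hc
          split_ifs with hW
          · ext a
            rw [mem_KK, Finset.mem_insert, mem_KK, Finset.mem_inter, Finset.mem_inter,
              Finset.mem_erase]
            constructor
            · rintro ⟨⟨h1, h2⟩, h3, h4⟩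
              by_cases hae : a = e
              · exact Or.inl hae
              · exact Or.inr ⟨⟨⟨hae, h1⟩, h2⟩, h3, h4⟩
            · rintro (rfl | ⟨⟨⟨_, h1⟩, h2⟩, h3, h4⟩)
              · exact ⟨⟨he, hW⟩, tch_mono (fun x => jn_mono Finset.subset_union_left) ht,
                  heY c hc⟩
              · exact ⟨⟨h1, h2⟩, h3, h4⟩
          · ext a
            rw [mem_KK, mem_KK, Finset.mem_inter, Finset.mem_inter, Finset.mem_erase]
            constructor
            · rintro ⟨⟨h1, h2⟩, h3, h4⟩
              refine ⟨⟨⟨?_, h1⟩, h2⟩, h3, h4⟩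
              rintro rfl
              exact hW h2
            · rintro ⟨⟨⟨_, h1⟩, h2⟩, h3, h4⟩
              exact ⟨⟨h1, h2⟩, h3, h4⟩
        have h0 : EB s F (ig s θ Θ F W Z Z') = (1 - s) * EB s (F.erase e) (ig s θ Θ F W Z Z') +
            s * EB s (F.erase e) (fun c => ig s θ Θ F W Z Z' (insert e c)) := by
          conv_lhs => rw [hstep e he]
          rw [EB_insert s (F.erase e) e (hne e), ← hstep e he]
        have hsub : ∀ c, c ⊆ F.erase e → c ⊆ F := fun c hc => hc.trans (Finset.erase_subset e F)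
        have hec : ∀ c, c ⊆ F.erase e → e ∉ c := fun c hc h => hne e (hc h)
        have heK : ∀ P Q : Vx d → Prop, e ∉ KK (F.erase e ∩ W) P Q := fun P Q h =>
          hne e (Finset.mem_inter.mp ((mem_KK.mp h).1)).1
        have h1 : EB s (F.erase e) (ig s θ Θ F W Z Z') =
            (if e ∈ W then Real.exp (-(θ * s) - θ ^ 2) else 1) *
              EB s (F.erase e) (ig s θ Θ (F.erase e) W Z Z') := by
          rw [← EB_smul]
          refine EB_congr s _ _ _ fun c hc => ?_
          unfold ig
          rw [hK c (hsub c hc)]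
          split_ifs with hW
          · rw [dev_insert_notMem (heK _ _) (hec c hc), Finset.card_insert_of_notMem (heK _ _),
              ← Real.exp_add]
            congr 1
            push_cast
            ring
          · rw [one_mul]
        have h2 : EB s (F.erase e) (fun c => ig s θ Θ F W Z Z' (insert e c)) =
            (if e ∈ W then Real.exp (θ * (1 - s) - θ ^ 2) else 1) *
              EB s (F.erase e) (ig s θ (insert e Θ) (F.erase e) W Z Z') := by
          rw [← EB_smul]
          refine EB_congr s _ _ _ fun c hc => ?_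
          unfold ig
          rw [hK (insert e c) (Finset.insert_subset he (hsub c hc)), hun]
          have h3 : dev s (insert e c) (KK (F.erase e ∩ W) (jn Z (insert e Θ ∪ c))
              (jn Z' (insert e Θ ∪ c))) = dev s c (KK (F.erase e ∩ W) (jn Z (insert e Θ ∪ c))
              (jn Z' (insert e Θ ∪ c))) := by
            refine dev_congr fun a ha => ?_
            have h4 : a ≠ e := by
              rintro rfl
              exact heK _ _ ha
            rw [Finset.mem_insert]
            exact ⟨fun h => h.resolve_left h4, Or.inr⟩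
          split_ifs with hW
          · rw [dev_insert_mem (heK _ _) (Finset.mem_insert_self e c),
              Finset.card_insert_of_notMem (heK _ _), h3, ← Real.exp_add]
            congr 1
            push_cast
            ring
          · rw [one_mul, h3]
        rw [h0, h1, h2]
        have i1 := ih (F.erase e) Θ (hcard e he) (hd1 e he)
        have i2 := ih (F.erase e) (insert e Θ) (hcard e he) (hd2 e he)
        split_ifs with hW
        · have h5 := one_coin (s := s) (θ := θ) hs0 hs1
          have p1 : 0 < Real.exp (-(θ * s) - θ ^ 2) := Real.exp_pos _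
          have p2 : 0 < Real.exp (θ * (1 - s) - θ ^ 2) := Real.exp_pos _
          have q1 : (1 - s) * (Real.exp (-(θ * s) - θ ^ 2) *
              EB s (F.erase e) (ig s θ Θ (F.erase e) W Z Z')) ≤
              (1 - s) * Real.exp (-(θ * s) - θ ^ 2) := by
            have := mul_le_mul_of_nonneg_left i1 (mul_nonneg (sub_nonneg.mpr hs1) p1.le)
            linarith
          have q2 : s * (Real.exp (θ * (1 - s) - θ ^ 2) *
              EB s (F.erase e) (ig s θ (insert e Θ) (F.erase e) W Z Z')) ≤
              s * Real.exp (θ * (1 - s) - θ ^ 2) := by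
            have := mul_le_mul_of_nonneg_left i2 (mul_nonneg hs0 p2.le)
            linarith
          linarith
        · nlinarith
      · -- nothing is counted
        push Not at hB
        have h1 : ∀ c, c ⊆ F → ig s θ Θ F W Z Z' c = 1 := by
          intro c hc
          have h2 : KK (F ∩ W) (jn Z (Θ ∪ c)) (jn Z' (Θ ∪ c)) = ∅ := by
            rw [Finset.eq_empty_iff_forall_notMem]
            intro a ha
            rw [mem_KK, Finset.mem_inter] at ha
            refine hB a ha.1.1 (tch_mono (fun x hx => ?_) ha.2.1)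
            exact jn_of_not_tch (fun e he => hB e (hc he)) hx
          unfold ig
          rw [h2]
          unfold dev
          have h3 : (fl (∅ : Finset (Ed d)) fun e => e ∈ c) = ∅ := by
            ext a
            rw [mem_fl]
            simp
          rw [h3]
          simp
        rw [EB_congr s F _ (fun _ => 1) h1, EB_const]

end Pool.Agent.Uni
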