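import Pool.Agent.Uni.Exp

/-!
# Block UNI: geometry of tiles (rows rrv: helper78, vsm: helper92, crs: helper52)
-/

set_option autoImplicit false

namespace Pool.Agent.Uni

open Finset
open Pool.Agent.SRC

variable {d : ℕ}

private theorem rrv_card_cb (a : Vx d) (k : ℕ) : (cb a k).card = k ^ d := by
  unfold cb
  rw [Pi.card_Icc]
  have h : ∀ i ∈ (Finset.univ : Finset (Fin d)),
      (Finset.Icc (a i) (a i + (k : ℤ) - 1)).card = k := by
    intro i _
    rw [Int.card_Icc]
    have : a i + (k : ℤ) - 1 + 1 - a i = (k : ℤ) := by ring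
    rw [this, Int.toNat_natCast]
  rw [Finset.prod_congr rfl h, Finset.prod_const, Finset.card_univ, Fintype.card_fin]

private theorem rrv_tile (a : Vx d) (k L : ℕ) (hk : 1 ≤ k) (y : Vx d) (hy : y ∈ cb a (k * L)) :
    ∃ u ∈ gr d L, y ∈ tl a k u := by
  have hk' : (0 : ℤ) < (k : ℤ) := by exact_mod_cast hk
  rw [mem_cb] at hy
  refine ⟨fun i => (y i - a i) / (k : ℤ), ?_, ?_⟩
  · rw [mem_gr]
    intro i
    obtain ⟨h1, h2⟩ := hy i
    have h3 : 0 ≤ y i - a i := by linarith
    refine ⟨Int.ediv_nonneg h3 hk'.le, ?_⟩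
    refine Int.ediv_lt_of_lt_mul hk' ?_
    push_cast at h2
    rw [mul_comm]
    linarith
  · rw [mem_tl]
    intro i
    have h4 : (k : ℤ) * ((y i - a i) / (k : ℤ)) + (y i - a i) % (k : ℤ) = y i - a i :=
      Int.mul_ediv_add_emod _ _
    have h5 : 0 ≤ (y i - a i) % (k : ℤ) := Int.emod_nonneg _ hk'.ne'
    have h6 : (y i - a i) % (k : ℤ) < (k : ℤ) := Int.emod_lt_of_pos _ hk'
    constructor
    · show a i + (k : ℤ) * ((y i - a i) / (k : ℤ)) ≤ y i
      linarith
    · show y i < a i + (k : ℤ) * ((y i - a i) / (k : ℤ)) + (k : ℤ)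
      linarith

/-- row `rrv` (Geo.lean) -/
theorem RR_vis (a : Vx d) (k L : ℕ) (hk : 1 ≤ k) (F : Finset (Ed d)) (X : Finset (Vx d)) :
    RR (F ∩ rg a k L) X ≤ 2 * (d : ℝ) * (k : ℝ) ^ d * ((vis a k L X).card : ℝ) := by
  classical
  let T : Finset (Ed d) := (vis a k L X).biUnion fun u => (tl a k u).biUnion fun y =>
    ((Finset.univ : Finset (Fin d)).image fun i => ((y, i) : Ed d)) ∪
      ((Finset.univ : Finset (Fin d)).image fun i => ((y - uv i, i) : Ed d))
  have hT : (fl (F ∩ rg a k L) fun e => tch (fun y => y ∈ X) e) ⊆ T := by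
    intro e he
    rw [mem_fl] at he
    obtain ⟨he1, he2⟩ := he
    have he3 : e ∈ edg (cb a (k * L)) := (Finset.mem_inter.mp he1).2
    unfold edg at he3
    rw [Finset.mem_filter, Finset.mem_product] at he3
    obtain ⟨⟨h1, _⟩, h2⟩ := he3
    have key : ∀ y : Vx d, y ∈ X → y ∈ cb a (k * L) →
        (e ∈ ((Finset.univ : Finset (Fin d)).image fun i => ((y, i) : Ed d)) ∪
          ((Finset.univ : Finset (Fin d)).image fun i => ((y - uv i, i) : Ed d))) → e ∈ T := by
      intro y hyX hyc hy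
      obtain ⟨u, hu, hyu⟩ := rrv_tile a k L hk y hyc
      refine Finset.mem_biUnion.mpr ⟨u, mem_vis.mpr ⟨hu, y, hyu, hyX⟩, ?_⟩
      exact Finset.mem_biUnion.mpr ⟨y, hyu, hy⟩
    rcases he2 with h | h
    · refine key e.1 h h1 (Finset.mem_union_left _ (Finset.mem_image.mpr ⟨e.2, Finset.mem_univ _, ?_⟩))
      exact Prod.mk.eta
    · refine key (tip e) h h2 (Finset.mem_union_right _ (Finset.mem_image.mpr
        ⟨e.2, Finset.mem_univ _, ?_⟩))
      unfold tip
      rw [add_sub_cancel_right]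
  have hcard : T.card ≤ (vis a k L X).card * (k ^ d * (2 * d)) := by
    refine Finset.card_biUnion_le_card_mul _ _ _ fun u _ => ?_
    have h1 : (tl a k u).card = k ^ d := rrv_card_cb _ k
    rw [← h1]
    refine Finset.card_biUnion_le_card_mul _ _ _ fun y _ => ?_
    refine (Finset.card_union_le _ _).trans ?_
    have h2 : ((Finset.univ : Finset (Fin d)).image fun i => ((y, i) : Ed d)).card ≤ d :=
      Finset.card_image_le.trans (by rw [Finset.card_univ, Fintype.card_fin])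
    have h3 : ((Finset.univ : Finset (Fin d)).image fun i => ((y - uv i, i) : Ed d)).card ≤ d :=
      Finset.card_image_le.trans (by rw [Finset.card_univ, Fintype.card_fin])
    omega
  unfold RR
  have h4 : (fl (F ∩ rg a k L) fun e => tch (fun y => y ∈ X) e).card ≤
      (vis a k L X).card * (k ^ d * (2 * d)) := (Finset.card_le_card hT).trans hcard
  have h5 : (((fl (F ∩ rg a k L) fun e => tch (fun y => y ∈ X) e).card : ℕ) : ℝ) ≤
      (((vis a k L X).card * (k ^ d * (2 * d)) : ℕ) : ℝ) := by exact_mod_cast h4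
  refine h5.trans (le_of_eq ?_)
  push_cast
  ring

/- BEGIN vsm -/

private theorem vsm_card_cb (a : Vx d) (m : ℕ) : (cb a m).card = m ^ d := by
  unfold cb
  rw [Pi.card_Icc]
  have h : ∀ i : Fin d, (Finset.Icc (a i) (a i + (m : ℤ) - 1)).card = m := by
    intro i
    rw [Int.card_Icc]
    omega
  simp only [h]
  rw [Finset.prod_const, Finset.card_univ, Fintype.card_fin]

private theorem vsm_disj (V B : Finset (Vx d)) (ω : Finset (Ed d)) (X X' : Finset (Vx d))
    (hX : X ∈ BC V B ω) (hX' : X' ∈ BC V B ω) (y : Vx d) (hy : y ∈ X) (hy' : y ∈ X') : X = X' := by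
  obtain ⟨b, -, rfl⟩ := mem_BC.1 hX
  obtain ⟨b', -, rfl⟩ := mem_BC.1 hX'
  have h1 := (mem_cl.1 hy).2
  have h2 := (mem_cl.1 hy').2
  have h3 : conn (↑ω : Set (Ed d)) b b' := conn_trans h1 (conn_symm h2)
  ext z
  rw [mem_cl, mem_cl]
  constructor
  · rintro ⟨hz, hc⟩
    exact ⟨hz, conn_trans (conn_symm h3) hc⟩
  · rintro ⟨hz, hc⟩
    exact ⟨hz, conn_trans h3 hc⟩

private theorem vsm_card_vis (a : Vx d) (k L : ℕ) (hk : 1 ≤ k) (X : Finset (Vx d)) :
    (vis a k L X).card ≤ (fl (cb a (k * L)) fun x => x ∈ X).card := by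
  classical
  have hex : ∀ u : Vx d, ∃ x : Vx d, u ∈ vis a k L X → (x ∈ tl a k u ∧ x ∈ X) := by
    intro u
    by_cases hu : u ∈ vis a k L X
    · obtain ⟨x, hx, hxX⟩ := (mem_vis.1 hu).2
      exact ⟨x, fun _ => ⟨hx, hxX⟩⟩
    · exact ⟨0, fun h => absurd h hu⟩
  choose f hf using hex
  have hk' : (1 : ℤ) ≤ (k : ℤ) := by exact_mod_cast hk
  apply Finset.card_le_card_of_injOn f
  · intro u hu
    have hu' : u ∈ vis a k L X := hu
    obtain ⟨h1, h2⟩ := hf u hu'
    have hg := mem_gr.1 (mem_vis.1 hu').1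
    have ht := mem_tl.1 h1
    show f u ∈ fl (cb a (k * L)) fun x => x ∈ X
    rw [mem_fl, mem_cb]
    refine ⟨fun i => ?_, h2⟩
    have hgi := hg i
    have hti := ht i
    have h0 : (0 : ℤ) ≤ (k : ℤ) * u i := mul_nonneg (by linarith) hgi.1
    have h3 : (k : ℤ) * u i + (k : ℤ) ≤ (k : ℤ) * (L : ℤ) := by
      have : u i + 1 ≤ (L : ℤ) := by linarith [hgi.2]
      have := mul_le_mul_of_nonneg_left this (by linarith : (0 : ℤ) ≤ (k : ℤ))
      linarith
    have h4 : ((k * L : ℕ) : ℤ) = (k : ℤ) * (L : ℤ) := by push_cast; ring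
    rw [h4]
    constructor
    · linarith [hti.1]
    · linarith [hti.2]
  · intro u hu v hv huv
    have hu' : u ∈ vis a k L X := hu
    have hv' : v ∈ vis a k L X := hv
    have h1 := mem_tl.1 (hf u hu').1
    have h2 := mem_tl.1 (hf v hv').1
    rw [huv] at h1
    funext i
    have h1i := h1 i
    have h2i := h2 i
    have h3 : (k : ℤ) * u i < (k : ℤ) * (v i + 1) := by
      have : (k : ℤ) * (v i + 1) = (k : ℤ) * v i + (k : ℤ) := by ring
      rw [this]; linarith [h1i.1, h2i.2]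
    have h4 : (k : ℤ) * v i < (k : ℤ) * (u i + 1) := by
      have : (k : ℤ) * (u i + 1) = (k : ℤ) * u i + (k : ℤ) := by ring
      rw [this]; linarith [h2i.1, h1i.2]
    have h5 : u i < v i + 1 := lt_of_mul_lt_mul_left h3 (by linarith)
    have h6 : v i < u i + 1 := lt_of_mul_lt_mul_left h4 (by linarith)
    omega

/-- row `vsm` (Geo.lean): the total number of visits is at most the number of vertices -/
theorem vis_sum (V B : Finset (Vx d)) (ω : Finset (Ed d)) (a : Vx d) (k L n : ℕ)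
    (hr : cb a (k * L) ⊆ V) (hk : 1 ≤ k) (hn : k * L ≤ n) (g : Finset (Vx d)) :
    ∑ X ∈ (BC V B ω).erase g, ((vis a k L X).card : ℝ) ^ ((2 : ℝ) / 3) ≤ (n : ℝ) ^ d := by
  classical
  have h1 : ∀ m : ℕ, ((m : ℝ)) ^ ((2 : ℝ) / 3) ≤ (m : ℝ) := by
    intro m
    rcases Nat.eq_zero_or_pos m with rfl | hm
    · rw [Nat.cast_zero, Real.zero_rpow (by norm_num)]
    · have hm1 : (1 : ℝ) ≤ (m : ℝ) := by exact_mod_cast hm
      calc ((m : ℝ)) ^ ((2 : ℝ) / 3) ≤ (m : ℝ) ^ (1 : ℝ) :=
            Real.rpow_le_rpow_of_exponent_le hm1 (by norm_num)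
        _ = (m : ℝ) := Real.rpow_one _
  have h2 : ∑ X ∈ (BC V B ω).erase g, ((vis a k L X).card : ℝ) ^ ((2 : ℝ) / 3)
      ≤ ∑ X ∈ (BC V B ω).erase g, ((fl (cb a (k * L)) fun x => x ∈ X).card : ℝ) := by
    apply Finset.sum_le_sum
    intro X _
    refine (h1 _).trans ?_
    exact_mod_cast vsm_card_vis a k L hk X
  have h3 : (∑ X ∈ (BC V B ω).erase g, (fl (cb a (k * L)) fun x => x ∈ X).card)
      ≤ (cb a (k * L)).card := by
    rw [← Finset.card_biUnion]
    · apply Finset.card_le_card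
      intro x hx
      obtain ⟨X, -, hX⟩ := Finset.mem_biUnion.1 hx
      exact ((mem_fl _ _ _).1 hX).1
    · intro X hX X' hX' hne
      show Disjoint (fl (cb a (k * L)) fun x => x ∈ X) (fl (cb a (k * L)) fun x => x ∈ X')
      rw [Finset.disjoint_left]
      intro x hx hx'
      exact hne (vsm_disj V B ω X X' (Finset.mem_of_mem_erase hX) (Finset.mem_of_mem_erase hX') x
        ((mem_fl _ _ _).1 hx).2 ((mem_fl _ _ _).1 hx').2)
  refine h2.trans ?_
  have h4 : (∑ X ∈ (BC V B ω).erase g, ((fl (cb a (k * L)) fun x => x ∈ X).card : ℝ))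
      ≤ ((k * L) ^ d : ℕ) := by
    rw [← Nat.cast_sum]
    rw [vsm_card_cb] at h3
    exact_mod_cast h3
  refine h4.trans ?_
  have h5 : (k * L) ^ d ≤ n ^ d := Nat.pow_le_pow_left hn d
  exact_mod_cast h5

/- END vsm -/

/-- the origin of the `j`-th region -/
def og (a : Vx d) (k m j : ℕ) : Vx d := fun i => a i + (k : ℤ) * ((j : ℤ) * (m : ℤ))

private theorem crs_exit (ω : Set (Ed d)) (Q : Vx d → Prop) (x b : Vx d) (h : conn ω x b)
    (hx : Q x) (hb : ¬ Q b) : ∃ w w', conn ω x w ∧ adj ω w w' ∧ Q w ∧ ¬ Q w' := by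
  unfold conn at h
  induction h with
  | refl => exact absurd hx hb
  | @tail y z h1 h2 ih =>
    by_cases hy : Q y
    · exact ⟨y, z, h1, h2, hy, hb⟩
    · exact ih hy

private theorem crs_adj (ω : Set (Ed d)) (w w' : Vx d) (h : adj ω w w') (i : Fin d) :
    w i - 1 ≤ w' i ∧ w' i ≤ w i + 1 := by
  obtain ⟨i', h1 | h1⟩ := h
  · rw [h1.2, Pi.add_apply]
    unfold uv
    by_cases h2 : i = i'
    · rw [h2, Pi.single_eq_same]; omega
    · rw [Pi.single_eq_of_ne h2]; omega
  · rw [h1.2, Pi.add_apply]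
    unfold uv
    by_cases h2 : i = i'
    · rw [h2, Pi.single_eq_same]; omega
    · rw [Pi.single_eq_of_ne h2]; omega

/-- row `crs` (Geo.lean): a boundary cluster which meets the `(j+1)`-st region meets `m` tiles of the
`j`-th region -/
theorem crs (hd : 1 ≤ d) (a : Vx d) (n k m L : ℕ) (hk : 1 ≤ k) (hkL : k * L ≤ n) (j : ℕ)
    (hj : 2 * ((j + 1) * m) ≤ L) (ω : Finset (Ed d)) (hω : ω ⊆ edg (cb a n)) (X : Finset (Vx d))
    (hX : X ∈ BC (cb a n) (cbd a n) ω)
    (hv : (vis (og a k m (j + 1)) k (L - 2 * ((j + 1) * m)) X).Nonempty) :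
    m ≤ (vis (og a k m j) k (L - 2 * (j * m)) X).card := by
  classical
  obtain ⟨b, hb, rfl⟩ := mem_BC.mp hX
  obtain ⟨u, hu⟩ := hv
  obtain ⟨hug, x, hxt, hxX⟩ := mem_vis.mp hu
  obtain ⟨-, hbx⟩ := mem_cl.mp hxX
  have hxb : conn (↑ω : Set (Ed d)) x b := conn_symm hbx
  obtain ⟨hbc, i0, hi0⟩ := mem_cbd.mp hb
  have hug' := mem_gr.mp hug
  have hxt' := mem_tl.mp hxt
  have hj2 : 2 * (j * m) ≤ L := by
    refine le_trans ?_ hj
    have : j * m ≤ (j + 1) * m := Nat.mul_le_mul_right m (Nat.le_succ j)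
    omega
  have hcast1 : ((L - 2 * ((j + 1) * m) : ℕ) : ℤ) = (L : ℤ) - 2 * (((j : ℤ) + 1) * (m : ℤ)) := by
    rw [Nat.cast_sub hj]; push_cast; ring
  have hcast2 : ((L - 2 * (j * m) : ℕ) : ℤ) = (L : ℤ) - 2 * ((j : ℤ) * (m : ℤ)) := by
    rw [Nat.cast_sub hj2]; push_cast; ring
  have hK : (1 : ℤ) ≤ (k : ℤ) := by exact_mod_cast hk
  have hKL : (k : ℤ) * (L : ℤ) ≤ (n : ℤ) := by exact_mod_cast hkL
  generalize hJ : (j : ℤ) * (m : ℤ) = J at *
  have hJ1 : ((j : ℤ) + 1) * (m : ℤ) = J + (m : ℤ) := by rw [← hJ]; ring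
  rw [hJ1] at hcast1
  have hog1 : ∀ i, og a k m (j + 1) i = a i + (k : ℤ) * (J + (m : ℤ)) := by
    intro i
    unfold og
    push_cast
    rw [hJ1]
  have hog2 : ∀ i, og a k m j i = a i + (k : ℤ) * J := by
    intro i
    unfold og
    rw [hJ]
  -- bounds on `x`
  have hxlo : ∀ i, a i + (k : ℤ) * (J + (m : ℤ)) ≤ x i := by
    intro i
    have h1 := (hxt' i).1
    rw [hog1] at h1
    have h2 := (hug' i).1
    nlinarith
  have hxhi : ∀ i, x i < a i + (k : ℤ) * (L : ℤ) - (k : ℤ) * (J + (m : ℤ)) := by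
    intro i
    have h1 := (hxt' i).2
    rw [hog1] at h1
    have h2 := (hug' i).2
    rw [hcast1] at h2
    have h3 : u i + 1 ≤ (L : ℤ) - 2 * (J + (m : ℤ)) := by omega
    have h4 : (k : ℤ) * (u i + 1) ≤ (k : ℤ) * ((L : ℤ) - 2 * (J + (m : ℤ))) :=
      mul_le_mul_of_nonneg_left h3 (by omega)
    nlinarith
  have hbout : b i0 = a i0 ∨ a i0 + (k : ℤ) * (L : ℤ) - 1 ≤ b i0 := by
    rcases hi0 with h | h
    · exact Or.inl h
    · right; rw [h]; omega
  have hJ0 : 0 ≤ J := by rw [← hJ]; positivity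
  -- one vertex for each level
  have key : ∀ r ∈ Finset.range m, ∃ v : Vx d, v ∈ vis (og a k m j) k (L - 2 * (j * m))
      (cl (cb a n) ω b) ∧ (∀ i, (r : ℤ) ≤ v i ∧ v i ≤ (L : ℤ) - 2 * J - 1 - (r : ℤ)) ∧
      (∃ i, v i = (r : ℤ) ∨ v i = (L : ℤ) - 2 * J - 1 - (r : ℤ)) := by
    intro r hr
    have hrm : (r : ℤ) + 1 ≤ (m : ℤ) := by
      have := Finset.mem_range.mp hr
      exact_mod_cast this
    have hr0 : (0 : ℤ) ≤ (r : ℤ) := Int.natCast_nonneg r
    obtain ⟨w, w', hw, hadj, hQ, hQ'⟩ := crs_exit (↑ω : Set (Ed d))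
      (fun w => ∀ i, a i + (k : ℤ) * (J + (r : ℤ)) + 1 ≤ w i ∧
        w i + 1 ≤ a i + (k : ℤ) * (L : ℤ) - 1 - (k : ℤ) * (J + (r : ℤ))) x b hxb
      (by
        intro i
        have h1 := hxlo i
        have h2 := hxhi i
        have h3 : (k : ℤ) * (J + (r : ℤ)) + (k : ℤ) ≤ (k : ℤ) * (J + (m : ℤ)) := by nlinarith
        constructor <;> omega)
      (by
        intro h
        have h1 := h i0
        have h3 : (0 : ℤ) ≤ (k : ℤ) * (J + (r : ℤ)) := mul_nonneg (by omega) (by omega)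
        rcases hbout with h2 | h2 <;> omega)
    have hw1 : ∀ i, a i + (k : ℤ) * (J + (r : ℤ)) ≤ w' i ∧
        w' i ≤ a i + (k : ℤ) * (L : ℤ) - 1 - (k : ℤ) * (J + (r : ℤ)) := by
      intro i
      have h1 := hQ i
      have h2 := crs_adj _ _ _ hadj i
      constructor <;> omega
    have hw2 : ∃ i, w' i = a i + (k : ℤ) * (J + (r : ℤ)) ∨
        w' i = a i + (k : ℤ) * (L : ℤ) - 1 - (k : ℤ) * (J + (r : ℤ)) := by
      by_contra hcon
      push Not at hcon
      apply hQ'
      intro i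
      have h1 := hcon i
      have h2 := hw1 i
      constructor
      · rcases lt_or_eq_of_le h2.1 with h3 | h3
        · omega
        · exact absurd h3.symm h1.1
      · rcases lt_or_eq_of_le h2.2 with h3 | h3
        · omega
        · exact absurd h3 h1.2
    have hdiv : ∀ z : ℤ, (k : ℤ) * (z / (k : ℤ)) ≤ z ∧ z < (k : ℤ) * (z / (k : ℤ)) + (k : ℤ) := by
      intro z
      have h1 := Int.mul_ediv_add_emod z (k : ℤ)
      have h2 := Int.emod_nonneg z (by omega : (k : ℤ) ≠ 0)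
      have h3 := Int.emod_lt_of_pos z (by omega : (0 : ℤ) < (k : ℤ))
      constructor <;> omega
    have hvlo : ∀ i, (r : ℤ) ≤ (w' i - a i - (k : ℤ) * J) / (k : ℤ) := by
      intro i
      apply Int.le_ediv_of_mul_le (by omega)
      have := (hw1 i).1
      nlinarith
    have hvhi : ∀ i, (w' i - a i - (k : ℤ) * J) / (k : ℤ) < (L : ℤ) - 2 * J - (r : ℤ) := by
      intro i
      apply Int.ediv_lt_of_lt_mul (by omega)
      have := (hw1 i).2
      nlinarith
    refine ⟨fun i => (w' i - a i - (k : ℤ) * J) / (k : ℤ), ?_, ?_, ?_⟩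
    · rw [mem_vis]
      refine ⟨?_, w', ?_, ?_⟩
      · rw [mem_gr]
        intro i
        rw [hcast2]
        have h1 := hvlo i
        have h2 := hvhi i
        constructor
        · exact le_trans hr0 h1
        · refine lt_of_lt_of_le h2 ?_
          omega
      · rw [mem_tl]
        intro i
        rw [hog2]
        have h1 := hdiv (w' i - a i - (k : ℤ) * J)
        constructor
        · have := h1.1
          show a i + (k : ℤ) * J + (k : ℤ) * ((w' i - a i - (k : ℤ) * J) / (k : ℤ)) ≤ w' i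
          linarith
        · have := h1.2
          show w' i < a i + (k : ℤ) * J + (k : ℤ) * ((w' i - a i - (k : ℤ) * J) / (k : ℤ)) + (k : ℤ)
          linarith
      · rw [mem_cl]
        constructor
        · obtain ⟨i, h1 | h1⟩ := hadj
          · have h2 := (mem_edg _ _).mp (hω (Finset.mem_coe.mp h1.1))
            rw [h1.2]
            exact h2.2
          · have h2 := (mem_edg _ _).mp (hω (Finset.mem_coe.mp h1.1))
            exact h2.1
        · exact conn_trans hbx (conn_trans hw (Relation.ReflTransGen.single hadj))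
    · intro i
      have h1 := hvlo i
      have h2 := hvhi i
      constructor
      · exact h1
      · show (w' i - a i - (k : ℤ) * J) / (k : ℤ) ≤ (L : ℤ) - 2 * J - 1 - (r : ℤ)
        omega
    · obtain ⟨i, h | h⟩ := hw2
      · refine ⟨i, Or.inl ?_⟩
        show (w' i - a i - (k : ℤ) * J) / (k : ℤ) = (r : ℤ)
        have h1 : w' i - a i - (k : ℤ) * J = (k : ℤ) * (r : ℤ) := by rw [h]; ring
        rw [h1]
        exact Int.mul_ediv_cancel_left _ (by omega)
      · refine ⟨i, Or.inr ?_⟩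
        show (w' i - a i - (k : ℤ) * J) / (k : ℤ) = (L : ℤ) - 2 * J - 1 - (r : ℤ)
        apply le_antisymm
        · have := hvhi i
          omega
        · apply Int.le_ediv_of_mul_le (by omega)
          rw [h]
          nlinarith
  choose! v hv1 hv2 hv3 using key
  have hcard : (Finset.range m).card ≤ (vis (og a k m j) k (L - 2 * (j * m))
      (cl (cb a n) ω b)).card := by
    apply Finset.card_le_card_of_injOn v
    · intro r hr
      exact hv1 r hr
    · intro r hr r' hr' hrr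
      have aux : ∀ s ∈ Finset.range m, ∀ s' ∈ Finset.range m, v s = v s' → ¬ s < s' := by
        intro s hs s' hs' hss hlt
        obtain ⟨i, hi⟩ := hv3 s hs
        have h1 := hv2 s' hs' i
        rw [hss] at hi
        have h2 : (s : ℤ) < (s' : ℤ) := by exact_mod_cast hlt
        rcases hi with hi | hi <;> omega
      rcases lt_trichotomy r r' with h | h | h
      · exact absurd h (aux r hr r' hr' hrr)
      · exact h
      · exact absurd h (aux r' hr' r hr hrr.symm)
  rwa [Finset.card_range] at hcard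

end Pool.Agent.Uni
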