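import Pool.Agent.Uni.Exp

/-!
# Block UNI: the contact edges as a difference of deviations (rows idt: helper11, cle: helper16)
-/

set_option autoImplicit false

namespace Pool.Agent.Uni

open Finset
open Pool.Agent.SRC

variable {d : ℕ}

private theorem idt_one {α : Type*} [DecidableEq α] (S : Finset α) (G p : α) :
    ∑ X ∈ S.erase G, ind (X = p) = ind (p ∈ S ∧ p ≠ G) := by
  by_cases h : p ∈ S.erase G
  · rw [Finset.sum_eq_single_of_mem p h fun X _ hX => ind_false hX, ind_true rfl, ind_true]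
    exact ⟨Finset.mem_of_mem_erase h, Finset.ne_of_mem_erase h⟩
  · rw [Finset.sum_eq_zero, ind_false]
    · rintro ⟨h1, h2⟩
      exact h (Finset.mem_erase.mpr ⟨h2, h1⟩)
    · intro X hX
      refine ind_false fun h1 => h ?_
      rw [← h1]
      exact hX

private theorem idt_two {α : Type*} [DecidableEq α] (S : Finset α) (G p q : α) (hG : G ∈ S) :
    ∑ X ∈ S.erase G, ind (X = p ∨ X = q) =
      ind ((p ∈ S ∨ q ∈ S) ∧ ¬ (p = G ∨ q = G)) + ind (p ∈ S ∧ q ∈ S ∧ p ≠ q) := by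
  by_cases hpq : p = q
  · subst hpq
    have h1 : ∀ X ∈ S.erase G, ind (X = p ∨ X = p) = ind (X = p) := fun X _ =>
      ind_congr (or_self_iff)
    rw [Finset.sum_congr rfl h1, idt_one, ind_false (p := p ∈ S ∧ p ∈ S ∧ p ≠ p) fun h => h.2.2 rfl,
      add_zero]
    refine ind_congr ?_
    rw [or_self_iff, or_self_iff]
  · have h1 : ∀ X ∈ S.erase G, ind (X = p ∨ X = q) = ind (X = p) + ind (X = q) := by
      intro X _
      by_cases hX : X = p
      · rw [ind_true hX, ind_true (Or.inl hX), ind_false fun h => hpq (hX.symm.trans h), add_zero]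
      · rw [ind_false hX, zero_add]
        exact ind_congr ⟨fun h => h.resolve_left hX, Or.inr⟩
    rw [Finset.sum_congr rfl h1, Finset.sum_add_distrib, idt_one, idt_one]
    by_cases hp : p ∈ S
    · by_cases hq : q ∈ S
      · rw [ind_true (p := p ∈ S ∧ q ∈ S ∧ p ≠ q) ⟨hp, hq, hpq⟩]
        by_cases hpG : p = G
        · have hqG : q ≠ G := fun h => hpq (hpG.trans h.symm)
          rw [ind_false fun h => h.2 hpG, ind_true ⟨hq, hqG⟩, ind_false fun h => h.2 (Or.inl hpG)]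
        · by_cases hqG : q = G
          · rw [ind_true ⟨hp, hpG⟩, ind_false fun h => h.2 hqG, ind_false fun h => h.2 (Or.inr hqG)]
            ring
          · rw [ind_true ⟨hp, hpG⟩, ind_true ⟨hq, hqG⟩,
              ind_true ⟨Or.inl hp, fun h => h.elim hpG hqG⟩]
      · have hqG : q ≠ G := fun h => hq (h ▸ hG)
        rw [ind_false (p := p ∈ S ∧ q ∈ S ∧ p ≠ q) fun h => hq h.2.1,
          ind_false (p := q ∈ S ∧ q ≠ G) fun h => hq h.1, add_zero, add_zero]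
        refine ind_congr ⟨fun h => ⟨Or.inl h.1, fun h1 => h1.elim h.2 hqG⟩, fun h =>
          ⟨hp, fun h1 => h.2 (Or.inl h1)⟩⟩
    · have hpG : p ≠ G := fun h => hp (h ▸ hG)
      rw [ind_false (p := p ∈ S ∧ q ∈ S ∧ p ≠ q) fun h => hp h.1,
        ind_false (p := p ∈ S ∧ p ≠ G) fun h => hp h.1, zero_add, add_zero]
      refine ind_congr ⟨fun h => ⟨Or.inr h.1, fun h1 => h1.elim hpG h.2⟩, fun h =>
        ⟨h.1.resolve_left hp, fun h1 => h.2 (Or.inr h1)⟩⟩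

private theorem idt_fl {α : Type*} (M : Finset α) (p : α → Prop) (f : α → ℝ) :
    ∑ e ∈ fl M p, f e = ∑ e ∈ M, ind (p e) * f e := by
  classical
  have h1 : fl M p = M.filter p := by
    ext e
    rw [mem_fl, Finset.mem_filter]
  rw [h1, Finset.sum_filter]
  refine Finset.sum_congr rfl fun e _ => ?_
  split_ifs with h
  · rw [ind_true h, one_mul]
  · rw [ind_false h, zero_mul]

private theorem idt_dev (s : ℝ) (c M : Finset (Ed d)) (p : Ed d → Prop) :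
    dev s c (fl M p) = ∑ e ∈ M, ind (p e) * (ind (e ∈ c) - s) := by
  rw [← idt_fl]
  unfold dev
  rw [card_fl, Finset.sum_sub_distrib, Finset.sum_const, nsmul_eq_mul, mul_comm s]

private theorem idt_cl {V : Finset (Vx d)} {ω : Finset (Ed d)} {x y : Vx d} (hy : y ∈ V) :
    cl V ω x = cl V ω y ↔ conn (↑ω : Set (Ed d)) x y := by
  constructor
  · intro h
    have h1 : y ∈ cl V ω y := mem_cl.mpr ⟨hy, conn_refl _ _⟩
    rw [← h] at h1
    exact (mem_cl.mp h1).2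
  · intro h
    ext z
    rw [mem_cl, mem_cl]
    exact ⟨fun h1 => ⟨h1.1, conn_trans (conn_symm h) h1.2⟩, fun h1 => ⟨h1.1, conn_trans h h1.2⟩⟩

/-- row `idt` (Idt.lean) -/
theorem idt (s : ℝ) (V B : Finset (Vx d)) (Θ F W c : Finset (Ed d)) (hB : B ⊆ V)
    (hV : Θ ∪ F = edg V) (hF : Disjoint F Θ) (hc : c ⊆ F) (hW : W ⊆ edg V) (g : Vx d)
    (hg : g ∈ B) :
    s * ((fl W (Con B (Θ ∪ c))).card : ℝ) =
      dev s c (KK (F ∩ W) (jn B (Θ ∪ c)) (jn {g} (Θ ∪ c))) -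
      ∑ X ∈ (BC V B (Θ ∪ c)).erase (cl V (Θ ∪ c) g),
        dev s c (fl (F ∩ W) fun e => tch (fun y => y ∈ X) e) := by
  obtain ⟨ω, hω⟩ : ∃ ω : Finset (Ed d), ω = Θ ∪ c := ⟨_, rfl⟩
  rw [← hω]
  -- boundary clusters of vertices
  have hgS : cl V ω g ∈ BC V B ω := mem_BC.mpr ⟨g, hg, rfl⟩
  have jB : ∀ x, jn B ω x ↔ cl V ω x ∈ BC V B ω := by
    intro x
    rw [mem_BC]
    constructor
    · rintro ⟨b, hb, h1⟩
      exact ⟨b, hb, ((idt_cl (hB hb)).mpr h1).symm⟩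
    · rintro ⟨b, hb, h1⟩
      exact ⟨b, hb, (idt_cl (hB hb)).mp h1.symm⟩
  have jg : ∀ x, jn {g} ω x ↔ cl V ω x = cl V ω g := by
    intro x
    rw [idt_cl (hB hg)]
    constructor
    · rintro ⟨b, hb, h1⟩
      rw [Finset.mem_singleton] at hb
      rw [← hb]
      exact h1
    · intro h1
      exact ⟨g, Finset.mem_singleton_self g, h1⟩
  have jX : ∀ X ∈ BC V B ω, ∀ x ∈ V, x ∈ X ↔ X = cl V ω x := by
    intro X hX x hx
    obtain ⟨b, _, rfl⟩ := mem_BC.mp hX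
    rw [mem_cl, idt_cl hx]
    exact ⟨fun h => h.2, fun h => ⟨hx, h⟩⟩
  -- reduction to the edges of `F ∩ W`
  have hL : ((fl W (Con B ω)).card : ℝ) = ∑ e ∈ F ∩ W, ind (Con B ω e) := by
    rw [card_fl]
    symm
    refine Finset.sum_subset Finset.inter_subset_right fun e he he2 => ?_
    refine ind_false fun h => h.1 ?_
    have h1 : e ∈ Θ ∪ F := by
      rw [hV]
      exact hW he
    rw [hω]
    rcases Finset.mem_union.mp h1 with h2 | h2
    · exact Finset.mem_union_left _ h2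
    · exact absurd (Finset.mem_inter.mpr ⟨h2, he⟩) he2
  have hK : dev s c (KK (F ∩ W) (jn B ω) (jn {g} ω)) =
      ∑ e ∈ F ∩ W, ind (tch (jn B ω) e ∧ ¬ tch (jn {g} ω) e) * (ind (e ∈ c) - s) :=
    idt_dev s c (F ∩ W) _
  have hS : ∑ X ∈ (BC V B ω).erase (cl V ω g), dev s c (fl (F ∩ W) fun e => tch (fun y => y ∈ X) e) =
      ∑ e ∈ F ∩ W, (∑ X ∈ (BC V B ω).erase (cl V ω g), ind (tch (fun y => y ∈ X) e)) *
        (ind (e ∈ c) - s) := by
    rw [Finset.sum_congr rfl fun X _ => idt_dev s c (F ∩ W) _, Finset.sum_comm]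
    refine Finset.sum_congr rfl fun e _ => ?_
    rw [Finset.sum_mul]
  rw [hL, hK, hS, Finset.mul_sum, ← Finset.sum_sub_distrib]
  refine Finset.sum_congr rfl fun e he => ?_
  have heF : e ∈ F := (Finset.mem_inter.mp he).1
  have heV : e ∈ edg V := hW (Finset.mem_inter.mp he).2
  rw [mem_edg] at heV
  obtain ⟨h1V, h2V⟩ := heV
  have hX : ∑ X ∈ (BC V B ω).erase (cl V ω g), ind (tch (fun y => y ∈ X) e) =
      ∑ X ∈ (BC V B ω).erase (cl V ω g), ind (X = cl V ω e.1 ∨ X = cl V ω (tip e)) := by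
    refine Finset.sum_congr rfl fun X hX => ?_
    have hX1 := Finset.mem_of_mem_erase hX
    exact ind_congr (or_congr (jX X hX1 _ h1V) (jX X hX1 _ h2V))
  have hA : ind (tch (jn B ω) e ∧ ¬ tch (jn {g} ω) e) =
      ind ((cl V ω e.1 ∈ BC V B ω ∨ cl V ω (tip e) ∈ BC V B ω) ∧
        ¬ (cl V ω e.1 = cl V ω g ∨ cl V ω (tip e) = cl V ω g)) := by
    refine ind_congr ?_
    unfold tch
    rw [jB, jB, jg, jg]
  rw [hX, hA, idt_two _ _ _ _ hgS]
  by_cases hec : e ∈ c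
  · -- open edge: both ends in one cluster
    have heω : e ∈ ω := by
      rw [hω]
      exact Finset.mem_union_right _ hec
    have hcon : conn (↑ω : Set (Ed d)) e.1 (tip e) :=
      Relation.ReflTransGen.single ⟨e.2, Or.inl ⟨Finset.mem_coe.mpr heω, rfl⟩⟩
    have hpq : cl V ω e.1 = cl V ω (tip e) := (idt_cl h2V).mpr hcon
    rw [ind_false (p := Con B ω e) fun h => h.1 heω,
      ind_false (p := cl V ω e.1 ∈ BC V B ω ∧ cl V ω (tip e) ∈ BC V B ω ∧
        cl V ω e.1 ≠ cl V ω (tip e)) fun h => h.2.2 hpq]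
    ring
  · have heω : e ∉ ω := by
      rw [hω]
      intro h
      rcases Finset.mem_union.mp h with h1 | h1
      · exact Finset.disjoint_left.mp hF heF h1
      · exact hec h1
    have hCon : ind (Con B ω e) = ind (cl V ω e.1 ∈ BC V B ω ∧ cl V ω (tip e) ∈ BC V B ω ∧
        cl V ω e.1 ≠ cl V ω (tip e)) := by
      refine ind_congr ?_
      unfold Con
      rw [jB, jB, Ne, idt_cl h2V]
      exact ⟨fun h => h.2, fun h => ⟨heω, h⟩⟩
    rw [hCon, ind_false (p := e ∈ c) hec]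
    ring

/-- the deviation event -/
def MM (s τ : ℝ) (B : Finset (Vx d)) (Θ F W c : Finset (Ed d)) : Prop :=
  ∀ z ∈ B,
    |dev s c (KK (F ∩ W) (jn {z} (Θ ∪ c)) (jn ∅ (Θ ∪ c)))| ≤
      2 * Real.sqrt (τ * ((KK (F ∩ W) (jn {z} (Θ ∪ c)) (jn ∅ (Θ ∪ c))).card : ℝ)) ∧
    |dev s c (KK (F ∩ W) (jn B (Θ ∪ c)) (jn {z} (Θ ∪ c)))| ≤
      2 * Real.sqrt (τ * ((KK (F ∩ W) (jn B (Θ ∪ c)) (jn {z} (Θ ∪ c))).card : ℝ))

/-- the edges which touch the cluster of `z` -/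
private lemma cle_KK {V : Finset (Vx d)} {Θ F W c : Finset (Ed d)}
    (hV : Θ ∪ F = edg V) (z : Vx d) :
    fl (F ∩ W) (fun e => tch (fun y => y ∈ cl V (Θ ∪ c) z) e) =
      KK (F ∩ W) (jn {z} (Θ ∪ c)) (jn ∅ (Θ ∪ c)) := by
  ext e
  rw [mem_KK, mem_fl]
  constructor
  · rintro ⟨h1, h2⟩
    refine ⟨h1, ?_, ?_⟩
    · rcases h2 with h2 | h2
      · exact Or.inl ⟨z, Finset.mem_singleton_self z, conn_symm (mem_cl.1 h2).2⟩
      · exact Or.inr ⟨z, Finset.mem_singleton_self z, conn_symm (mem_cl.1 h2).2⟩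
    · rintro (⟨y, hy, _⟩ | ⟨y, hy, _⟩) <;> exact absurd hy (Finset.notMem_empty y)
  · rintro ⟨h1, h2, _⟩
    refine ⟨h1, ?_⟩
    have h3 : e ∈ edg V := by
      rw [← hV]
      exact Finset.mem_union_right _ (Finset.mem_inter.1 h1).1
    rw [mem_edg] at h3
    rcases h2 with ⟨y, hy, h2⟩ | ⟨y, hy, h2⟩
    · rw [Finset.mem_singleton] at hy
      subst hy
      exact Or.inl (mem_cl.2 ⟨h3.1, conn_symm h2⟩)
    · rw [Finset.mem_singleton] at hy
      subst hy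
      exact Or.inr (mem_cl.2 ⟨h3.2, conn_symm h2⟩)

private lemma cle_sqrt {ι : Type*} (s : Finset ι) (f : ι → ℝ) (hf : ∀ i ∈ s, 0 ≤ f i) :
    Real.sqrt (∑ i ∈ s, f i) ≤ ∑ i ∈ s, Real.sqrt (f i) := by
  classical
  induction s using Finset.induction_on with
  | empty => simp
  | insert a s ha ih =>
    rw [Finset.sum_insert ha, Finset.sum_insert ha]
    have h1 : ∀ i ∈ s, 0 ≤ f i := fun i hi => hf i (Finset.mem_insert_of_mem hi)
    have h2 := ih h1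
    have h3 : 0 ≤ f a := hf a (Finset.mem_insert_self a s)
    have h4 : 0 ≤ ∑ i ∈ s, f i := Finset.sum_nonneg h1
    refine (Real.sqrt_le_sqrt ?_).trans (Real.sqrt_sq (by positivity :
      0 ≤ Real.sqrt (f a) + ∑ i ∈ s, Real.sqrt (f i))).le
    have h5 : ∑ i ∈ s, f i ≤ (∑ i ∈ s, Real.sqrt (f i)) ^ 2 := by
      calc ∑ i ∈ s, f i = Real.sqrt (∑ i ∈ s, f i) ^ 2 := (Real.sq_sqrt h4).symm
        _ ≤ _ := by
          refine pow_le_pow_left₀ (Real.sqrt_nonneg _) h2 2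
    have h6 : 0 ≤ Real.sqrt (f a) * ∑ i ∈ s, Real.sqrt (f i) :=
      mul_nonneg (Real.sqrt_nonneg _) (Finset.sum_nonneg fun i _ => Real.sqrt_nonneg _)
    nlinarith [Real.sq_sqrt h3]

private lemma cle_union {V B : Finset (Vx d)} {Θ F W c : Finset (Ed d)}
    (hV : Θ ∪ F = edg V) (b : Vx d) :
    ((KK (F ∩ W) (jn B (Θ ∪ c)) (jn {b} (Θ ∪ c))).card : ℝ) ≤
      ∑ X ∈ (BC V B (Θ ∪ c)).erase (cl V (Θ ∪ c) b), RR (F ∩ W) X := by
  classical
  have h1 : KK (F ∩ W) (jn B (Θ ∪ c)) (jn {b} (Θ ∪ c)) ⊆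
      ((BC V B (Θ ∪ c)).erase (cl V (Θ ∪ c) b)).biUnion
        fun X => fl (F ∩ W) fun e => tch (fun y => y ∈ X) e := by
    intro e he
    obtain ⟨h1, h2, h3⟩ := mem_KK.1 he
    have h4 : e ∈ edg V := by
      rw [← hV]
      exact Finset.mem_union_right _ (Finset.mem_inter.1 h1).1
    rw [mem_edg] at h4
    have key : ∀ x, x ∈ V → jn B (Θ ∪ c) x → (x = e.1 ∨ x = tip e) →
        e ∈ ((BC V B (Θ ∪ c)).erase (cl V (Θ ∪ c) b)).biUnion
          fun X => fl (F ∩ W) fun e => tch (fun y => y ∈ X) e := by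
      intro x hx hj hxe
      obtain ⟨z, hz, hc⟩ := hj
      have hxz : x ∈ cl V (Θ ∪ c) z := mem_cl.2 ⟨hx, conn_symm hc⟩
      refine Finset.mem_biUnion.2 ⟨cl V (Θ ∪ c) z, Finset.mem_erase.2 ⟨?_, mem_BC.2 ⟨z, hz, rfl⟩⟩,
        (mem_fl _ _ _).2 ⟨h1, ?_⟩⟩
      · intro heq
        rw [heq] at hxz
        have h5 : jn {b} (Θ ∪ c) x := ⟨b, Finset.mem_singleton_self b, conn_symm (mem_cl.1 hxz).2⟩
        rcases hxe with rfl | rfl
        · exact h3 (Or.inl h5)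
        · exact h3 (Or.inr h5)
      · rcases hxe with rfl | rfl
        · exact Or.inl hxz
        · exact Or.inr hxz
    rcases h2 with h2 | h2
    · exact key _ h4.1 h2 (Or.inl rfl)
    · exact key _ h4.2 h2 (Or.inr rfl)
  have h2 := (Finset.card_le_card h1).trans Finset.card_biUnion_le
  have h3 : ((KK (F ∩ W) (jn B (Θ ∪ c)) (jn {b} (Θ ∪ c))).card : ℝ) ≤
      ((∑ X ∈ (BC V B (Θ ∪ c)).erase (cl V (Θ ∪ c) b),
        (fl (F ∩ W) fun e => tch (fun y => y ∈ X) e).card : ℕ) : ℝ) := by exact_mod_cast h2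
  refine h3.trans (le_of_eq ?_)
  rw [Nat.cast_sum]
  rfl

/-- row `cle` (Idt.lean) -/
theorem con_le (s τ : ℝ) (hτ : 0 ≤ τ) (V B : Finset (Vx d)) (Θ F W c : Finset (Ed d)) (hB : B ⊆ V)
    (hV : Θ ∪ F = edg V) (hF : Disjoint F Θ) (hc : c ⊆ F) (hW : W ⊆ edg V)
    (hM : MM s τ B Θ F W c) (g : Finset (Vx d)) (hg : g ∈ BC V B (Θ ∪ c)) :
    s * ((fl W (Con B (Θ ∪ c))).card : ℝ) ≤
      4 * Real.sqrt τ * ∑ X ∈ (BC V B (Θ ∪ c)).erase g, Real.sqrt (RR (F ∩ W) X) := by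
  classical
  obtain ⟨b, hb, rfl⟩ := mem_BC.1 hg
  rw [idt s V B Θ F W c hB hV hF hc hW b hb]
  have hRR : ∀ X : Finset (Vx d), 0 ≤ RR (F ∩ W) X := fun X => Nat.cast_nonneg _
  have h1 : dev s c (KK (F ∩ W) (jn B (Θ ∪ c)) (jn {b} (Θ ∪ c))) ≤
      2 * Real.sqrt τ * ∑ X ∈ (BC V B (Θ ∪ c)).erase (cl V (Θ ∪ c) b),
        Real.sqrt (RR (F ∩ W) X) := by
    refine (le_abs_self _).trans ((hM b hb).2.trans ?_)
    rw [Real.sqrt_mul hτ, ← mul_assoc]
    refine mul_le_mul_of_nonneg_left ?_ (by positivity)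
    exact (Real.sqrt_le_sqrt (cle_union hV b)).trans (cle_sqrt _ _ fun X _ => hRR X)
  have h2 : ∀ X ∈ (BC V B (Θ ∪ c)).erase (cl V (Θ ∪ c) b),
      -(2 * Real.sqrt τ * Real.sqrt (RR (F ∩ W) X)) ≤
        dev s c (fl (F ∩ W) fun e => tch (fun y => y ∈ X) e) := by
    intro X hX
    obtain ⟨z, hz, rfl⟩ := mem_BC.1 (Finset.mem_erase.1 hX).2
    have h3 := (hM z hz).1
    rw [← cle_KK hV z, Real.sqrt_mul hτ, ← mul_assoc] at h3
    exact (abs_le.1 h3).1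
  have h3 : -(∑ X ∈ (BC V B (Θ ∪ c)).erase (cl V (Θ ∪ c) b),
        2 * Real.sqrt τ * Real.sqrt (RR (F ∩ W) X)) ≤
      ∑ X ∈ (BC V B (Θ ∪ c)).erase (cl V (Θ ∪ c) b),
        dev s c (fl (F ∩ W) fun e => tch (fun y => y ∈ X) e) := by
    rw [← Finset.sum_neg_distrib]
    exact Finset.sum_le_sum h2
  rw [← Finset.mul_sum] at h3
  linarith

end Pool.Agent.Uni
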