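import Pool.Agent.Uni.Defs

/-!
# Isoperimetry in boxes of `ℤ^d`, `d ≥ 3` (helper65)

`iso_box`: `B` a box with all sides between `p` and `M p` points, `A ⊆ B` with `3 |A| ≤ 2 |B|`; then
`|A| ^ 2 ≤ (3 M + 1) ^ 3 * (number of edges of `B` between `A` and `B \ A`) ^ 3`.
-/

set_option autoImplicit false

namespace Pool.Agent.Uni

open Finset

variable {d : ℕ}

/-- Loomis - Whitney for three directions. -/
theorem lw (A : Finset (Fin d → ℤ)) {i j k : Fin d} (hij : i ≠ j) (hik : i ≠ k) (hjk : j ≠ k) :
    A.card ^ 2 ≤ (A.image (fun x => Function.update x i 0)).card *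
      (A.image (fun x => Function.update x j 0)).card *
      (A.image (fun x => Function.update x k 0)).card := by
  classical
  set P := A.image (fun x => Function.update x k 0) with hP
  have h1 : A.card = ∑ q ∈ P, (A.filter (fun x => Function.update x k 0 = q)).card :=
    card_eq_sum_card_image _ _
  have h2 : A.card ^ 2 ≤ P.card * ∑ q ∈ P, (A.filter (fun x => Function.update x k 0 = q)).card ^ 2 := by
    rw [h1]
    exact sq_sum_le_card_mul_sum_sq
  set W := (A ×ˢ A).filter (fun z => Function.update z.1 k 0 = Function.update z.2 k 0) with hW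
  have h3 : ∑ q ∈ P, (A.filter (fun x => Function.update x k 0 = q)).card ^ 2 = W.card := by
    have h4 : W.card = ∑ q ∈ P, (W.filter (fun z => Function.update z.1 k 0 = q)).card := by
      refine card_eq_sum_card_fiberwise ?_
      intro z hz
      have hz' := hz
      simp only [hW, coe_filter, mem_product, Set.mem_ofPred_eq] at hz'
      simp only [hP, coe_image, Set.mem_image, mem_coe]
      exact ⟨z.1, hz'.1.1, rfl⟩
    rw [h4]
    refine sum_congr rfl fun q _ => ?_
    rw [sq, ← card_product]
    congr 1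
    ext z
    simp only [hW, mem_filter, mem_product]
    constructor
    · rintro ⟨⟨a1, a2⟩, b1, b2⟩
      exact ⟨⟨⟨a1, b1⟩, by rw [a2, b2]⟩, a2⟩
    · rintro ⟨⟨⟨a1, b1⟩, c⟩, e⟩
      exact ⟨⟨a1, e⟩, b1, by rw [← c, e]⟩
  have h5 : W.card ≤ ((A.image (fun x => Function.update x i 0)) ×ˢ
      (A.image (fun x => Function.update x j 0))).card := by
    refine card_le_card_of_injOn
      (fun z => (Function.update z.1 i 0, Function.update z.2 j 0)) ?_ ?_
    · intro z hz
      simp only [hW, coe_filter, mem_product, Set.mem_ofPred_eq] at hz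
      simp only [coe_product, Set.mem_prod, mem_coe, mem_image]
      exact ⟨⟨z.1, hz.1.1, rfl⟩, ⟨z.2, hz.1.2, rfl⟩⟩
    · intro z hz w hw hzw
      simp only [hW, coe_filter, mem_product, Set.mem_ofPred_eq] at hz hw
      simp only [Prod.mk.injEq] at hzw
      obtain ⟨e1, e2⟩ := hzw
      -- coordinates
      have c1 : ∀ l, l ≠ i → z.1 l = w.1 l := by
        intro l hl
        have := congrFun e1 l
        rwa [Function.update_of_ne hl, Function.update_of_ne hl] at this
      have c2 : ∀ l, l ≠ j → z.2 l = w.2 l := by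
        intro l hl
        have := congrFun e2 l
        rwa [Function.update_of_ne hl, Function.update_of_ne hl] at this
      have c3 : ∀ l, l ≠ k → z.1 l = z.2 l := by
        intro l hl
        have := congrFun hz.2 l
        rwa [Function.update_of_ne hl, Function.update_of_ne hl] at this
      have c4 : ∀ l, l ≠ k → w.1 l = w.2 l := by
        intro l hl
        have := congrFun hw.2 l
        rwa [Function.update_of_ne hl, Function.update_of_ne hl] at this
      refine Prod.ext ?_ ?_
      · funext l
        by_cases hl : l = i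
        · subst hl
          rw [c3 l hik, c4 l hik]
          exact c2 l hij
        · exact c1 l hl
      · funext l
        by_cases hl : l = j
        · subst hl
          rw [← c3 l hjk, ← c4 l hjk]
          exact c1 l (Ne.symm hij)
        · exact c2 l hl
  rw [card_product] at h5
  calc A.card ^ 2 ≤ P.card * W.card := by rw [← h3]; exact h2
    _ ≤ P.card * ((A.image (fun x => Function.update x i 0)).card *
      (A.image (fun x => Function.update x j 0)).card) := Nat.mul_le_mul_left _ h5
    _ = _ := by ring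

/-- the lower ends of the edges in direction `k`, inside `B`, which join `A` to its complement -/
noncomputable def bdk (B A : Finset (Fin d → ℤ)) (k : Fin d) : Finset (Fin d → ℤ) := by
  classical exact B.filter (fun u => Function.update u k (u k + 1) ∈ B ∧
    ¬ (u ∈ A ↔ Function.update u k (u k + 1) ∈ A))

theorem mem_bdk {B A : Finset (Fin d → ℤ)} {k : Fin d} {u : Fin d → ℤ} :
    u ∈ bdk B A k ↔ u ∈ B ∧ Function.update u k (u k + 1) ∈ B ∧
      ¬ (u ∈ A ↔ Function.update u k (u k + 1) ∈ A) := by
  classical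
  simp [bdk]

theorem iff_of_steps {P : ℤ → Prop} {m M : ℤ} (h : m ≤ M)
    (hs : ∀ t, m ≤ t → t < M → (P t ↔ P (t + 1))) : P m ↔ P M := by
  have key : ∀ n : ℕ, (n : ℤ) ≤ M - m → (P m ↔ P (m + n)) := by
    intro n
    induction n with
    | zero => intro _; simp
    | succ n ih =>
      intro hn
      have h1 := ih (by push_cast at hn; omega)
      have h2 := hs (m + n) (by omega) (by push_cast at hn; omega)
      rw [h1, h2]
      push_cast
      rw [add_assoc]
  obtain ⟨n, hn⟩ := Int.eq_ofNat_of_zero_le (sub_nonneg.2 h)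
  have := key n (by omega)
  have e : m + (n : ℤ) = M := by omega
  rwa [e] at this

/-- a line of the box which meets `A` and `B \ A` contains a boundary edge -/
theorem exists_bdk {lo hi : Fin d → ℤ} {A : Finset (Fin d → ℤ)} {k : Fin d} {x : Fin d → ℤ}
    (hx : x ∈ Finset.Icc lo hi) (hxA : x ∈ A) {t : ℤ} (h1 : lo k ≤ t) (h2 : t ≤ hi k)
    (ht : Function.update x k t ∉ A) :
    ∃ e ∈ bdk (Finset.Icc lo hi) A k, Function.update e k 0 = Function.update x k 0 := by
  classical
  by_contra hcon
  push Not at hcon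
  have hxk : lo k ≤ x k ∧ x k ≤ hi k := by
    rw [mem_Icc] at hx
    exact ⟨hx.1 k, hx.2 k⟩
  have hmem : ∀ s, lo k ≤ s → s ≤ hi k → Function.update x k s ∈ Finset.Icc lo hi := by
    intro s a b
    rw [mem_Icc] at hx ⊢
    constructor
    · intro l
      by_cases hl : l = k
      · subst hl; simpa using a
      · rw [Function.update_of_ne hl]; exact hx.1 l
    · intro l
      by_cases hl : l = k
      · subst hl; simpa using b
      · rw [Function.update_of_ne hl]; exact hx.2 l
  have hst : ∀ s, lo k ≤ s → s < hi k →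
      (Function.update x k s ∈ A ↔ Function.update x k (s + 1) ∈ A) := by
    intro s a b
    by_contra hne
    refine hcon (Function.update x k s) ?_ (by simp)
    rw [mem_bdk]
    refine ⟨hmem s a b.le, ?_, ?_⟩
    · simp only [Function.update_self, Function.update_idem]
      exact hmem (s + 1) (by omega) (by omega)
    · simpa only [Function.update_self, Function.update_idem] using hne
  have hx0 : Function.update x k (x k) = x := Function.update_eq_self k x
  rcases le_total (x k) t with hle | hle
  · have := iff_of_steps (P := fun s => Function.update x k s ∈ A) hle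
      (fun s a b => hst s (by omega) (by omega))
    simp only [hx0] at this
    exact ht (this.1 hxA)
  · have := iff_of_steps (P := fun s => Function.update x k s ∈ A) hle
      (fun s a b => hst s (by omega) (by omega))
    simp only [hx0] at this
    exact ht (this.2 hxA)

/-- full lines -/
theorem full_lines {lo hi : Fin d → ℤ} {A : Finset (Fin d → ℤ)} (hA : A ⊆ Finset.Icc lo hi)
    (k : Fin d) (N b : ℕ) (hN : N ≤ (Finset.Icc (lo k) (hi k)).card) (hA2 : A.card ≤ N * b)
    (hN0 : 1 ≤ N) :
    (A.image (fun x => Function.update x k 0)).card ≤ b + (bdk (Finset.Icc lo hi) A k).card := by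
  classical
  set F := (A.image (fun x => Function.update x k 0)).filter
    (fun q => ∀ t ∈ Finset.Icc (lo k) (hi k), Function.update q k t ∈ A) with hF
  have h1 : F.card * (Finset.Icc (lo k) (hi k)).card ≤ A.card := by
    rw [← card_product]
    refine card_le_card_of_injOn (fun z => Function.update z.1 k z.2) ?_ ?_
    · intro z hz
      simp only [coe_product, Set.mem_prod, mem_coe] at hz
      have h := hz.1
      rw [hF, mem_filter] at h
      exact mem_coe.2 (h.2 z.2 hz.2)
    · intro z hz w hw hzw
      simp only [coe_product, Set.mem_prod, mem_coe] at hz hw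
      have hz1 := hz.1
      have hw1 := hw.1
      rw [hF, mem_filter, mem_image] at hz1 hw1
      obtain ⟨⟨x, _, hx⟩, _⟩ := hz1
      obtain ⟨⟨y, _, hy⟩, _⟩ := hw1
      simp only at hzw
      have ek : z.2 = w.2 := by
        have := congrFun hzw k
        simpa using this
      refine Prod.ext ?_ ek
      funext l
      by_cases hl : l = k
      · subst hl
        rw [← hx, ← hy]; simp
      · have := congrFun hzw l
        rwa [Function.update_of_ne hl, Function.update_of_ne hl] at this
  have h2 : F.card ≤ b := by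
    have h3 : F.card * N ≤ N * b :=
      le_trans (Nat.mul_le_mul_left _ hN) (le_trans h1 hA2)
    rw [mul_comm N b] at h3
    exact Nat.le_of_mul_le_mul_right h3 hN0
  have h4 : (A.image (fun x => Function.update x k 0)) ⊆
      F ∪ (bdk (Finset.Icc lo hi) A k).image (fun x => Function.update x k 0) := by
    intro q hq
    rw [mem_union]
    by_cases hqF : q ∈ F
    · exact Or.inl hqF
    · right
      rw [hF, mem_filter] at hqF
      push Not at hqF
      obtain ⟨t, ht, htA⟩ := hqF hq
      rw [mem_image] at hq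
      obtain ⟨x, hxA, hxq⟩ := hq
      rw [mem_Icc] at ht
      have htA' : Function.update x k t ∉ A := by
        rw [← hxq] at htA
        simpa using htA
      obtain ⟨e, he, hee⟩ := exists_bdk (hA hxA) hxA ht.1 ht.2 htA'
      rw [mem_image]
      exact ⟨e, he, by rw [hee, hxq]⟩
  calc (A.image (fun x => Function.update x k 0)).card
      ≤ (F ∪ (bdk (Finset.Icc lo hi) A k).image (fun x => Function.update x k 0)).card :=
        card_le_card h4
    _ ≤ F.card + ((bdk (Finset.Icc lo hi) A k).image (fun x => Function.update x k 0)).card :=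
        card_union_le _ _
    _ ≤ b + (bdk (Finset.Icc lo hi) A k).card := Nat.add_le_add h2 card_image_le

/-- the `j`-th point of the coordinate path from `x` to `y` -/
def zp (j : ℕ) (x y : Fin d → ℤ) : Fin d → ℤ := fun i => if i.val < j then y i else x i

theorem zp_zero (x y : Fin d → ℤ) : zp 0 x y = x := by
  funext i; simp [zp]

theorem zp_last (x y : Fin d → ℤ) : zp d x y = y := by
  funext i; simp [zp]

theorem zp_succ (j : Fin d) (x y : Fin d → ℤ) :
    zp (j.val + 1) x y = Function.update (zp j.val x y) j (y j) := by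
  funext i
  by_cases h : i = j
  · subst h; simp [zp]
  · rw [Function.update_of_ne h]
    have hne : i.val ≠ j.val := fun e => h (Fin.ext e)
    simp only [zp]
    by_cases h2 : i.val < j.val
    · rw [if_pos h2, if_pos (by omega)]
    · rw [if_neg h2, if_neg (by omega)]

theorem zp_mem {lo hi x y : Fin d → ℤ} (hx : x ∈ Finset.Icc lo hi) (hy : y ∈ Finset.Icc lo hi)
    (j : ℕ) : zp j x y ∈ Finset.Icc lo hi := by
  rw [mem_Icc] at hx hy ⊢
  constructor
  · intro i
    simp only [zp]
    split_ifs
    · exact hy.1 i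
    · exact hx.1 i
  · intro i
    simp only [zp]
    split_ifs
    · exact hy.2 i
    · exact hx.2 i

/-- Poincare inequality of a box -/
theorem poincare {lo hi : Fin d → ℤ} {A : Finset (Fin d → ℤ)} (hA : A ⊆ Finset.Icc lo hi) :
    A.card * (Finset.Icc lo hi \ A).card ≤ ∑ j : Fin d, (bdk (Finset.Icc lo hi) A j).card *
      ((Finset.Icc lo hi).card * (Finset.Icc (lo j) (hi j)).card) := by
  classical
  set B := Finset.Icc lo hi with hB
  set S : Fin d → Finset ((Fin d → ℤ) × (Fin d → ℤ)) := fun j =>
    (B ×ˢ B).filter (fun z => zp j.val z.1 z.2 ∈ A ∧ zp (j.val + 1) z.1 z.2 ∉ A) with hS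
  have h1 : A ×ˢ (B \ A) ⊆ (univ : Finset (Fin d)).biUnion S := by
    intro z hz
    rw [mem_product, mem_sdiff] at hz
    obtain ⟨hz1, hz2, hz3⟩ := hz
    by_contra hcon
    have hall : ∀ n : ℕ, n ≤ d → zp n z.1 z.2 ∈ A := by
      intro n
      induction n with
      | zero => intro _; rw [zp_zero]; exact hz1
      | succ n ih =>
        intro hn
        have hn' : n < d := hn
        by_contra hno
        refine hcon ?_
        rw [mem_biUnion]
        refine ⟨⟨n, hn'⟩, mem_univ _, ?_⟩
        simp only [hS, mem_filter, mem_product]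
        exact ⟨⟨hA hz1, hz2⟩, ih hn'.le, hno⟩
    have := hall d le_rfl
    rw [zp_last] at this
    exact hz3 this
  have h2 : ∀ j, (S j).card ≤ (bdk B A j).card * (B.card * (Finset.Icc (lo j) (hi j)).card) := by
    intro j
    have hex : ∀ z : (Fin d → ℤ) × (Fin d → ℤ), z ∈ S j → ∃ e ∈ bdk B A j,
        Function.update e j 0 = Function.update (zp j.val z.1 z.2) j 0 := by
      intro z hz
      simp only [hS, mem_filter, mem_product] at hz
      obtain ⟨⟨hz1, hz2⟩, hz3, hz4⟩ := hz
      rw [zp_succ] at hz4
      have hz2' := hz2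
      rw [hB, mem_Icc] at hz2'
      exact exists_bdk (zp_mem hz1 hz2 _) hz3 (hz2'.1 j) (hz2'.2 j) hz4
    choose! e he1 he2 using hex
    rw [← card_product, ← card_product]
    refine card_le_card_of_injOn (fun z => (e z, (zp j.val z.2 z.1, z.1 j))) ?_ ?_
    · intro z hz
      have hz' : z ∈ S j := mem_coe.1 hz
      have hz2 := hz'
      simp only [hS, mem_filter, mem_product] at hz2
      simp only [coe_product, Set.mem_prod, mem_coe]
      have h3 := hz2.1.1
      rw [hB, mem_Icc] at h3
      exact ⟨he1 z hz', zp_mem hz2.1.2 hz2.1.1 _, mem_Icc.2 ⟨h3.1 j, h3.2 j⟩⟩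
    · intro z hz w hw hzw
      have hz' : z ∈ S j := mem_coe.1 hz
      have hw' : w ∈ S j := mem_coe.1 hw
      simp only [Prod.mk.injEq] at hzw
      obtain ⟨a1, a2, a3⟩ := hzw
      have a4 : Function.update (zp j.val z.1 z.2) j 0 = Function.update (zp j.val w.1 w.2) j 0 := by
        rw [← he2 z hz', ← he2 w hw', a1]
      have b1 : ∀ i : Fin d, i.val < j.val → z.2 i = w.2 i ∧ z.1 i = w.1 i := by
        intro i hi
        have hne : i ≠ j := fun h => by rw [h] at hi; exact lt_irrefl _ hi
        have c1 := congrFun a4 i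
        rw [Function.update_of_ne hne, Function.update_of_ne hne] at c1
        have c2 := congrFun a2 i
        simp only [zp, if_pos hi] at c1 c2
        exact ⟨c1, c2⟩
      have b2 : ∀ i : Fin d, j.val < i.val → z.1 i = w.1 i ∧ z.2 i = w.2 i := by
        intro i hi
        have hne : i ≠ j := fun h => by rw [h] at hi; exact lt_irrefl _ hi
        have c1 := congrFun a4 i
        rw [Function.update_of_ne hne, Function.update_of_ne hne] at c1
        have c2 := congrFun a2 i
        simp only [zp, if_neg (not_lt.2 hi.le)] at c1 c2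
        exact ⟨c1, c2⟩
      have b3 : z.2 j = w.2 j := by
        have c2 := congrFun a2 j
        simpa [zp] using c2
      refine Prod.ext ?_ ?_
      · funext i
        rcases lt_trichotomy i.val j.val with h | h | h
        · exact (b1 i h).2
        · have : i = j := Fin.ext h
          rw [this]; exact a3
        · exact (b2 i h).1
      · funext i
        rcases lt_trichotomy i.val j.val with h | h | h
        · exact (b1 i h).1
        · have : i = j := Fin.ext h
          rw [this]; exact b3
        · exact (b2 i h).2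
  calc A.card * (B \ A).card = (A ×ˢ (B \ A)).card := (card_product _ _).symm
    _ ≤ ((univ : Finset (Fin d)).biUnion S).card := card_le_card h1
    _ ≤ ∑ j : Fin d, (S j).card := card_biUnion_le
    _ ≤ _ := sum_le_sum fun j _ => h2 j

/-- number of edges of `B` between `A` and `B \ A` -/
noncomputable def bdn (B A : Finset (Fin d → ℤ)) : ℕ := ∑ k : Fin d, (bdk B A k).card

/-- ISOPERIMETRY in a box: `d ≥ 3`, all sides have between `p` and `M p` points. -/
theorem iso_box (hd : 3 ≤ d) {lo hi : Fin d → ℤ} {A : Finset (Fin d → ℤ)} (hA : A ⊆ Finset.Icc lo hi)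
    {p M : ℕ} (hp : 1 ≤ p) (h1 : ∀ k, p ≤ (Finset.Icc (lo k) (hi k)).card)
    (h2 : ∀ k, (Finset.Icc (lo k) (hi k)).card ≤ M * p)
    (h3 : 3 * A.card ≤ 2 * (Finset.Icc lo hi).card) :
    A.card ^ 2 ≤ ((3 * M + 1) * bdn (Finset.Icc lo hi) A) ^ 3 := by
  classical
  set B := Finset.Icc lo hi with hB
  set b := bdn B A with hb
  rcases Nat.eq_zero_or_pos B.card with h0 | h0
  · have : A.card = 0 := by
      have := card_le_card hA
      omega
    rw [this]; simp
  have hbk : ∀ k, (bdk B A k).card ≤ b := by
    intro k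
    rw [hb, bdn]
    exact single_le_sum (f := fun k => (bdk B A k).card) (fun _ _ => Nat.zero_le _) (mem_univ k)
  have hc : (B \ A).card + A.card = B.card := card_sdiff_add_card_eq_card hA
  have h4 : A.card * (B \ A).card ≤ b * (B.card * (M * p)) := by
    refine le_trans (poincare hA) ?_
    rw [hb, bdn, sum_mul]
    refine sum_le_sum fun j _ => ?_
    exact Nat.mul_le_mul_left _ (Nat.mul_le_mul_left _ (h2 j))
  have h5 : A.card ≤ p * (3 * M * b) := by
    have h6 : B.card ≤ 3 * (B \ A).card := by omega
    have h7 : A.card * B.card ≤ (p * (3 * M * b)) * B.card := by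
      calc A.card * B.card ≤ A.card * (3 * (B \ A).card) := Nat.mul_le_mul_left _ h6
        _ = 3 * (A.card * (B \ A).card) := by ring
        _ ≤ 3 * (b * (B.card * (M * p))) := Nat.mul_le_mul_left _ h4
        _ = (p * (3 * M * b)) * B.card := by ring
    exact Nat.le_of_mul_le_mul_right h7 h0
  have h8 : ∀ k, (A.image (fun x => Function.update x k 0)).card ≤ (3 * M + 1) * b := by
    intro k
    have := full_lines hA k p (3 * M * b) (h1 k) h5 hp
    calc _ ≤ 3 * M * b + (bdk B A k).card := this
      _ ≤ 3 * M * b + b := Nat.add_le_add_left (hbk k) _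
      _ = _ := by ring
  set i : Fin d := ⟨0, by omega⟩
  set j : Fin d := ⟨1, by omega⟩
  set k : Fin d := ⟨2, by omega⟩
  have hij : i ≠ j := by intro h; simp [i, j, Fin.ext_iff] at h
  have hik : i ≠ k := by intro h; simp [i, k, Fin.ext_iff] at h
  have hjk : j ≠ k := by intro h; simp [j, k, Fin.ext_iff] at h
  calc A.card ^ 2 ≤ _ := lw A hij hik hjk
    _ ≤ ((3 * M + 1) * b) * ((3 * M + 1) * b) * ((3 * M + 1) * b) :=
        Nat.mul_le_mul (Nat.mul_le_mul (h8 i) (h8 j)) (h8 k)
    _ = _ := by ring

open Pool.Agent.SRC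

theorem iso_tip (u : Vx d) (k : Fin d) : tip (u, k) = Function.update u k (u k + 1) := by
  funext i
  unfold tip uv
  by_cases h : i = k
  · subst h; simp
  · rw [Function.update_of_ne h]
    simp [Pi.single_eq_of_ne h]

theorem iso_bdn (B A : Finset (Vx d)) :
    bdn B A = (fl (edg B) fun e => ¬ (e.1 ∈ A ↔ tip e ∈ A)).card := by
  classical
  rw [bdn, ← card_sigma]
  refine card_bij (fun z _ => (z.2, z.1)) ?_ ?_ ?_
  · rintro ⟨k, u⟩ hz
    rw [mem_sigma, mem_bdk] at hz
    obtain ⟨_, h1, h2, h3⟩ := hz
    rw [mem_fl, edg, mem_filter, mem_product, iso_tip]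
    exact ⟨⟨⟨h1, mem_univ _⟩, h2⟩, h3⟩
  · rintro ⟨k, u⟩ _ ⟨l, w⟩ _ h
    simp only [Prod.mk.injEq] at h
    obtain ⟨h1, h2⟩ := h
    subst h1; subst h2; rfl
  · rintro ⟨u, k⟩ he
    rw [mem_fl, edg, mem_filter, mem_product, iso_tip] at he
    refine ⟨⟨k, u⟩, ?_, rfl⟩
    rw [mem_sigma, mem_bdk]
    exact ⟨mem_univ _, he.1.1.1, he.1.2, he.2⟩

theorem iso_card_Icc (L : ℕ) (k : Fin d) :
    (Finset.Icc ((0 : Vx d) k) ((0 : Vx d) k + (L : ℤ) - 1)).card = L := by
  rw [Int.card_Icc]
  simp

theorem iso_card_gr (L : ℕ) : (gr d L).card = L ^ d := by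
  unfold gr cb
  rw [Pi.card_Icc, prod_congr rfl (fun k _ => iso_card_Icc (d := d) L k), prod_const, card_univ,
    Fintype.card_fin]

theorem rpow_le_of_sq_le {a N : ℕ} (h : a ^ 2 ≤ N ^ 3) : (a : ℝ) ^ ((2 : ℝ) / 3) ≤ N := by
  have h1 : ((a : ℝ)) ^ 2 ≤ (N : ℝ) ^ 3 := by exact_mod_cast h
  have h2 : ((a : ℝ) ^ 2) ^ (1 / 3 : ℝ) ≤ ((N : ℝ) ^ 3) ^ (1 / 3 : ℝ) :=
    Real.rpow_le_rpow (by positivity) h1 (by norm_num)
  have h3 : ((a : ℝ) ^ 2) ^ (1 / 3 : ℝ) = (a : ℝ) ^ ((2 : ℝ) / 3) := by
    rw [← Real.rpow_natCast, ← Real.rpow_mul (Nat.cast_nonneg a)]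
    norm_num
  have h4 : ((N : ℝ) ^ 3) ^ (1 / 3 : ℝ) = N := by
    rw [← Real.rpow_natCast, ← Real.rpow_mul (Nat.cast_nonneg N)]
    norm_num
  rw [h3, h4] at h2
  exact h2

/-- row `iso` (Iso.lean) -/
theorem iso (hd : 3 ≤ d) : ∃ C : ℝ, 0 < C ∧ ∀ (L : ℕ) (A : Finset (Vx d)), A ⊆ gr d L →
    2 * A.card ≤ L ^ d →
    (A.card : ℝ) ^ ((2 : ℝ) / 3) ≤
      C * ((fl (edg (gr d L)) fun e => ¬ (e.1 ∈ A ↔ tip e ∈ A)).card : ℝ) := by
  refine ⟨4, by norm_num, ?_⟩
  intro L A hA h2
  rcases Nat.eq_zero_or_pos L with hL | hL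
  · have h0 : A.card = 0 := by
      rw [hL, zero_pow (by omega)] at h2
      omega
    rw [h0]
    have : ((0 : ℕ) : ℝ) ^ ((2 : ℝ) / 3) = 0 := by
      rw [Nat.cast_zero]
      exact Real.zero_rpow (by norm_num)
    rw [this]
    positivity
  · have hcard := iso_card_gr (d := d) L
    have h3 : 3 * A.card ≤ 2 * (gr d L).card := by rw [hcard]; omega
    have h4 : A.card ^ 2 ≤ ((3 * 1 + 1) * bdn (gr d L) A) ^ 3 := by
      refine iso_box hd hA hL (fun k => ?_) (fun k => ?_) h3
      · exact le_of_eq (iso_card_Icc (d := d) L k).symm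
      · rw [one_mul]
        exact le_of_eq (iso_card_Icc (d := d) L k)
    have h5 := rpow_le_of_sq_le h4
    rw [iso_bdn] at h5
    push_cast at h5
    refine le_trans h5 (le_of_eq ?_)
    norm_num

end Pool.Agent.Uni
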