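import Pool.Agent.Uni.Defs

/-!
# Block UNI: opening paths (rows opa: helper99, opb: helper52, opc: helper91, opn: helper41)
-/

set_option autoImplicit false

namespace Pool.Agent.Uni

open Finset
open Pool.Agent.SRC

variable {d : ℕ}

private theorem opa_insert (s : ℝ) (E : Finset (Ed d)) (e : Ed d) (he : e ∉ E)
    (f : Finset (Ed d) → ℝ) :
    EB s (insert e E) f = (1 - s) * EB s E f + s * EB s E (fun c => f (insert e c)) := by
  classical
  unfold EB
  rw [Finset.sum_powerset_insert he, Finset.mul_sum, Finset.mul_sum]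
  congr 1
  · refine Finset.sum_congr rfl fun c hc => ?_
    rw [Finset.mem_powerset] at hc
    have hec : e ∉ c := fun h => he (hc h)
    rw [Finset.insert_sdiff_of_notMem E hec, Finset.card_insert_of_notMem
      (fun h => he (Finset.sdiff_subset h))]
    ring
  · refine Finset.sum_congr rfl fun c hc => ?_
    rw [Finset.mem_powerset] at hc
    have hec : e ∉ c := fun h => he (hc h)
    have s2 : insert e E \ insert e c = E \ c := by
      ext a
      simp only [Finset.mem_sdiff, Finset.mem_insert]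
      constructor
      · rintro ⟨h3 | h3, h4⟩
        · exact absurd (Or.inl h3) h4
        · exact ⟨h3, fun h5 => h4 (Or.inr h5)⟩
      · rintro ⟨h3, h4⟩
        exact ⟨Or.inr h3, fun h5 => h5.elim (fun h6 => he (h6 ▸ h3)) h4⟩
    rw [s2, Finset.card_insert_of_notMem hec]
    ring

private theorem opa_nonneg {s : ℝ} (hs0 : 0 < s) (hs1 : s ≤ 1) (E : Finset (Ed d))
    (f : Finset (Ed d) → ℝ) (hf : ∀ c, 0 ≤ f c) : 0 ≤ EB s E f := by
  have h := EB_mono s hs0.le hs1 E (fun _ => 0) f (fun c _ => hf c)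
  rw [EB_const] at h
  exact h

private theorem opa_one {s : ℝ} (hs0 : 0 < s) (hs1 : s ≤ 1) (F : Finset (Ed d)) (e : Ed d)
    (he : e ∈ F) (f : Finset (Ed d) → ℝ) (hf : ∀ c, 0 ≤ f c) :
    EB s F (fun c => f (insert e c)) ≤ s⁻¹ * EB s F f := by
  classical
  have hE : insert e (F.erase e) = F := Finset.insert_erase he
  have hn : e ∉ F.erase e := Finset.notMem_erase e F
  have h1 : EB s F (fun c => f (insert e c)) = EB s (F.erase e) (fun c => f (insert e c)) := by
    rw [← hE, opa_insert s (F.erase e) e hn, hE]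
    have h2 : (fun c : Finset (Ed d) => f (insert e (insert e c))) = fun c => f (insert e c) := by
      funext c
      rw [Finset.insert_idem]
    rw [h2]
    ring
  have h3 : EB s F f = (1 - s) * EB s (F.erase e) f +
      s * EB s (F.erase e) (fun c => f (insert e c)) := by
    have h4 := opa_insert s (F.erase e) e hn f
    rw [hE] at h4
    exact h4
  have h5 : 0 ≤ EB s (F.erase e) f := opa_nonneg hs0 hs1 _ _ hf
  rw [h1, h3, mul_add, ← mul_assoc, ← mul_assoc, inv_mul_cancel₀ hs0.ne', one_mul]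
  have h6 : 0 ≤ s⁻¹ * (1 - s) * EB s (F.erase e) f :=
    mul_nonneg (mul_nonneg (inv_nonneg.mpr hs0.le) (by linarith)) h5
  linarith

/-- row `opa` (Opn.lean) -/
theorem open_le {s : ℝ} (hs0 : 0 < s) (hs1 : s ≤ 1) (F P : Finset (Ed d)) (hP : P ⊆ F)
    (f : Finset (Ed d) → ℝ) (hf : ∀ c, 0 ≤ f c) :
    EB s F (fun c => f (c ∪ P)) ≤ (s⁻¹) ^ P.card * EB s F f := by
  classical
  induction P using Finset.induction_on generalizing f with
  | empty =>
    simp only [Finset.union_empty, Finset.card_empty, pow_zero, one_mul]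
    exact le_refl _
  | @insert e P he ih =>
    have h1 : (fun c : Finset (Ed d) => f (c ∪ insert e P)) = fun c => f (insert e (c ∪ P)) := by
      funext c
      rw [Finset.union_insert]
    rw [h1]
    have h2 := ih (fun x hx => hP (Finset.mem_insert_of_mem hx)) (fun c => f (insert e c))
      (fun c => hf _)
    have h3 := opa_one hs0 hs1 F e (hP (Finset.mem_insert_self e P)) f hf
    have h4 : (0 : ℝ) ≤ (s⁻¹) ^ P.card := pow_nonneg (inv_nonneg.mpr hs0.le) _
    rw [Finset.card_insert_of_notMem he, pow_succ, mul_assoc]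
    exact h2.trans (mul_le_mul_of_nonneg_left h3 h4)

private theorem opb_ins (ω : Set (Ed d)) (e : Ed d) (x y : Vx d) (h : conn (insert e ω) x y) :
    conn ω x y ∨ (conn ω x e.1 ∧ conn ω (tip e) y) ∨ (conn ω x (tip e) ∧ conn ω e.1 y) := by
  unfold conn at h
  induction h with
  | refl => exact Or.inl (conn_refl _ _)
  | @tail b c _ h2 ih =>
    have hcase : adj ω b c ∨ (b = e.1 ∧ c = tip e) ∨ (b = tip e ∧ c = e.1) := by
      obtain ⟨i, h3 | h3⟩ := h2
      · rcases h3.1 with h4 | h4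
        · right; left
          refine ⟨by rw [← h4], ?_⟩
          rw [h3.2, ← h4]; rfl
        · left
          exact ⟨i, Or.inl ⟨h4, h3.2⟩⟩
      · rcases h3.1 with h4 | h4
        · right; right
          refine ⟨?_, by rw [← h4]⟩
          rw [h3.2, ← h4]; rfl
        · left
          exact ⟨i, Or.inr ⟨h4, h3.2⟩⟩
    rcases hcase with h3 | ⟨h3, h4⟩ | ⟨h3, h4⟩
    · have h5 : conn ω b c := Relation.ReflTransGen.single h3
      rcases ih with h | h | h
      · exact Or.inl (conn_trans h h5)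
      · exact Or.inr (Or.inl ⟨h.1, conn_trans h.2 h5⟩)
      · exact Or.inr (Or.inr ⟨h.1, conn_trans h.2 h5⟩)
    · subst h3
      subst h4
      rcases ih with h | h | h
      · exact Or.inr (Or.inl ⟨h, conn_refl _ _⟩)
      · exact Or.inr (Or.inl ⟨h.1, conn_refl _ _⟩)
      · exact Or.inl h.1
    · subst h3
      subst h4
      rcases ih with h | h | h
      · exact Or.inr (Or.inr ⟨h, conn_refl _ _⟩)
      · exact Or.inl h.1
      · exact Or.inr (Or.inr ⟨h.1, conn_refl _ _⟩)

/-- row `opb` (Opn.lean) -/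
theorem con_of_path (B : Finset (Vx d)) (ω P : Finset (Ed d)) (x y : Vx d)
    (hx : jn B ω x) (hy : jn B ω y) (hn : ¬ conn (↑ω : Set (Ed d)) x y)
    (hc : conn (↑(ω ∪ P) : Set (Ed d)) x y) :
    ∃ Q ⊆ P, ∃ e ∈ P, e ∉ Q ∧ Con B (ω ∪ Q) e := by
  classical
  induction P using Finset.induction_on with
  | empty =>
    rw [Finset.union_empty] at hc
    exact absurd hc hn
  | @insert a P ha ih =>
    by_cases h1 : conn (↑(ω ∪ P) : Set (Ed d)) x y
    · obtain ⟨Q, hQ, e, he, h2, h3⟩ := ih h1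
      exact ⟨Q, hQ.trans (Finset.subset_insert _ _), e, Finset.mem_insert_of_mem he, h2, h3⟩
    · refine ⟨P, Finset.subset_insert _ _, a, Finset.mem_insert_self _ _, ha, ?_⟩
      have hset : (↑(ω ∪ insert a P) : Set (Ed d)) = insert a (↑(ω ∪ P) : Set (Ed d)) := by
        rw [Finset.union_insert, Finset.coe_insert]
      rw [hset] at hc
      have hsub : (↑ω : Set (Ed d)) ⊆ ↑(ω ∪ P) := by
        intro e he
        exact Finset.mem_coe.mpr (Finset.mem_union_left _ (Finset.mem_coe.mp he))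
      have hx' : jn B (ω ∪ P) x := by
        obtain ⟨z, hz, h⟩ := hx
        exact ⟨z, hz, conn_mono hsub h⟩
      have hy' : jn B (ω ∪ P) y := by
        obtain ⟨z, hz, h⟩ := hy
        exact ⟨z, hz, conn_mono hsub h⟩
      have haω : a ∉ ω ∪ P := by
        intro h
        rw [Set.insert_eq_of_mem (Finset.mem_coe.mpr h)] at hc
        exact h1 hc
      have key : ∀ u v : Vx d, jn B (ω ∪ P) u → conn (↑(ω ∪ P) : Set (Ed d)) u v →
          jn B (ω ∪ P) v := by
        intro u v hu huv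
        obtain ⟨z, hz, h⟩ := hu
        exact ⟨z, hz, conn_trans (conn_symm huv) h⟩
      rcases opb_ins _ _ _ _ hc with h | ⟨h, h'⟩ | ⟨h, h'⟩
      · exact absurd h h1
      · refine ⟨haω, key _ _ hx' h, key _ _ hy' (conn_symm h'), ?_⟩
        intro h4
        exact h1 (conn_trans h (conn_trans h4 h'))
      · refine ⟨haω, key _ _ hy' (conn_symm h'), key _ _ hx' h, ?_⟩
        intro h4
        exact h1 (conn_trans h (conn_trans (conn_symm h4) h'))

private theorem opc_uv_self (i : Fin d) : (uv i : Vx d) i = 1 := by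
  unfold uv
  exact Pi.single_eq_same i 1

private theorem opc_uv_ne {i j : Fin d} (h : j ≠ i) : (uv i : Vx d) j = 0 := by
  unfold uv
  exact Pi.single_eq_of_ne h 1

private theorem opc_path (lo up : Vx d) : ∀ (N : ℕ) (x y : Vx d),
    ∑ i, (x i - y i).natAbs = N → (∀ i, lo i ≤ x i ∧ x i ≤ up i) →
    (∀ i, lo i ≤ y i ∧ y i ≤ up i) →
    ∃ P : Finset (Ed d), (∀ e ∈ P, (∀ i, lo i ≤ e.1 i ∧ e.1 i ≤ up i) ∧
      (∀ i, lo i ≤ tip e i ∧ tip e i ≤ up i)) ∧ P.card ≤ N ∧ conn (↑P : Set (Ed d)) x y := by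
  classical
  intro N
  induction N with
  | zero =>
    intro x y hs _ _
    have hxy : x = y := by
      funext i
      have h1 := (Finset.sum_eq_zero_iff.mp hs) i (Finset.mem_univ i)
      have h2 : x i - y i = 0 := Int.natAbs_eq_zero.mp h1
      linarith
    subst hxy
    exact ⟨∅, fun e he => absurd he (Finset.notMem_empty e), le_of_eq Finset.card_empty,
      conn_refl _ _⟩
  | succ N ih =>
    intro x y hs hx hy
    have hex : ∃ i, x i ≠ y i := by
      by_contra hc
      push Not at hc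
      have h0 : ∑ i, (x i - y i).natAbs = 0 :=
        Finset.sum_eq_zero fun i _ => by rw [hc i, sub_self]; rfl
      omega
    obtain ⟨i, hi⟩ := hex
    have hstep : ∀ x' : Vx d, (∀ j, j ≠ i → x' j = x j) →
        (x i - y i).natAbs = (x' i - y i).natAbs + 1 → ∑ j, (x' j - y j).natAbs = N := by
      intro x' h1 h2
      have h3 := Finset.add_sum_erase Finset.univ (fun j => (x j - y j).natAbs) (Finset.mem_univ i)
      have h4 := Finset.add_sum_erase Finset.univ (fun j => (x' j - y j).natAbs)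
        (Finset.mem_univ i)
      have h5 : ∑ j ∈ Finset.univ.erase i, (x' j - y j).natAbs =
          ∑ j ∈ Finset.univ.erase i, (x j - y j).natAbs :=
        Finset.sum_congr rfl fun j hj => by rw [h1 j (Finset.ne_of_mem_erase hj)]
      omega
    have hfin : ∀ (x' : Vx d) (e : Ed d), (∀ j, j ≠ i → x' j = x j) →
        (x i - y i).natAbs = (x' i - y i).natAbs + 1 → (lo i ≤ x' i ∧ x' i ≤ up i) →
        ((e.1 = x ∧ tip e = x') ∨ (e.1 = x' ∧ tip e = x)) →
        ∃ P : Finset (Ed d), (∀ e ∈ P, (∀ i, lo i ≤ e.1 i ∧ e.1 i ≤ up i) ∧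
          (∀ i, lo i ≤ tip e i ∧ tip e i ≤ up i)) ∧ P.card ≤ N + 1 ∧
          conn (↑P : Set (Ed d)) x y := by
      intro x' e h1 h2 h3 he
      have hx' : ∀ j, lo j ≤ x' j ∧ x' j ≤ up j := by
        intro j
        by_cases hj : j = i
        · rw [hj]; exact h3
        · rw [h1 j hj]; exact hx j
      obtain ⟨P, hP1, hP2, hP3⟩ := ih x' y (hstep x' h1 h2) hx' hy
      refine ⟨insert e P, ?_, ?_, ?_⟩
      · intro e' he'
        rcases Finset.mem_insert.mp he' with h5 | h5
        · rw [h5]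
          rcases he with ⟨h6, h7⟩ | ⟨h6, h7⟩
          · rw [h6, h7]; exact ⟨hx, hx'⟩
          · rw [h6, h7]; exact ⟨hx', hx⟩
        · exact hP1 e' h5
      · exact le_trans (Finset.card_insert_le e P) (Nat.add_le_add_right hP2 1)
      · have h6 : conn (↑(insert e P) : Set (Ed d)) x x' := by
          refine Relation.ReflTransGen.single ⟨e.2, ?_⟩
          have h7 : e ∈ (↑(insert e P) : Set (Ed d)) :=
            Finset.mem_coe.mpr (Finset.mem_insert_self e P)
          rcases he with ⟨h8, h9⟩ | ⟨h8, h9⟩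
          · left
            refine ⟨?_, ?_⟩
            · rw [← h8]; exact h7
            · rw [← h8, ← h9]; rfl
          · right
            refine ⟨?_, ?_⟩
            · rw [← h8]; exact h7
            · rw [← h8, ← h9]; rfl
        refine conn_trans h6 (conn_mono ?_ hP3)
        exact Finset.coe_subset.mpr (Finset.subset_insert e P)
    rcases lt_or_gt_of_ne hi with hlt | hgt
    · have hi1 : (x + uv i : Vx d) i = x i + 1 := by rw [Pi.add_apply, opc_uv_self]
      refine hfin (x + uv i) (x, i) ?_ ?_ ?_ (Or.inl ⟨rfl, rfl⟩)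
      · intro j hj
        rw [Pi.add_apply, opc_uv_ne hj, add_zero]
      · rw [hi1]; omega
      · rw [hi1]
        have h8 := hx i
        have h9 := hy i
        constructor <;> omega
    · have hi1 : (x - uv i : Vx d) i = x i - 1 := by rw [Pi.sub_apply, opc_uv_self]
      refine hfin (x - uv i) (x - uv i, i) ?_ ?_ ?_ (Or.inr ⟨rfl, ?_⟩)
      · intro j hj
        rw [Pi.sub_apply, opc_uv_ne hj, sub_zero]
      · rw [hi1]; omega
      · rw [hi1]
        have h8 := hx i
        have h9 := hy i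
        constructor <;> omega
      · show x - uv i + uv i = x
        exact sub_add_cancel x (uv i)

/-- row `opc` (Opn.lean): a path inside two neighbouring tiles -/
theorem tile_path (a : Vx d) (k L : ℕ) (e : Ed d) (he : e ∈ edg (gr d L)) (x y : Vx d)
    (hx : x ∈ tl a k e.1) (hy : y ∈ tl a k (tip e)) :
    ∃ P : Finset (Ed d), P ⊆ edg (tl a k e.1 ∪ tl a k (tip e)) ∧ P ⊆ rg a k L ∧
      P.card ≤ (d + 1) * k ∧ conn (↑P : Set (Ed d)) x y := by
  classical
  obtain ⟨hg1, hg2⟩ := (mem_edg _ _).mp he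
  rw [mem_gr] at hg1 hg2
  rw [mem_tl] at hx hy
  obtain ⟨u, j⟩ := e
  have htj : tip ((u, j) : Ed d) j = u j + 1 := by
    show (u + uv j : Vx d) j = _
    rw [Pi.add_apply, opc_uv_self]
  have hti : ∀ i, i ≠ j → tip ((u, j) : Ed d) i = u i := by
    intro i hi
    show (u + uv j : Vx d) i = _
    rw [Pi.add_apply, opc_uv_ne hi, add_zero]
  have hk0 : (0 : ℤ) ≤ (k : ℤ) := Int.natCast_nonneg k
  -- the box
  have hsum : ∑ i, (x i - y i).natAbs ≤ (d + 1) * k := by
    have h1 : ∀ i ∈ (Finset.univ : Finset (Fin d)),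
        (x i - y i).natAbs ≤ k + (if i = j then k else 0) := by
      intro i _
      have h2 := hx i
      have h3 := hy i
      simp only at h2
      by_cases hi : i = j
      · rw [if_pos hi]
        rw [hi] at h2 h3 ⊢
        rw [htj] at h3
        have h4 : (k : ℤ) * (u j + 1) = (k : ℤ) * u j + k := by ring
        rw [h4] at h3
        omega
      · rw [if_neg hi]
        rw [hti i hi] at h3
        omega
    refine le_trans (Finset.sum_le_sum h1) ?_
    rw [Finset.sum_add_distrib, Finset.sum_const, Finset.card_univ, Fintype.card_fin,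
      Finset.sum_ite_eq' Finset.univ j, if_pos (Finset.mem_univ j), smul_eq_mul, add_mul, one_mul]
  have hpt : ∀ z : Vx d, (∀ i, a i + (k : ℤ) * u i ≤ z i ∧
      z i ≤ a i + (k : ℤ) * tip ((u, j) : Ed d) i + (k : ℤ) - 1) →
      z ∈ tl a k u ∪ tl a k (tip ((u, j) : Ed d)) := by
    intro z hz
    rw [Finset.mem_union, mem_tl, mem_tl]
    have h4 : (k : ℤ) * (u j + 1) = (k : ℤ) * u j + k := by ring
    by_cases hc : z j < a j + (k : ℤ) * u j + k
    · left
      intro i
      have h2 := hz i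
      by_cases hi : i = j
      · subst hi
        exact ⟨h2.1, hc⟩
      · rw [hti i hi] at h2
        constructor <;> omega
    · right
      intro i
      have h2 := hz i
      by_cases hi : i = j
      · subst hi
        rw [htj, h4] at h2 ⊢
        constructor <;> omega
      · rw [hti i hi] at h2 ⊢
        constructor <;> omega
  have hcb : ∀ z : Vx d, z ∈ tl a k u ∪ tl a k (tip ((u, j) : Ed d)) → z ∈ cb a (k * L) := by
    have haux : ∀ (v z : Vx d), (∀ i, 0 ≤ v i ∧ v i < (L : ℤ)) → z ∈ tl a k v →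
        z ∈ cb a (k * L) := by
      intro v z hv hz
      rw [mem_tl] at hz
      rw [mem_cb]
      intro i
      have h1 := hz i
      have h2 := hv i
      have h3 : (0 : ℤ) ≤ (k : ℤ) * v i := mul_nonneg hk0 h2.1
      have h4 : (k : ℤ) * (v i + 1) ≤ (k : ℤ) * (L : ℤ) :=
        mul_le_mul_of_nonneg_left (by omega) hk0
      have h5 : (k : ℤ) * (v i + 1) = (k : ℤ) * v i + k := by ring
      rw [h5] at h4
      rw [Nat.cast_mul]
      constructor <;> linarith [h1.1, h1.2]
    intro z hz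
    rcases Finset.mem_union.mp hz with h | h
    · exact haux u z hg1 h
    · exact haux _ z hg2 h
  obtain ⟨P, hP1, hP2, hP3⟩ := opc_path (fun i => a i + (k : ℤ) * u i)
    (fun i => a i + (k : ℤ) * tip ((u, j) : Ed d) i + (k : ℤ) - 1) _ x y rfl
    (fun i => by
      have h2 := hx i
      simp only at h2
      have h6 : (k : ℤ) * u i ≤ (k : ℤ) * tip ((u, j) : Ed d) i := by
        refine mul_le_mul_of_nonneg_left ?_ hk0
        by_cases hi : i = j
        · subst hi
          rw [htj]; omega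
        · rw [hti i hi]
      exact ⟨h2.1, by linarith [h2.2]⟩)
    (fun i => by
      have h2 := hy i
      have h6 : (k : ℤ) * u i ≤ (k : ℤ) * tip ((u, j) : Ed d) i := by
        refine mul_le_mul_of_nonneg_left ?_ hk0
        by_cases hi : i = j
        · subst hi
          rw [htj]; omega
        · rw [hti i hi]
      exact ⟨by linarith [h2.1], by linarith [h2.2]⟩)
  refine ⟨P, ?_, ?_, le_trans hP2 hsum, hP3⟩
  · intro e' he'
    obtain ⟨h7, h8⟩ := hP1 e' he'
    exact (mem_edg _ _).mpr ⟨hpt _ h7, hpt _ h8⟩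
  · intro e' he'
    obtain ⟨h7, h8⟩ := hP1 e' he'
    exact (mem_edg _ _).mpr ⟨hcb _ (hpt _ h7), hcb _ (hpt _ h8)⟩

private theorem opn_ind_le {α : Type*} (S : Finset α) (p : α → Prop) (x : α) (hx : x ∈ S)
    (hp : p x) : 1 ≤ ∑ y ∈ S, ind (p y) := by
  have h1 : ind (p x) ≤ ∑ y ∈ S, ind (p y) :=
    Finset.single_le_sum (f := fun y => ind (p y)) (fun y _ => ind_nonneg (p y)) hx
  rw [ind_true hp] at h1
  exact h1

private theorem opn_nonneg {s : ℝ} (hs0 : 0 < s) (hs1 : s ≤ 1) (F : Finset (Ed d))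
    (f : Finset (Ed d) → ℝ) (hf : ∀ c, 0 ≤ f c) : 0 ≤ EB s F f := by
  have h1 := EB_mono s hs0.le hs1 F (fun _ => 0) f (fun c _ => hf c)
  rw [EB_const] at h1
  exact h1

/-- one pair of vertices -/
private theorem opn_one {s : ℝ} (hs0 : 0 < s) (hs1 : s ≤ 1) (V B : Finset (Vx d))
    (Θ F : Finset (Ed d)) (hV : Θ ∪ F = edg V) (P : Finset (Ed d)) (hP : P ⊆ edg V)
    (x y : Vx d) (hc : conn (↑P : Set (Ed d)) x y) :
    EB s F (fun c => ind (jn B (Θ ∪ c) x ∧ jn B (Θ ∪ c) y ∧
      ¬ conn (↑(Θ ∪ c) : Set (Ed d)) x y)) ≤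
      (2 / s) ^ P.card * ∑ e ∈ P, EB s F (fun c => ind (Con B (Θ ∪ c) e)) := by
  classical
  have hone : 1 ≤ s⁻¹ := by
    rw [one_le_inv₀ hs0]
    exact hs1
  -- the union bound
  have h1 : EB s F (fun c => ind (jn B (Θ ∪ c) x ∧ jn B (Θ ∪ c) y ∧
      ¬ conn (↑(Θ ∪ c) : Set (Ed d)) x y)) ≤
      EB s F (fun c => ∑ Q ∈ P.powerset, ∑ e ∈ P, ind (Con B (Θ ∪ (c ∪ (Q ∩ F))) e)) := by
    refine EB_mono s hs0.le hs1 F _ _ fun c _ => ?_
    by_cases h : jn B (Θ ∪ c) x ∧ jn B (Θ ∪ c) y ∧ ¬ conn (↑(Θ ∪ c) : Set (Ed d)) x y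
    · rw [ind_true h]
      obtain ⟨hx, hy, hn⟩ := h
      have hcc : conn (↑((Θ ∪ c) ∪ P) : Set (Ed d)) x y :=
        conn_mono (Finset.coe_subset.mpr Finset.subset_union_right) hc
      obtain ⟨Q, hQ, e, he, _, hcon⟩ := con_of_path B (Θ ∪ c) P x y hx hy hn hcc
      have heq : (Θ ∪ c) ∪ Q = Θ ∪ (c ∪ (Q ∩ F)) := by
        ext z
        simp only [Finset.mem_union, Finset.mem_inter]
        constructor
        · rintro ((hz | hz) | hz)
          · exact Or.inl hz
          · exact Or.inr (Or.inl hz)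
          · have hz2 : z ∈ Θ ∪ F := by
              rw [hV]
              exact hP (hQ hz)
            rcases Finset.mem_union.mp hz2 with hz3 | hz3
            · exact Or.inl hz3
            · exact Or.inr (Or.inr ⟨hz, hz3⟩)
        · rintro (hz | hz | hz)
          · exact Or.inl (Or.inl hz)
          · exact Or.inl (Or.inr hz)
          · exact Or.inr hz.1
      rw [heq] at hcon
      have h2 : 1 ≤ ∑ e ∈ P, ind (Con B (Θ ∪ (c ∪ (Q ∩ F))) e) :=
        opn_ind_le P (fun e => Con B (Θ ∪ (c ∪ (Q ∩ F))) e) e he hcon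
      refine h2.trans ?_
      exact Finset.single_le_sum
        (f := fun Q : Finset (Ed d) => ∑ e ∈ P, ind (Con B (Θ ∪ (c ∪ (Q ∩ F))) e))
        (fun Q' _ => Finset.sum_nonneg fun e' _ => ind_nonneg _) (Finset.mem_powerset.mpr hQ)
    · rw [ind_false h]
      exact Finset.sum_nonneg fun Q _ => Finset.sum_nonneg fun e _ => ind_nonneg _
  refine h1.trans ?_
  rw [EB_sum]
  have h2 : ∀ Q ∈ P.powerset,
      EB s F (fun c => ∑ e ∈ P, ind (Con B (Θ ∪ (c ∪ (Q ∩ F))) e)) ≤
        (s⁻¹) ^ P.card * ∑ e ∈ P, EB s F (fun c => ind (Con B (Θ ∪ c) e)) := by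
    intro Q hQ
    rw [EB_sum, Finset.mul_sum]
    refine Finset.sum_le_sum fun e _ => ?_
    have h3 := open_le hs0 hs1 F (Q ∩ F) Finset.inter_subset_right
      (fun c => ind (Con B (Θ ∪ c) e)) (fun c => ind_nonneg _)
    refine h3.trans ?_
    refine mul_le_mul_of_nonneg_right ?_ (opn_nonneg hs0 hs1 F _ fun c => ind_nonneg _)
    refine pow_le_pow_right₀ hone ?_
    exact (Finset.card_le_card Finset.inter_subset_left).trans
      (Finset.card_le_card (Finset.mem_powerset.mp hQ))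
  refine (Finset.sum_le_sum h2).trans (le_of_eq ?_)
  rw [Finset.sum_const, Finset.card_powerset, nsmul_eq_mul, Nat.cast_pow, Nat.cast_ofNat,
    ← mul_assoc, ← mul_pow, div_eq_mul_inv]

private theorem opn_card (a : Vx d) (k : ℕ) (u : Vx d) : (tl a k u).card = k ^ d := by
  unfold tl cb
  rw [Pi.card_Icc]
  have h1 : ∀ i : Fin d, (Finset.Icc ((fun i => a i + (k : ℤ) * u i) i)
      ((fun i => (fun i => a i + (k : ℤ) * u i) i + (k : ℤ) - 1) i)).card = k := by
    intro i
    rw [Int.card_Icc]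
    have h2 : (a i + (k : ℤ) * u i + (k : ℤ) - 1) + 1 - (a i + (k : ℤ) * u i) = (k : ℤ) := by
      ring
    show ((a i + (k : ℤ) * u i + (k : ℤ) - 1) + 1 - (a i + (k : ℤ) * u i)).toNat = k
    rw [h2]
    exact Int.toNat_natCast k
  rw [Finset.prod_congr rfl fun i _ => h1 i, Finset.prod_const, Finset.card_univ,
    Fintype.card_fin]

private theorem opn_uniq (a : Vx d) (k : ℕ) (hk : 1 ≤ k) (x u v : Vx d) (hu : x ∈ tl a k u)
    (hv : x ∈ tl a k v) : u = v := by
  rw [mem_tl] at hu hv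
  funext i
  obtain ⟨h1, h2⟩ := hu i
  obtain ⟨h3, h4⟩ := hv i
  have hk' : (0 : ℤ) < (k : ℤ) := by exact_mod_cast hk
  have h5 : (k : ℤ) * (u i - v i) < (k : ℤ) * 1 := by
    have : (k : ℤ) * (u i - v i) = (k : ℤ) * u i - (k : ℤ) * v i := by ring
    linarith
  have h6 : (k : ℤ) * (v i - u i) < (k : ℤ) * 1 := by
    have : (k : ℤ) * (v i - u i) = (k : ℤ) * v i - (k : ℤ) * u i := by ring
    linarith
  have h7 : u i - v i < 1 := lt_of_mul_lt_mul_left h5 hk'.le
  have h8 : v i - u i < 1 := lt_of_mul_lt_mul_left h6 hk'.le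
  omega

private theorem opn_deg (a : Vx d) (k L : ℕ) (hk : 1 ≤ k) (e' : Ed d) :
    ∑ e ∈ edg (gr d L), ind (e' ∈ edg (tl a k e.1 ∪ tl a k (tip e))) ≤ 2 * (d : ℝ) := by
  classical
  rw [← card_fl]
  by_cases h : ∃ u, e'.1 ∈ tl a k u
  · obtain ⟨u0, hu0⟩ := h
    have hsub : (fl (edg (gr d L)) fun e => e' ∈ edg (tl a k e.1 ∪ tl a k (tip e))) ⊆
        (Finset.univ.image fun i : Fin d => ((u0, i) : Ed d)) ∪
          (Finset.univ.image fun i : Fin d => ((u0 - uv i, i) : Ed d)) := by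
      intro e he
      have he2 := ((mem_fl _ _ _).mp he).2
      have he3 := ((mem_edg _ _).mp he2).1
      rw [Finset.mem_union]
      rcases Finset.mem_union.mp he3 with h1 | h1
      · left
        have h2 := opn_uniq a k hk _ _ _ h1 hu0
        rw [Finset.mem_image]
        exact ⟨e.2, Finset.mem_univ _, by rw [← h2]⟩
      · right
        have h2 := opn_uniq a k hk _ _ _ h1 hu0
        rw [Finset.mem_image]
        refine ⟨e.2, Finset.mem_univ _, ?_⟩
        rw [← h2]
        unfold tip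
        rw [add_sub_cancel_right]
    have h3 := (Finset.card_le_card hsub).trans (Finset.card_union_le _ _)
    have h4 : (Finset.univ.image fun i : Fin d => ((u0, i) : Ed d)).card ≤ d := by
      refine Finset.card_image_le.trans ?_
      rw [Finset.card_univ, Fintype.card_fin]
    have h5 : (Finset.univ.image fun i : Fin d => ((u0 - uv i, i) : Ed d)).card ≤ d := by
      refine Finset.card_image_le.trans ?_
      rw [Finset.card_univ, Fintype.card_fin]
    have h6 : (fl (edg (gr d L)) fun e => e' ∈ edg (tl a k e.1 ∪ tl a k (tip e))).card ≤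
        2 * d := by omega
    exact_mod_cast h6
  · have hempty : (fl (edg (gr d L)) fun e => e' ∈ edg (tl a k e.1 ∪ tl a k (tip e))) = ∅ := by
      rw [Finset.eq_empty_iff_forall_notMem]
      intro e he
      have he2 := ((mem_fl _ _ _).mp he).2
      have he3 := ((mem_edg _ _).mp he2).1
      rcases Finset.mem_union.mp he3 with h1 | h1
      · exact h ⟨_, h1⟩
      · exact h ⟨_, h1⟩
    rw [hempty, Finset.card_empty, Nat.cast_zero]
    positivity

/-- one grid edge -/
private theorem opn_edge {s : ℝ} (hs0 : 0 < s) (hs1 : s ≤ 1) (V B : Finset (Vx d))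
    (Θ F : Finset (Ed d)) (hV : Θ ∪ F = edg V) (a : Vx d) (k L : ℕ)
    (hr : cb a (k * L) ⊆ V) (e : Ed d) (he : e ∈ edg (gr d L)) :
    EB s F (fun c => ind (Ctc B a k (Θ ∪ c) e)) ≤
      (k : ℝ) ^ (2 * d) * (2 / s) ^ ((d + 1) * k) *
        ∑ e' ∈ rg a k L, ind (e' ∈ edg (tl a k e.1 ∪ tl a k (tip e))) *
          EB s F (fun c => ind (Con B (Θ ∪ c) e')) := by
  classical
  have htwo : 1 ≤ 2 / s := by
    rw [le_div_iff₀ hs0]
    linarith
  have hG : ∀ e', 0 ≤ EB s F (fun c => ind (Con B (Θ ∪ c) e')) := fun e' =>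
    opn_nonneg hs0 hs1 F _ fun c => ind_nonneg _
  set R : ℝ := ∑ e' ∈ rg a k L, ind (e' ∈ edg (tl a k e.1 ∪ tl a k (tip e))) *
          EB s F (fun c => ind (Con B (Θ ∪ c) e')) with hR
  have hrg : rg a k L ⊆ edg V := by
    intro z hz
    unfold rg at hz
    rw [mem_edg] at hz ⊢
    exact ⟨hr hz.1, hr hz.2⟩
  have hpair : ∀ x ∈ tl a k e.1, ∀ y ∈ tl a k (tip e),
      EB s F (fun c => ind (jn B (Θ ∪ c) x ∧ jn B (Θ ∪ c) y ∧
        ¬ conn (↑(Θ ∪ c) : Set (Ed d)) x y)) ≤ (2 / s) ^ ((d + 1) * k) * R := by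
    intro x hx y hy
    obtain ⟨P, hP1, hP2, hP3, hP4⟩ := tile_path a k L e he x y hx hy
    refine (opn_one hs0 hs1 V B Θ F hV P (hP2.trans hrg) x y hP4).trans ?_
    have h1 : ∑ e' ∈ P, EB s F (fun c => ind (Con B (Θ ∪ c) e')) ≤ R := by
      rw [hR]
      have h2 : ∑ e' ∈ P, EB s F (fun c => ind (Con B (Θ ∪ c) e')) =
          ∑ e' ∈ P, ind (e' ∈ edg (tl a k e.1 ∪ tl a k (tip e))) *
            EB s F (fun c => ind (Con B (Θ ∪ c) e')) := by
        refine Finset.sum_congr rfl fun e' he' => ?_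
        rw [ind_true (hP1 he'), one_mul]
      rw [h2]
      exact Finset.sum_le_sum_of_subset_of_nonneg hP2
        (fun e' _ _ => mul_nonneg (ind_nonneg _) (hG e'))
    have h3 : 0 ≤ ∑ e' ∈ P, EB s F (fun c => ind (Con B (Θ ∪ c) e')) :=
      Finset.sum_nonneg fun e' _ => hG e'
    exact mul_le_mul (pow_le_pow_right₀ htwo hP3) h1 h3 (pow_nonneg (by linarith) _)
  have hun : EB s F (fun c => ind (Ctc B a k (Θ ∪ c) e)) ≤
      EB s F (fun c => ∑ x ∈ tl a k e.1, ∑ y ∈ tl a k (tip e),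
        ind (jn B (Θ ∪ c) x ∧ jn B (Θ ∪ c) y ∧ ¬ conn (↑(Θ ∪ c) : Set (Ed d)) x y)) := by
    refine EB_mono s hs0.le hs1 F _ _ fun c _ => ?_
    by_cases h : Ctc B a k (Θ ∪ c) e
    · rw [ind_true h]
      obtain ⟨x, hx, y, hy, h1⟩ := h
      have h2 := opn_ind_le (tl a k (tip e)) (fun y => jn B (Θ ∪ c) x ∧ jn B (Θ ∪ c) y ∧
        ¬ conn (↑(Θ ∪ c) : Set (Ed d)) x y) y hy h1
      refine h2.trans ?_
      exact Finset.single_le_sum
        (f := fun x => ∑ y ∈ tl a k (tip e), ind (jn B (Θ ∪ c) x ∧ jn B (Θ ∪ c) y ∧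
          ¬ conn (↑(Θ ∪ c) : Set (Ed d)) x y))
        (fun x' _ => Finset.sum_nonneg fun y' _ => ind_nonneg _) hx
    · rw [ind_false h]
      exact Finset.sum_nonneg fun x _ => Finset.sum_nonneg fun y _ => ind_nonneg _
  refine hun.trans ?_
  rw [EB_sum]
  have h5 : ∀ x ∈ tl a k e.1,
      EB s F (fun c => ∑ y ∈ tl a k (tip e),
        ind (jn B (Θ ∪ c) x ∧ jn B (Θ ∪ c) y ∧ ¬ conn (↑(Θ ∪ c) : Set (Ed d)) x y)) ≤
        (k : ℝ) ^ d * ((2 / s) ^ ((d + 1) * k) * R) := by
    intro x hx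
    rw [EB_sum]
    refine (Finset.sum_le_sum fun y hy => hpair x hx y hy).trans (le_of_eq ?_)
    rw [Finset.sum_const, opn_card, nsmul_eq_mul, Nat.cast_pow]
  refine (Finset.sum_le_sum h5).trans (le_of_eq ?_)
  rw [Finset.sum_const, opn_card, nsmul_eq_mul, Nat.cast_pow]
  ring

/-- row `opn` (Opn.lean; uses opa, opb, opc) -/
theorem opn {s : ℝ} (hs0 : 0 < s) (hs1 : s ≤ 1) (V B : Finset (Vx d)) (Θ F : Finset (Ed d))
    (hV : Θ ∪ F = edg V) (hF : Disjoint F Θ) (a : Vx d) (k L : ℕ) (hk : 1 ≤ k)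
    (hr : cb a (k * L) ⊆ V) :
    EB s F (fun c => ((fl (edg (gr d L)) (Ctc B a k (Θ ∪ c))).card : ℝ)) ≤
      2 * (d : ℝ) * (k : ℝ) ^ (2 * d) * (2 / s) ^ ((d + 1) * k) *
        EB s F (fun c => ((fl (rg a k L) (Con B (Θ ∪ c))).card : ℝ)) := by
  have hG : ∀ e', 0 ≤ EB s F (fun c => ind (Con B (Θ ∪ c) e')) := fun e' =>
    opn_nonneg hs0 hs1 F _ fun c => ind_nonneg _
  have h1 : EB s F (fun c => ((fl (edg (gr d L)) (Ctc B a k (Θ ∪ c))).card : ℝ)) =
      ∑ e ∈ edg (gr d L), EB s F (fun c => ind (Ctc B a k (Θ ∪ c) e)) := by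
    rw [← EB_sum]
    exact EB_congr s F _ _ fun c _ => card_fl _ _
  have h2 : EB s F (fun c => ((fl (rg a k L) (Con B (Θ ∪ c))).card : ℝ)) =
      ∑ e' ∈ rg a k L, EB s F (fun c => ind (Con B (Θ ∪ c) e')) := by
    rw [← EB_sum]
    exact EB_congr s F _ _ fun c _ => card_fl _ _
  rw [h1, h2]
  have hA : 0 ≤ (k : ℝ) ^ (2 * d) * (2 / s) ^ ((d + 1) * k) := by positivity
  calc ∑ e ∈ edg (gr d L), EB s F (fun c => ind (Ctc B a k (Θ ∪ c) e))
      ≤ ∑ e ∈ edg (gr d L), (k : ℝ) ^ (2 * d) * (2 / s) ^ ((d + 1) * k) *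
        ∑ e' ∈ rg a k L, ind (e' ∈ edg (tl a k e.1 ∪ tl a k (tip e))) *
          EB s F (fun c => ind (Con B (Θ ∪ c) e')) :=
        Finset.sum_le_sum fun e he => opn_edge hs0 hs1 V B Θ F hV a k L hr e he
    _ = (k : ℝ) ^ (2 * d) * (2 / s) ^ ((d + 1) * k) * ∑ e' ∈ rg a k L,
          (∑ e ∈ edg (gr d L), ind (e' ∈ edg (tl a k e.1 ∪ tl a k (tip e)))) *
          EB s F (fun c => ind (Con B (Θ ∪ c) e')) := by
        rw [← Finset.mul_sum, Finset.sum_comm]
        refine congrArg _ (Finset.sum_congr rfl fun e' _ => ?_)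
        rw [Finset.sum_mul]
    _ ≤ (k : ℝ) ^ (2 * d) * (2 / s) ^ ((d + 1) * k) * ∑ e' ∈ rg a k L,
          2 * (d : ℝ) * EB s F (fun c => ind (Con B (Θ ∪ c) e')) :=
        mul_le_mul_of_nonneg_left (Finset.sum_le_sum fun e' _ =>
          mul_le_mul_of_nonneg_right (opn_deg a k L hk e') (hG e')) hA
    _ = 2 * (d : ℝ) * (k : ℝ) ^ (2 * d) * (2 / s) ^ ((d + 1) * k) *
        ∑ e' ∈ rg a k L, EB s F (fun c => ind (Con B (Θ ∪ c) e')) := by
        rw [← Finset.mul_sum]
        ring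

end Pool.Agent.Uni
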