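import Pool.Agent.Uni.Idt

/-!
# Block UNI: tail bounds (rows tail: helper18, mm: helper11)
-/

set_option autoImplicit false

namespace Pool.Agent.Uni

open Finset
open Pool.Agent.SRC

variable {d : ℕ}

theorem dev_tail {s τ : ℝ} (hs0 : 0 ≤ s) (hs1 : s ≤ 1) (hτ : 0 ≤ τ) (W Θ F : Finset (Ed d))
    (hF : Disjoint F Θ) (Z Z' : Finset (Vx d)) :
    EB s F (fun c => ind (2 * Real.sqrt (τ * ((KK (F ∩ W) (jn Z (Θ ∪ c)) (jn Z' (Θ ∪ c))).card : ℝ)) <
      |dev s c (KK (F ∩ W) (jn Z (Θ ∪ c)) (jn Z' (Θ ∪ c)))|)) ≤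
      2 * ((F.card : ℝ) + 1) * Real.exp (-τ) := by
  classical
  have hdev0 : ∀ c : Finset (Ed d), dev s c ∅ = 0 := by
    intro c
    unfold dev
    have h3 : (fl (∅ : Finset (Ed d)) fun e => e ∈ c) = ∅ := by
      ext e
      rw [mem_fl]
      simp
    rw [h3]
    simp
  have key : ∀ c : Finset (Ed d), c ⊆ F →
      ind (2 * Real.sqrt (τ * ((KK (F ∩ W) (jn Z (Θ ∪ c)) (jn Z' (Θ ∪ c))).card : ℝ)) <
      |dev s c (KK (F ∩ W) (jn Z (Θ ∪ c)) (jn Z' (Θ ∪ c)))|) ≤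
      ∑ r ∈ Finset.Icc 1 F.card, Real.exp (-τ) * (ig s (Real.sqrt (τ / r)) Θ F W Z Z' c +
        ig s (-Real.sqrt (τ / r)) Θ F W Z Z' c) := by
    intro c _
    have hnn : ∀ r ∈ Finset.Icc 1 F.card, 0 ≤ Real.exp (-τ) *
        (ig s (Real.sqrt (τ / r)) Θ F W Z Z' c + ig s (-Real.sqrt (τ / r)) Θ F W Z Z' c) := by
      intro r _
      unfold ig
      positivity
    by_cases hA : (2 * Real.sqrt (τ * ((KK (F ∩ W) (jn Z (Θ ∪ c)) (jn Z' (Θ ∪ c))).card : ℝ)) <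
      |dev s c (KK (F ∩ W) (jn Z (Θ ∪ c)) (jn Z' (Θ ∪ c)))|)
    · rw [ind_true hA]
      set K := KK (F ∩ W) (jn Z (Θ ∪ c)) (jn Z' (Θ ∪ c)) with hK
      have hK0 : K.card ≠ 0 := by
        intro h
        rw [Finset.card_eq_zero] at h
        rw [h, hdev0] at hA
        simp at hA
      have hK1 : K.card ≤ F.card := by
        refine Finset.card_le_card ?_
        intro e he
        rw [hK, mem_KK] at he
        exact (Finset.mem_inter.mp he.1).1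
      have hKm : K.card ∈ Finset.Icc 1 F.card := by
        rw [Finset.mem_Icc]
        omega
      refine le_trans ?_ (Finset.single_le_sum hnn hKm)
      have hr : (0 : ℝ) < (K.card : ℝ) := by exact_mod_cast Nat.pos_of_ne_zero hK0
      set θ := Real.sqrt (τ / (K.card : ℝ)) with hθ
      have hθ0 : 0 ≤ θ := Real.sqrt_nonneg _
      have hθ2 : θ ^ 2 * (K.card : ℝ) = τ := by
        rw [hθ, Real.sq_sqrt (by positivity)]
        field_simp
      have hθs : θ * Real.sqrt (τ * (K.card : ℝ)) = τ := by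
        rw [hθ, ← Real.sqrt_mul (by positivity)]
        have : τ / (K.card : ℝ) * (τ * (K.card : ℝ)) = τ ^ 2 := by
          field_simp
        rw [this, Real.sqrt_sq hτ]
      have hbig : 2 * τ ≤ θ * |dev s c K| := by
        calc 2 * τ = θ * (2 * Real.sqrt (τ * (K.card : ℝ))) := by
              rw [mul_left_comm, hθs]
          _ ≤ θ * |dev s c K| := mul_le_mul_of_nonneg_left hA.le hθ0
      have hsum : Real.exp τ ≤ ig s θ Θ F W Z Z' c + ig s (-θ) Θ F W Z Z' c := by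
        unfold ig
        rw [← hK]
        rcases abs_cases (dev s c K) with ⟨h1, _⟩ | ⟨h1, _⟩
        · have h2 : Real.exp τ ≤ Real.exp (θ * dev s c K - θ ^ 2 * (K.card : ℝ)) := by
            rw [Real.exp_le_exp]
            rw [h1] at hbig
            linarith
          have h3 := Real.exp_pos ((-θ) * dev s c K - (-θ) ^ 2 * (K.card : ℝ))
          linarith
        · have h2 : Real.exp τ ≤ Real.exp ((-θ) * dev s c K - (-θ) ^ 2 * (K.card : ℝ)) := by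
            rw [Real.exp_le_exp, neg_sq]
            rw [h1] at hbig
            linarith
          have h3 := Real.exp_pos (θ * dev s c K - θ ^ 2 * (K.card : ℝ))
          linarith
      calc (1 : ℝ) = Real.exp (-τ) * Real.exp τ := by rw [← Real.exp_add]; simp
        _ ≤ _ := mul_le_mul_of_nonneg_left hsum (Real.exp_pos _).le
    · rw [ind_false hA]
      exact Finset.sum_nonneg hnn
  refine (EB_mono s hs0 hs1 F _ _ key).trans ?_
  rw [EB_sum]
  have h1 : ∀ r ∈ Finset.Icc 1 F.card, EB s F (fun c => Real.exp (-τ) *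
      (ig s (Real.sqrt (τ / r)) Θ F W Z Z' c + ig s (-Real.sqrt (τ / r)) Θ F W Z Z' c)) ≤
      Real.exp (-τ) * 2 := by
    intro r _
    rw [EB_smul, EB_add]
    refine mul_le_mul_of_nonneg_left ?_ (Real.exp_pos _).le
    have h2 := exp_moment (θ := Real.sqrt (τ / r)) hs0 hs1 W Z Z' F.card F Θ rfl hF
    have h3 := exp_moment (θ := -Real.sqrt (τ / r)) hs0 hs1 W Z Z' F.card F Θ rfl hF
    have h4 : EB s F (fun η => ig s (Real.sqrt (τ / r)) Θ F W Z Z' η) ≤ 1 := h2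
    have h5 : EB s F (fun η => ig s (-Real.sqrt (τ / r)) Θ F W Z Z' η) ≤ 1 := h3
    linarith
  refine (Finset.sum_le_sum h1).trans ?_
  rw [Finset.sum_const, Nat.card_Icc, nsmul_eq_mul]
  have h6 : ((F.card + 1 - 1 : ℕ) : ℝ) = (F.card : ℝ) := by norm_num
  rw [h6]
  have := Real.exp_pos (-τ)
  nlinarith

/-- row `mm` (Tail.lean) -/
theorem MM_fail {s τ : ℝ} (hs0 : 0 ≤ s) (hs1 : s ≤ 1) (hτ : 0 ≤ τ) (B : Finset (Vx d))
    (Θ F W : Finset (Ed d)) (hF : Disjoint F Θ) :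
    EB s F (fun c => ind (¬ MM s τ B Θ F W c)) ≤
      4 * (B.card : ℝ) * ((F.card : ℝ) + 1) * Real.exp (-τ) := by
  have h0 : ∀ c : Finset (Ed d), c ⊆ F → ind (¬ MM s τ B Θ F W c) ≤
      ∑ z ∈ B, (ind (2 * Real.sqrt (τ * ((KK (F ∩ W) (jn {z} (Θ ∪ c)) (jn ∅ (Θ ∪ c))).card : ℝ)) <
          |dev s c (KK (F ∩ W) (jn {z} (Θ ∪ c)) (jn ∅ (Θ ∪ c)))|) +
        ind (2 * Real.sqrt (τ * ((KK (F ∩ W) (jn B (Θ ∪ c)) (jn {z} (Θ ∪ c))).card : ℝ)) <
          |dev s c (KK (F ∩ W) (jn B (Θ ∪ c)) (jn {z} (Θ ∪ c)))|)) := by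
    intro c _
    by_cases h : MM s τ B Θ F W c
    · rw [ind_false (not_not.mpr h)]
      exact Finset.sum_nonneg fun z _ => add_nonneg (ind_nonneg _) (ind_nonneg _)
    · rw [ind_true h]
      have h1 : ∃ z ∈ B, ¬ (|dev s c (KK (F ∩ W) (jn {z} (Θ ∪ c)) (jn ∅ (Θ ∪ c)))| ≤
          2 * Real.sqrt (τ * ((KK (F ∩ W) (jn {z} (Θ ∪ c)) (jn ∅ (Θ ∪ c))).card : ℝ)) ∧
          |dev s c (KK (F ∩ W) (jn B (Θ ∪ c)) (jn {z} (Θ ∪ c)))| ≤
          2 * Real.sqrt (τ * ((KK (F ∩ W) (jn B (Θ ∪ c)) (jn {z} (Θ ∪ c))).card : ℝ))) := by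
        by_contra h2
        refine h fun z hz => ?_
        by_contra h3
        exact h2 ⟨z, hz, h3⟩
      obtain ⟨z, hz, h2⟩ := h1
      refine le_trans ?_ (Finset.single_le_sum
        (f := fun z => ind (2 * Real.sqrt (τ * ((KK (F ∩ W) (jn {z} (Θ ∪ c))
            (jn ∅ (Θ ∪ c))).card : ℝ)) <
          |dev s c (KK (F ∩ W) (jn {z} (Θ ∪ c)) (jn ∅ (Θ ∪ c)))|) +
        ind (2 * Real.sqrt (τ * ((KK (F ∩ W) (jn B (Θ ∪ c)) (jn {z} (Θ ∪ c))).card : ℝ)) <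
          |dev s c (KK (F ∩ W) (jn B (Θ ∪ c)) (jn {z} (Θ ∪ c)))|))
        (fun w _ => add_nonneg (ind_nonneg _) (ind_nonneg _)) hz)
      rcases not_and_or.mp h2 with h3 | h3
      · rw [ind_true (not_le.mp h3)]
        exact le_add_of_nonneg_right (ind_nonneg _)
      · have h4 := ind_true (not_le.mp h3)
        show (1 : ℝ) ≤ _ + _
        rw [h4]
        exact le_add_of_nonneg_left (ind_nonneg _)
  refine (EB_mono s hs0 hs1 F _ _ h0).trans ?_
  rw [EB_sum]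
  have h5 : ∀ z ∈ B, EB s F (fun c =>
      (ind (2 * Real.sqrt (τ * ((KK (F ∩ W) (jn {z} (Θ ∪ c)) (jn ∅ (Θ ∪ c))).card : ℝ)) <
          |dev s c (KK (F ∩ W) (jn {z} (Θ ∪ c)) (jn ∅ (Θ ∪ c)))|) +
        ind (2 * Real.sqrt (τ * ((KK (F ∩ W) (jn B (Θ ∪ c)) (jn {z} (Θ ∪ c))).card : ℝ)) <
          |dev s c (KK (F ∩ W) (jn B (Θ ∪ c)) (jn {z} (Θ ∪ c)))|))) ≤
      4 * ((F.card : ℝ) + 1) * Real.exp (-τ) := by
    intro z _
    rw [EB_add]
    have h6 := dev_tail hs0 hs1 hτ W Θ F hF {z} ∅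
    have h7 := dev_tail hs0 hs1 hτ W Θ F hF B {z}
    linarith
  refine (Finset.sum_le_sum h5).trans (le_of_eq ?_)
  rw [Finset.sum_const, nsmul_eq_mul]
  ring

end Pool.Agent.Uni
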