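import Pool.Agent.Uni.Tail
import Pool.Agent.Uni.Geo
import Pool.Agent.Uni.Opn
import Pool.Agent.Uni.Cnt

/-!
# Block UNI, the step inequality (helper34)
-/

set_option autoImplicit false

namespace Pool.Agent.Uni

open Finset
open Pool.Agent.SRC

variable {d : ℕ}

/-- number of boundary clusters which meet the tiles, minus one -/
noncomputable def NN (V B : Finset (Vx d)) (ω : Finset (Ed d)) (a : Vx d) (k L : ℕ) : ℕ :=
  (fl (BC V B ω) fun X => (vis a k L X).Nonempty).card - 1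

/-- every tile is met by a boundary cluster -/
def TT (B : Finset (Vx d)) (ω : Finset (Ed d)) (a : Vx d) (k L : ℕ) : Prop :=
  ∀ u ∈ gr d L, ∃ x ∈ tl a k u, jn B ω x

/-- constant of the path opening -/
noncomputable def K2 (d : ℕ) (s : ℝ) (k : ℕ) : ℝ :=
  2 * (d : ℝ) * (k : ℝ) ^ (2 * d) * (2 / s) ^ ((d + 1) * k)

/-- constant of the contact count -/
noncomputable def K3 (d : ℕ) (s τ : ℝ) (k : ℕ) : ℝ :=
  4 * Real.sqrt τ * Real.sqrt (2 * (d : ℝ) * (k : ℝ) ^ d) / s

/-- the full constant -/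
noncomputable def KD (C : ℝ) (d : ℕ) (s τ : ℝ) (k : ℕ) : ℝ :=
  C * (k : ℝ) ^ d * K2 d s k * K3 d s τ k

theorem alg {D v : ℝ} (hD : 0 ≤ D) (hv : 1 ≤ v) :
    D * Real.sqrt v ≤ v ^ ((2 : ℝ) / 3) / 2 + 8 * D ^ 4 := by
  have hv0 : 0 < v := by linarith
  set w := v ^ ((1 : ℝ) / 6) with hw
  have hw0 : 0 < w := Real.rpow_pos_of_pos hv0 _
  have e1 : Real.sqrt v = w ^ 3 := by
    rw [hw, ← Real.rpow_natCast, ← Real.rpow_mul hv0.le, Real.sqrt_eq_rpow]
    norm_num
  have e2 : v ^ ((2 : ℝ) / 3) = w ^ 4 := by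
    rw [hw, ← Real.rpow_natCast, ← Real.rpow_mul hv0.le]
    norm_num
  rw [e1, e2]
  by_cases h : 2 * D ≤ w
  · have h1 : D * w ^ 3 ≤ w / 2 * w ^ 3 := mul_le_mul_of_nonneg_right (by linarith) (by positivity)
    have h2 : 0 ≤ 8 * D ^ 4 := by positivity
    nlinarith
  · have h1 : w ≤ 2 * D := (not_le.mp h).le
    have h2 : w ^ 3 ≤ (2 * D) ^ 3 := pow_le_pow_left₀ hw0.le h1 3
    have h3 : D * w ^ 3 ≤ D * (2 * D) ^ 3 := mul_le_mul_of_nonneg_left h2 hD
    have h4 : 0 ≤ w ^ 4 / 2 := by positivity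
    nlinarith

/-- one step of the iteration -/
theorem step (hd : 3 ≤ d) : ∃ C : ℝ, 0 < C ∧ ∀ (s τ : ℝ), 0 < s → s < 1 → 0 ≤ τ →
    ∀ (a : Vx d) (n k m L j : ℕ) (Θ F : Finset (Ed d)), 1 ≤ n → 1 ≤ k → k * L ≤ n → 1 ≤ m →
    2 * ((j + 1) * m) ≤ L → Θ ∪ F = edg (cb a n) → Disjoint F Θ →
    (m : ℝ) ^ ((2 : ℝ) / 3) * EB s F (fun c => ((NN (cb a n) (cbd a n) (Θ ∪ c)
        (og a k m (j + 1)) k (L - 2 * ((j + 1) * m)) : ℕ) : ℝ)) ≤
      16 * KD C d s τ k ^ 4 * EB s F (fun c => ((NN (cb a n) (cbd a n) (Θ ∪ c)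
        (og a k m j) k (L - 2 * (j * m)) : ℕ) : ℝ)) +
      2 * (C * (k : ℝ) ^ d * K2 d s k * ((d : ℝ) * (n : ℝ) ^ d) *
          EB s F (fun c => ind (¬ MM s τ (cbd a n) Θ F (rg (og a k m j) k (L - 2 * (j * m))) c)) +
        (n : ℝ) ^ d * EB s F (fun c => ind (¬ TT (cbd a n) (Θ ∪ c) (og a k m j) k
          (L - 2 * (j * m))))) := by
  classical
  obtain ⟨C, hC, hcnt⟩ := cnt hd
  refine ⟨C, hC, ?_⟩
  intro s τ hs0 hs1 hτ a n k m L j Θ F hn hk hkL hm hj hV hF
  set V := cb a n with hVd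
  set B := cbd a n with hBd
  set o := og a k m j with ho
  set M := L - 2 * (j * m) with hM
  set o' := og a k m (j + 1) with ho'
  set M' := L - 2 * ((j + 1) * m) with hM'
  have hBV : B ⊆ V := fl_subset _ _
  have hdR : (0 : ℝ) ≤ d := Nat.cast_nonneg d
  have hjm : 2 * (j * m) + 2 * m ≤ L := by
    have : 2 * ((j + 1) * m) = 2 * (j * m) + 2 * m := by ring
    omega
  have hM2 : 2 ≤ M := by omega
  have hML : M ≤ L := by omega
  -- the region lies in `V`
  have hreg : cb o (k * M) ⊆ V := by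
    intro x hx
    rw [hVd, mem_cb]
    rw [mem_cb] at hx
    intro i
    have h1 := hx i
    have h2 : o i = a i + (k : ℤ) * ((j : ℤ) * (m : ℤ)) := rfl
    rw [h2] at h1
    have h3 : (0 : ℤ) ≤ (k : ℤ) * ((j : ℤ) * (m : ℤ)) := by positivity
    refine ⟨by linarith [h1.1], ?_⟩
    have h4 : k * M + k * (j * m) ≤ n := by
      have h5 : k * M + k * (j * m) = k * (M + j * m) := by ring
      have h6 : M + j * m ≤ L := by omega
      calc k * M + k * (j * m) = k * (M + j * m) := h5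
        _ ≤ k * L := Nat.mul_le_mul_left k h6
        _ ≤ n := hkL
    have h7 : ((k * M : ℕ) : ℤ) + (k : ℤ) * ((j : ℤ) * (m : ℤ)) ≤ (n : ℤ) := by exact_mod_cast h4
    linarith [h1.2]
  have hkM : k * M ≤ n := (Nat.mul_le_mul_left k hML).trans hkL
  have hWV : rg o k M ⊆ edg V := by
    intro e he
    unfold rg edg at he
    unfold edg
    rw [Finset.mem_filter, Finset.mem_product] at he ⊢
    exact ⟨⟨hreg he.1.1, he.1.2⟩, hreg he.2⟩
  -- `B` is nonempty
  have hBne : B.Nonempty := by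
    refine ⟨a, ?_⟩
    rw [hBd, mem_cbd]
    refine ⟨?_, ⟨⟨0, by omega⟩, Or.inl rfl⟩⟩
    rw [mem_cb]
    intro i
    refine ⟨le_refl _, ?_⟩
    have : (1 : ℤ) ≤ (n : ℤ) := by exact_mod_cast hn
    linarith
  have hBCne : ∀ ω : Finset (Ed d), (BC V B ω).Nonempty := by
    intro ω
    obtain ⟨b, hb⟩ := hBne
    exact ⟨cl V ω b, mem_BC.mpr ⟨b, hb, rfl⟩⟩
  have hmax : ∀ c : Finset (Ed d), ∃ g ∈ BC V B (Θ ∪ c), ∀ X ∈ BC V B (Θ ∪ c),
      (vis o k M X).card ≤ (vis o k M g).card := fun c =>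
    Finset.exists_max_image (BC V B (Θ ∪ c)) (fun X => (vis o k M X).card) (hBCne _)
  choose g hg hgm using hmax
  set S23 : Finset (Ed d) → ℝ := fun c =>
    ∑ X ∈ (BC V B (Θ ∪ c)).erase (g c), ((vis o k M X).card : ℝ) ^ ((2 : ℝ) / 3) with hS23
  set S12 : Finset (Ed d) → ℝ := fun c =>
    ∑ X ∈ (BC V B (Θ ∪ c)).erase (g c), Real.sqrt ((vis o k M X).card : ℝ) with hS12
  set D := KD C d s τ k with hDd
  have hK2 : 0 ≤ K2 d s k := by
    unfold K2
    have : (0 : ℝ) ≤ 2 / s := by positivity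
    positivity
  have hK3 : 0 ≤ K3 d s τ k := by
    unfold K3
    positivity
  have hD0 : 0 ≤ D := by
    rw [hDd]
    unfold KD
    positivity
  have hsub : ∀ c ⊆ F, Θ ∪ c ⊆ edg V := by
    intro c hc
    rw [← hV]
    exact Finset.union_subset_union_right hc
  -- (a)
  have ha : ∀ c ⊆ F, S23 c ≤ C * (k : ℝ) ^ d * ((fl (edg (gr d M)) (Ctc B o k (Θ ∪ c))).card : ℝ) +
      (n : ℝ) ^ d * ind (¬ TT B (Θ ∪ c) o k M) := by
    intro c hc
    by_cases hT : TT B (Θ ∪ c) o k M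
    · have h1 := hcnt V B (Θ ∪ c) o k M hk hM2 hBV hreg (hsub c hc) hT (g c) (hg c) (hgm c)
      have h2 : ind (¬ TT B (Θ ∪ c) o k M) = 0 := ind_false (not_not.mpr hT)
      rw [h2, mul_zero, add_zero]
      exact h1
    · have h1 := vis_sum V B (Θ ∪ c) o k M n hreg hk hkM (g c)
      have h2 : ind (¬ TT B (Θ ∪ c) o k M) = 1 := ind_true hT
      rw [h2, mul_one]
      have h3 : 0 ≤ C * (k : ℝ) ^ d * ((fl (edg (gr d M)) (Ctc B o k (Θ ∪ c))).card : ℝ) := by
        positivity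
      linarith
  -- (c)
  have hc3 : ∀ c ⊆ F, ((fl (rg o k M) (Con B (Θ ∪ c))).card : ℝ) ≤
      K3 d s τ k * S12 c + (d : ℝ) * (n : ℝ) ^ d *
        ind (¬ MM s τ B Θ F (rg o k M) c) := by
    intro c hc
    by_cases hT : MM s τ B Θ F (rg o k M) c
    · have h1 := con_le s τ hτ V B Θ F (rg o k M) c hBV hV hF hc hWV hT (g c) (hg c)
      have h2 : ind (¬ MM s τ B Θ F (rg o k M) c) = 0 := ind_false (not_not.mpr hT)
      rw [h2, mul_zero, add_zero]
      have h3 : ∑ X ∈ (BC V B (Θ ∪ c)).erase (g c), Real.sqrt (RR (F ∩ rg o k M) X) ≤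
          Real.sqrt (2 * (d : ℝ) * (k : ℝ) ^ d) * S12 c := by
        rw [hS12]
        show _ ≤ Real.sqrt (2 * (d : ℝ) * (k : ℝ) ^ d) *
          ∑ X ∈ (BC V B (Θ ∪ c)).erase (g c), Real.sqrt ((vis o k M X).card : ℝ)
        rw [Finset.mul_sum]
        refine Finset.sum_le_sum fun X _ => ?_
        rw [← Real.sqrt_mul (by positivity)]
        exact Real.sqrt_le_sqrt (RR_vis o k M hk F X)
      have h4 : s * ((fl (rg o k M) (Con B (Θ ∪ c))).card : ℝ) ≤
          4 * Real.sqrt τ * (Real.sqrt (2 * (d : ℝ) * (k : ℝ) ^ d) * S12 c) :=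
        h1.trans (mul_le_mul_of_nonneg_left h3 (by positivity))
      have h5 : K3 d s τ k * S12 c =
          4 * Real.sqrt τ * (Real.sqrt (2 * (d : ℝ) * (k : ℝ) ^ d) * S12 c) / s := by
        unfold K3
        ring
      rw [h5, le_div_iff₀ hs0]
      linarith
    · have h2 : ind (¬ MM s τ B Θ F (rg o k M) c) = 1 := ind_true hT
      rw [h2, mul_one]
      have h3 : 0 ≤ K3 d s τ k * S12 c := by
        refine mul_nonneg hK3 ?_
        exact Finset.sum_nonneg fun X _ => Real.sqrt_nonneg _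
      have h4 : ((fl (rg o k M) (Con B (Θ ∪ c))).card : ℝ) ≤ (d : ℝ) * (n : ℝ) ^ d := by
        have h5 : (fl (rg o k M) (Con B (Θ ∪ c))).card ≤ (V ×ˢ (Finset.univ : Finset (Fin d))).card := by
          refine Finset.card_le_card fun e he => ?_
          have h6 := hWV (fl_subset _ _ he)
          unfold edg at h6
          rw [Finset.mem_filter] at h6
          exact h6.1
        have h7 : (V ×ˢ (Finset.univ : Finset (Fin d))).card = n ^ d * d := by
          rw [Finset.card_product, Finset.card_univ, Fintype.card_fin]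
          congr 1
          rw [hVd]
          unfold cb
          rw [Pi.card_Icc]
          have : ∀ i : Fin d, (Finset.Icc (a i) (a i + (n : ℤ) - 1)).card = n := by
            intro i
            rw [Int.card_Icc]
            omega
          rw [Finset.prod_congr rfl fun i _ => this i, Finset.prod_const, Finset.card_univ,
            Fintype.card_fin]
        rw [h7] at h5
        have h8 : (((fl (rg o k M) (Con B (Θ ∪ c))).card : ℕ) : ℝ) ≤ ((n ^ d * d : ℕ) : ℝ) := by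
          exact_mod_cast h5
        push_cast at h8
        linarith
      linarith
  -- (d)
  have hd4 : ∀ c ⊆ F, D * S12 c ≤ S23 c / 2 + 8 * D ^ 4 *
      ((NN V B (Θ ∪ c) o k M : ℕ) : ℝ) := by
    intro c _
    set Q := (BC V B (Θ ∪ c)).erase (g c) with hQ
    have h1 : ∀ X ∈ Q, D * Real.sqrt ((vis o k M X).card : ℝ) ≤
        ((vis o k M X).card : ℝ) ^ ((2 : ℝ) / 3) / 2 + 8 * D ^ 4 *
          ind ((vis o k M X).Nonempty) := by
      intro X _
      by_cases hX : (vis o k M X).Nonempty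
      · rw [ind_true hX, mul_one]
        refine alg hD0 ?_
        exact_mod_cast Finset.card_pos.mpr hX
      · rw [ind_false hX, mul_zero, add_zero]
        rw [Finset.not_nonempty_iff_eq_empty] at hX
        rw [hX, Finset.card_empty, Nat.cast_zero, Real.sqrt_zero, mul_zero,
          Real.zero_rpow (by norm_num)]
        norm_num
    have h2 : D * S12 c ≤ ∑ X ∈ Q, (((vis o k M X).card : ℝ) ^ ((2 : ℝ) / 3) / 2 + 8 * D ^ 4 *
          ind ((vis o k M X).Nonempty)) := by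
      rw [hS12]
      show D * ∑ X ∈ Q, Real.sqrt ((vis o k M X).card : ℝ) ≤ _
      rw [Finset.mul_sum]
      exact Finset.sum_le_sum h1
    rw [Finset.sum_add_distrib, ← Finset.sum_div, ← Finset.mul_sum, ← card_fl] at h2
    refine h2.trans ?_
    refine add_le_add (le_refl _) (mul_le_mul_of_nonneg_left ?_ (by positivity))
    have h3 : (fl Q fun X => (vis o k M X).Nonempty).card ≤ NN V B (Θ ∪ c) o k M := by
      unfold NN
      by_cases hgn : (vis o k M (g c)).Nonempty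
      · have h4 : (fl Q fun X => (vis o k M X).Nonempty) =
            (fl (BC V B (Θ ∪ c)) fun X => (vis o k M X).Nonempty).erase (g c) := by
          ext X
          rw [hQ, mem_fl, Finset.mem_erase, Finset.mem_erase, mem_fl, and_assoc]
        rw [h4, Finset.card_erase_of_mem ((mem_fl _ _ _).mpr ⟨hg c, hgn⟩)]
      · have h4 : (fl Q fun X => (vis o k M X).Nonempty) = ∅ := by
          rw [Finset.eq_empty_iff_forall_notMem]
          intro X hX
          rw [mem_fl, hQ, Finset.mem_erase] at hX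
          have h5 := hgm c X hX.1.2
          rw [Finset.not_nonempty_iff_eq_empty] at hgn
          rw [hgn, Finset.card_empty] at h5
          have h6 := Finset.card_pos.mpr hX.2
          omega
        rw [h4, Finset.card_empty]
        exact Nat.zero_le _
    exact_mod_cast h3
  -- (e)
  have he5 : ∀ c ⊆ F, (m : ℝ) ^ ((2 : ℝ) / 3) * ((NN V B (Θ ∪ c) o' k M' : ℕ) : ℝ) ≤ S23 c := by
    intro c hc
    set Q := (BC V B (Θ ∪ c)).erase (g c) with hQ
    have h1 : NN V B (Θ ∪ c) o' k M' ≤ (fl Q fun X => (vis o' k M' X).Nonempty).card := by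
      unfold NN
      have h4 : (fl Q fun X => (vis o' k M' X).Nonempty) =
          (fl (BC V B (Θ ∪ c)) fun X => (vis o' k M' X).Nonempty).erase (g c) := by
        ext X
        rw [hQ, mem_fl, Finset.mem_erase, Finset.mem_erase, mem_fl, and_assoc]
      rw [h4]
      exact Finset.pred_card_le_card_erase
    have h2 : ∀ X ∈ Q, (m : ℝ) ^ ((2 : ℝ) / 3) * ind ((vis o' k M' X).Nonempty) ≤
        ((vis o k M X).card : ℝ) ^ ((2 : ℝ) / 3) := by
      intro X hX
      by_cases hv : (vis o' k M' X).Nonempty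
      · rw [ind_true hv, mul_one]
        refine Real.rpow_le_rpow (Nat.cast_nonneg _) ?_ (by norm_num)
        have h3 := crs (by omega : 1 ≤ d) a n k m L hk hkL j hj (Θ ∪ c) (hsub c hc) X
          (Finset.mem_of_mem_erase hX) hv
        exact_mod_cast h3
      · rw [ind_false hv, mul_zero]
        exact Real.rpow_nonneg (Nat.cast_nonneg _) _
    calc (m : ℝ) ^ ((2 : ℝ) / 3) * ((NN V B (Θ ∪ c) o' k M' : ℕ) : ℝ)
        ≤ (m : ℝ) ^ ((2 : ℝ) / 3) * (((fl Q fun X => (vis o' k M' X).Nonempty).card : ℕ) : ℝ) := by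
          refine mul_le_mul_of_nonneg_left ?_ (Real.rpow_nonneg (Nat.cast_nonneg _) _)
          exact_mod_cast h1
      _ = ∑ X ∈ Q, (m : ℝ) ^ ((2 : ℝ) / 3) * ind ((vis o' k M' X).Nonempty) := by
          rw [card_fl, Finset.mul_sum]
      _ ≤ S23 c := Finset.sum_le_sum h2
  -- expectations
  have hs1' : s ≤ 1 := hs1.le
  have E1 : EB s F S23 ≤ C * (k : ℝ) ^ d *
      EB s F (fun c => ((fl (edg (gr d M)) (Ctc B o k (Θ ∪ c))).card : ℝ)) +
      (n : ℝ) ^ d * EB s F (fun c => ind (¬ TT B (Θ ∪ c) o k M)) := by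
    rw [← EB_smul, ← EB_smul, ← EB_add]
    exact EB_mono s hs0.le hs1' F _ _ fun c hc => ha c hc
  have E2 := opn hs0 hs1' V B Θ F hV hF o k M hk hreg
  have E3 : EB s F (fun c => ((fl (rg o k M) (Con B (Θ ∪ c))).card : ℝ)) ≤
      K3 d s τ k * EB s F S12 + (d : ℝ) * (n : ℝ) ^ d *
        EB s F (fun c => ind (¬ MM s τ B Θ F (rg o k M) c)) := by
    rw [← EB_smul, ← EB_smul, ← EB_add]
    exact EB_mono s hs0.le hs1' F _ _ fun c hc => hc3 c hc
  have E4 : D * EB s F S12 ≤ (1 / 2) * EB s F S23 + 8 * D ^ 4 *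
      EB s F (fun c => ((NN V B (Θ ∪ c) o k M : ℕ) : ℝ)) := by
    rw [← EB_smul, ← EB_smul, ← EB_smul, ← EB_add]
    refine EB_mono s hs0.le hs1' F _ _ fun c hc => ?_
    have := hd4 c hc
    linarith
  have E5 : (m : ℝ) ^ ((2 : ℝ) / 3) * EB s F (fun c => ((NN V B (Θ ∪ c) o' k M' : ℕ) : ℝ)) ≤
      EB s F S23 := by
    rw [← EB_smul]
    exact EB_mono s hs0.le hs1' F _ _ fun c hc => he5 c hc
  have hCk : 0 ≤ C * (k : ℝ) ^ d := by positivity
  have E6 : C * (k : ℝ) ^ d *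
      EB s F (fun c => ((fl (edg (gr d M)) (Ctc B o k (Θ ∪ c))).card : ℝ)) ≤
      C * (k : ℝ) ^ d * (K2 d s k * (K3 d s τ k * EB s F S12 + (d : ℝ) * (n : ℝ) ^ d *
        EB s F (fun c => ind (¬ MM s τ B Θ F (rg o k M) c)))) := by
    refine mul_le_mul_of_nonneg_left ?_ hCk
    refine E2.trans ?_
    exact mul_le_mul_of_nonneg_left E3 hK2
  have hDe : D * EB s F S12 = C * (k : ℝ) ^ d * (K2 d s k * (K3 d s τ k * EB s F S12)) := by
    rw [hDd]
    unfold KD
    ring
  nlinarith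

end Pool.Agent.Uni
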